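import Mathlib

/-!
# Schatten norms of rectangular complex matrices and the constants `C_p`
-/

namespace Pool.Agent.Hlawka

open Matrix
open scoped ENNReal

/-- The singular values of an `N × M` complex matrix `X`: the square roots of the eigenvalues of
`Xᴴ X` (with multiplicity, indexed by `Fin M`; beyond the `min N M` first ones they vanish). -/
noncomputable def singularValue {N M : ℕ} (X : Matrix (Fin N) (Fin M) ℂ) (i : Fin M) : ℝ :=
  Real.sqrt ((isHermitian_conjTranspose_mul_self X).eigenvalues i)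

/-- The Schatten `p`-norm `(∑ σ_i(X)^p)^{1/p}`. -/
noncomputable def schattenNorm (p : ℝ) {N M : ℕ} (X : Matrix (Fin N) (Fin M) ℂ) : ℝ :=
  (∑ i, singularValue X i ^ p) ^ (1 / p)

/-- `D₂(X,Y) = ‖X‖ + ‖Y‖ - ‖X + Y‖`. -/
noncomputable def D₂ (p : ℝ) {N M : ℕ} (X Y : Matrix (Fin N) (Fin M) ℂ) : ℝ :=
  schattenNorm p X + schattenNorm p Y - schattenNorm p (X + Y)

/-- `D₃(X,Y,Z) = ‖X‖ + ‖Y‖ + ‖Z‖ - ‖X + Y + Z‖`. -/
noncomputable def D₃ (p : ℝ) {N M : ℕ} (X Y Z : Matrix (Fin N) (Fin M) ℂ) : ℝ :=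
  schattenNorm p X + schattenNorm p Y + schattenNorm p Z - schattenNorm p (X + Y + Z)

/-- The inequality `D₃ ≤ C (D₂ + D₂ + D₂)` holds for all matrices of all sizes. -/
def HlawkaHolds (p C : ℝ) : Prop :=
  ∀ N M : ℕ, 1 ≤ N → 1 ≤ M → ∀ X Y Z : Matrix (Fin N) (Fin M) ℂ,
    D₃ p X Y Z ≤ C * (D₂ p X Y + D₂ p X Z + D₂ p Y Z)

/-- `C_p`: the infimum in `[0,∞]` of all constants `C ≥ 0` for which the inequality holds. -/
noncomputable def hlawkaConst (p : ℝ) : ℝ≥0∞ :=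
  sInf {c : ℝ≥0∞ | ∃ C : ℝ, 0 ≤ C ∧ HlawkaHolds p C ∧ c = ENNReal.ofReal C}

end Pool.Agent.Hlawka
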