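import Mathlib

/-!
# Scalar inequalities for the Bregman divergence of `|t|^p`
-/

namespace Pool.Agent.Hlawka

/-- `g(t) = sgn(t) |t|^{p/2}` -/
noncomputable def gF (p t : ℝ) : ℝ := if 0 ≤ t then t ^ (p / 2) else -(-t) ^ (p / 2)

/-- the derivative of `|t|^p` -/
noncomputable def dF (p t : ℝ) : ℝ := if 0 ≤ t then p * t ^ (p - 1) else -(p * (-t) ^ (p - 1))

/-- the Bregman divergence of `|t|^p` -/
noncomputable def bF (p a b : ℝ) : ℝ := |a| ^ p - |b| ^ p - dF p b * (a - b)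

lemma gF_of_nonneg {p t : ℝ} (ht : 0 ≤ t) : gF p t = t ^ (p / 2) := if_pos ht

lemma gF_of_neg {p t : ℝ} (ht : t < 0) : gF p t = -(-t) ^ (p / 2) := if_neg (by linarith)

lemma dF_of_nonneg {p t : ℝ} (ht : 0 ≤ t) : dF p t = p * t ^ (p - 1) := if_pos ht

lemma dF_of_neg {p t : ℝ} (ht : t < 0) : dF p t = -(p * (-t) ^ (p - 1)) := if_neg (by linarith)

lemma rpow_sub_one_mul_self {p t : ℝ} (hp : 1 < p) (ht : 0 ≤ t) : t ^ (p - 1) * t = t ^ p := by
  conv_lhs => rw [← Real.rpow_one t, ← Real.rpow_mul ht]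
  rw [← Real.rpow_add_of_nonneg ht (by linarith) (by norm_num)]
  congr 1; ring

lemma dF_mul_self {p : ℝ} (hp : 1 < p) (t : ℝ) : dF p t * t = p * |t| ^ p := by
  rcases lt_or_ge t 0 with h | h
  · rw [dF_of_neg h, abs_of_neg h, ← rpow_sub_one_mul_self hp (by linarith : 0 ≤ -t)]; ring
  · rw [dF_of_nonneg h, abs_of_nonneg h, ← rpow_sub_one_mul_self hp h]; ring

lemma bF_eq {p : ℝ} (hp : 1 < p) (a b : ℝ) :
    bF p a b = |a| ^ p + (p - 1) * |b| ^ p - dF p b * a := by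
  have := dF_mul_self hp b
  unfold bF
  linear_combination this

lemma sq_half {p a : ℝ} (ha : 0 ≤ a) : (a ^ (p / 2)) ^ 2 = a ^ p := by
  rw [← Real.rpow_natCast, ← Real.rpow_mul ha]; congr 1; push_cast; ring

lemma young1 {p a b : ℝ} (hp : 2 ≤ p) (ha : 0 ≤ a) (hb : 0 ≤ b) :
    p * (b ^ (p - 1) * a) ≤ (p - 2) * b ^ p + 2 * (a ^ (p / 2) * b ^ (p / 2)) := by
  have key := Real.geom_mean_le_arith_mean2_weighted (w₁ := (p - 2) / p) (w₂ := 2 / p)
    (p₁ := b ^ p) (p₂ := a ^ (p / 2) * b ^ (p / 2)) (div_nonneg (by linarith) (by linarith))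
    (by positivity) (Real.rpow_nonneg hb _) (by positivity) (by field_simp; ring)
  have hp0 : p ≠ 0 := by linarith
  rw [← Real.rpow_mul hb, Real.mul_rpow (by positivity) (by positivity), ← Real.rpow_mul ha,
    ← Real.rpow_mul hb, show p * ((p - 2) / p) = p - 2 by field_simp,
    show p / 2 * (2 / p) = 1 by field_simp, Real.rpow_one, Real.rpow_one,
    show b ^ (p - 2) * (a * b) = b ^ (p - 2) * b ^ (1 : ℝ) * a by rw [Real.rpow_one]; ring,
    ← Real.rpow_add_of_nonneg hb (by linarith) (by norm_num),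
    show p - 2 + 1 = p - 1 by ring] at key
  have := mul_le_mul_of_nonneg_left key (by linarith : 0 ≤ p)
  have e : p * ((p - 2) / p * b ^ p + 2 / p * (a ^ (p / 2) * b ^ (p / 2)))
      = (p - 2) * b ^ p + 2 * (a ^ (p / 2) * b ^ (p / 2)) := by field_simp
  rw [e] at this
  exact this

lemma young2 {p a b : ℝ} (hp : 2 ≤ p) (ha : 0 ≤ a) (hb : 0 ≤ b) :
    2 * (p - 1) * (a ^ (p / 2) * b ^ (p / 2)) ≤ (p - 2) * a ^ p + p * (b ^ (p - 1) * a) := by
  have hp1 : p - 1 ≠ 0 := by intro h; linarith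
  have hp0 : p ≠ 0 := by linarith
  have key := Real.geom_mean_le_arith_mean2_weighted (w₁ := (p - 2) / (2 * (p - 1)))
    (w₂ := p / (2 * (p - 1)))
    (p₁ := a ^ p) (p₂ := b ^ (p - 1) * a) (div_nonneg (by linarith) (by linarith))
    (div_nonneg (by linarith) (by linarith)) (Real.rpow_nonneg ha _)
    (mul_nonneg (Real.rpow_nonneg hb _) ha) (by field_simp; ring)
  rw [← Real.rpow_mul ha, Real.mul_rpow (Real.rpow_nonneg hb _) ha, ← Real.rpow_mul hb,
    show (p - 1) * (p / (2 * (p - 1))) = p / 2 by field_simp,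
    show a ^ (p * ((p - 2) / (2 * (p - 1)))) * (b ^ (p / 2) * a ^ (p / (2 * (p - 1))))
      = (a ^ (p * ((p - 2) / (2 * (p - 1)))) * a ^ (p / (2 * (p - 1)))) * b ^ (p / 2) by ring,
    ← Real.rpow_add_of_nonneg ha
      (mul_nonneg (by linarith) (div_nonneg (by linarith) (by linarith)))
      (div_nonneg (by linarith) (by linarith)),
    show p * ((p - 2) / (2 * (p - 1))) + p / (2 * (p - 1)) = p / 2 by field_simp; ring] at key
  have := mul_le_mul_of_nonneg_left key (by linarith : 0 ≤ 2 * (p - 1))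
  have e : 2 * (p - 1) * ((p - 2) / (2 * (p - 1)) * a ^ p + p / (2 * (p - 1)) * (b ^ (p - 1) * a))
      = (p - 2) * a ^ p + p * (b ^ (p - 1) * a) := by field_simp
  rw [e] at this
  exact this

lemma young3 {p a b : ℝ} (hp1 : 1 < p) (hp : p ≤ 2) (ha : 0 ≤ a) (hb : 0 ≤ b) :
    2 * (a ^ (p / 2) * b ^ (p / 2)) ≤ p * (b ^ (p - 1) * a) + (2 - p) * b ^ p := by
  have hp0 : p ≠ 0 := by linarith
  have key := Real.geom_mean_le_arith_mean2_weighted (w₁ := p / 2)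
    (w₂ := (2 - p) / 2)
    (p₁ := b ^ (p - 1) * a) (p₂ := b ^ p) (div_nonneg (by linarith) (by linarith))
    (div_nonneg (by linarith) (by linarith)) (mul_nonneg (Real.rpow_nonneg hb _) ha)
    (Real.rpow_nonneg hb _) (by ring)
  rw [Real.mul_rpow (Real.rpow_nonneg hb _) ha, ← Real.rpow_mul hb, ← Real.rpow_mul hb,
    show b ^ ((p - 1) * (p / 2)) * a ^ (p / 2) * b ^ (p * ((2 - p) / 2))
      = a ^ (p / 2) * (b ^ ((p - 1) * (p / 2)) * b ^ (p * ((2 - p) / 2))) by ring,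
    ← Real.rpow_add_of_nonneg hb (mul_nonneg (by linarith) (by linarith))
      (mul_nonneg (by linarith) (div_nonneg (by linarith) (by linarith))),
    show (p - 1) * (p / 2) + p * ((2 - p) / 2) = p / 2 by ring] at key
  linarith

lemma young4 {p a b : ℝ} (hp1 : 1 < p) (hp : p ≤ 2) (ha : 0 ≤ a) (hb : 0 ≤ b) :
    p * (b ^ (p - 1) * a) ≤ (2 - p) * a ^ p + 2 * (p - 1) * (a ^ (p / 2) * b ^ (p / 2)) := by
  have hp0 : p ≠ 0 := by linarith
  have key := Real.geom_mean_le_arith_mean2_weighted (w₁ := (2 - p) / p)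
    (w₂ := 2 * (p - 1) / p)
    (p₁ := a ^ p) (p₂ := a ^ (p / 2) * b ^ (p / 2)) (div_nonneg (by linarith) (by linarith))
    (div_nonneg (by linarith) (by linarith)) (Real.rpow_nonneg ha _)
    (mul_nonneg (Real.rpow_nonneg ha _) (Real.rpow_nonneg hb _)) (by field_simp; ring)
  rw [← Real.rpow_mul ha, Real.mul_rpow (Real.rpow_nonneg ha _) (Real.rpow_nonneg hb _),
    ← Real.rpow_mul ha, ← Real.rpow_mul hb, show p * ((2 - p) / p) = 2 - p by field_simp,
    show p / 2 * (2 * (p - 1) / p) = p - 1 by field_simp,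
    show a ^ (2 - p) * (a ^ (p - 1) * b ^ (p - 1)) = b ^ (p - 1) * (a ^ (2 - p) * a ^ (p - 1)) by
      ring,
    ← Real.rpow_add_of_nonneg ha (by linarith) (by linarith),
    show 2 - p + (p - 1) = 1 by ring, Real.rpow_one] at key
  have := mul_le_mul_of_nonneg_left key (by linarith : 0 ≤ p)
  have e : p * ((2 - p) / p * a ^ p + 2 * (p - 1) / p * (a ^ (p / 2) * b ^ (p / 2)))
      = (2 - p) * a ^ p + 2 * (p - 1) * (a ^ (p / 2) * b ^ (p / 2)) := by field_simp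
  rw [e] at this
  exact this

lemma young5 {p a b : ℝ} (hp1 : 1 < p) (ha : 0 ≤ a) (hb : 0 ≤ b) :
    p * (b ^ (p - 1) * a) ≤ (p - 1) * b ^ p + a ^ p := by
  have hp0 : p ≠ 0 := by linarith
  have key := Real.geom_mean_le_arith_mean2_weighted (w₁ := (p - 1) / p)
    (w₂ := 1 / p)
    (p₁ := b ^ p) (p₂ := a ^ p) (div_nonneg (by linarith) (by linarith))
    (div_nonneg (by linarith) (by linarith)) (Real.rpow_nonneg hb _)
    (Real.rpow_nonneg ha _) (by field_simp; ring)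
  rw [← Real.rpow_mul ha, ← Real.rpow_mul hb, show p * ((p - 1) / p) = p - 1 by field_simp,
    show p * (1 / p) = 1 by field_simp, Real.rpow_one] at key
  have := mul_le_mul_of_nonneg_left key (by linarith : 0 ≤ p)
  have e : p * ((p - 1) / p * b ^ p + 1 / p * a ^ p) = (p - 1) * b ^ p + a ^ p := by field_simp
  rw [e] at this
  exact this

/-- same sign, nonneg version -/
lemma same_lower {p a b : ℝ} (hp : 1 < p) (ha : 0 ≤ a) (hb : 0 ≤ b) :
    min 1 (p - 1) * (a ^ (p / 2) - b ^ (p / 2)) ^ 2 ≤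
      a ^ p + (p - 1) * b ^ p - p * (b ^ (p - 1) * a) := by
  have h1 := sq_half (p := p) ha
  have h2 := sq_half (p := p) hb
  rcases le_total 2 p with h | h
  · rw [min_eq_left (by linarith)]
    have := young1 h ha hb
    nlinarith
  · rw [min_eq_right (by linarith)]
    have := young4 hp h ha hb
    nlinarith

lemma same_upper {p a b : ℝ} (hp : 1 < p) (ha : 0 ≤ a) (hb : 0 ≤ b) :
    a ^ p + (p - 1) * b ^ p - p * (b ^ (p - 1) * a) ≤
      2 * p * (a ^ (p / 2) - b ^ (p / 2)) ^ 2 := by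
  have h1 := sq_half (p := p) ha
  have h2 := sq_half (p := p) hb
  rcases le_total 2 p with h | h
  · have := young2 h ha hb
    nlinarith [sq_nonneg (a ^ (p / 2) - b ^ (p / 2))]
  · have := young3 hp h ha hb
    nlinarith [sq_nonneg (a ^ (p / 2) - b ^ (p / 2))]

lemma opp_lower {p a b : ℝ} (hp : 1 < p) (ha : 0 ≤ a) (hb : 0 ≤ b) :
    min 1 (p - 1) / 2 * (a ^ (p / 2) + b ^ (p / 2)) ^ 2 ≤
      a ^ p + (p - 1) * b ^ p + p * (b ^ (p - 1) * a) := by
  have h1 := sq_half (p := p) ha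
  have h2 := sq_half (p := p) hb
  have hm1 : min 1 (p - 1) ≤ 1 := min_le_left _ _
  have hm2 : min 1 (p - 1) ≤ p - 1 := min_le_right _ _
  have hm0 : 0 ≤ min 1 (p - 1) := le_min (by norm_num) (by linarith)
  have h3 : 0 ≤ p * (b ^ (p - 1) * a) := by positivity
  have h4 : (a ^ (p / 2) + b ^ (p / 2)) ^ 2 ≤ 2 * (a ^ p + b ^ p) := by
    rw [← h1, ← h2]; nlinarith [sq_nonneg (a ^ (p / 2) - b ^ (p / 2))]
  have h5 : 0 ≤ a ^ p := Real.rpow_nonneg ha _
  have h6 : 0 ≤ b ^ p := Real.rpow_nonneg hb _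
  have h7 : min 1 (p - 1) / 2 * (a ^ (p / 2) + b ^ (p / 2)) ^ 2 ≤
      min 1 (p - 1) / 2 * (2 * (a ^ p + b ^ p)) :=
    mul_le_mul_of_nonneg_left h4 (by linarith)
  have h8 : min 1 (p - 1) * a ^ p ≤ 1 * a ^ p := mul_le_mul_of_nonneg_right hm1 h5
  have h9 : min 1 (p - 1) * b ^ p ≤ (p - 1) * b ^ p := mul_le_mul_of_nonneg_right hm2 h6
  linarith

lemma opp_upper {p a b : ℝ} (hp : 1 < p) (ha : 0 ≤ a) (hb : 0 ≤ b) :
    a ^ p + (p - 1) * b ^ p + p * (b ^ (p - 1) * a) ≤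
      2 * p * (a ^ (p / 2) + b ^ (p / 2)) ^ 2 := by
  have h1 := sq_half (p := p) ha
  have h2 := sq_half (p := p) hb
  have h3 := young5 hp ha hb
  have h5 : 0 ≤ a ^ p := Real.rpow_nonneg ha _
  have h6 : 0 ≤ b ^ p := Real.rpow_nonneg hb _
  have h7 : 0 ≤ a ^ (p / 2) * b ^ (p / 2) := by positivity
  have h8 : a ^ p + b ^ p ≤ (a ^ (p / 2) + b ^ (p / 2)) ^ 2 := by
    rw [← h1, ← h2]; nlinarith
  have h9 : 2 * p * (a ^ p + b ^ p) ≤ 2 * p * (a ^ (p / 2) + b ^ (p / 2)) ^ 2 :=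
    mul_le_mul_of_nonneg_left h8 (by linarith)
  nlinarith

/-- lower bound of the scalar Bregman divergence -/
theorem bF_lower {p : ℝ} (hp : 1 < p) (a b : ℝ) :
    min 1 (p - 1) / 2 * (gF p a - gF p b) ^ 2 ≤ bF p a b := by
  have hm0 : 0 ≤ min 1 (p - 1) := le_min (by norm_num) (by linarith)
  rw [bF_eq hp]
  rcases lt_or_ge a 0 with ha | ha <;> rcases lt_or_ge b 0 with hb | hb
  · rw [gF_of_neg ha, gF_of_neg hb, abs_of_neg ha, abs_of_neg hb, dF_of_neg hb]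
    have h := same_lower hp (by linarith : 0 ≤ -a) (by linarith : 0 ≤ -b)
    have h' : 0 ≤ min 1 (p - 1) * ((-a) ^ (p / 2) - (-b) ^ (p / 2)) ^ 2 := by positivity
    have e : (-(-a) ^ (p / 2) - -(-b) ^ (p / 2)) ^ 2 = ((-a) ^ (p / 2) - (-b) ^ (p / 2)) ^ 2 := by
      ring
    rw [e]; linarith
  · rw [gF_of_neg ha, gF_of_nonneg hb, abs_of_neg ha, abs_of_nonneg hb, dF_of_nonneg hb]
    have h := opp_lower hp (by linarith : 0 ≤ -a) hb
    have e : (-(-a) ^ (p / 2) - b ^ (p / 2)) ^ 2 = ((-a) ^ (p / 2) + b ^ (p / 2)) ^ 2 := by ring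
    rw [e]; linarith
  · rw [gF_of_nonneg ha, gF_of_neg hb, abs_of_nonneg ha, abs_of_neg hb, dF_of_neg hb]
    have h := opp_lower hp ha (by linarith : 0 ≤ -b)
    have e : (a ^ (p / 2) - -(-b) ^ (p / 2)) ^ 2 = (a ^ (p / 2) + (-b) ^ (p / 2)) ^ 2 := by ring
    rw [e]; linarith
  · rw [gF_of_nonneg ha, gF_of_nonneg hb, abs_of_nonneg ha, abs_of_nonneg hb, dF_of_nonneg hb]
    have h := same_lower hp ha hb
    have h' : 0 ≤ min 1 (p - 1) * (a ^ (p / 2) - b ^ (p / 2)) ^ 2 := by positivity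
    linarith

/-- upper bound of the scalar Bregman divergence -/
theorem bF_upper {p : ℝ} (hp : 1 < p) (a b : ℝ) :
    bF p a b ≤ 2 * p * (gF p a - gF p b) ^ 2 := by
  rw [bF_eq hp]
  rcases lt_or_ge a 0 with ha | ha <;> rcases lt_or_ge b 0 with hb | hb
  · rw [gF_of_neg ha, gF_of_neg hb, abs_of_neg ha, abs_of_neg hb, dF_of_neg hb]
    have h := same_upper hp (by linarith : 0 ≤ -a) (by linarith : 0 ≤ -b)
    have e : (-(-a) ^ (p / 2) - -(-b) ^ (p / 2)) ^ 2 = ((-a) ^ (p / 2) - (-b) ^ (p / 2)) ^ 2 := by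
      ring
    rw [e]; linarith
  · rw [gF_of_neg ha, gF_of_nonneg hb, abs_of_neg ha, abs_of_nonneg hb, dF_of_nonneg hb]
    have h := opp_upper hp (by linarith : 0 ≤ -a) hb
    have e : (-(-a) ^ (p / 2) - b ^ (p / 2)) ^ 2 = ((-a) ^ (p / 2) + b ^ (p / 2)) ^ 2 := by ring
    rw [e]; linarith
  · rw [gF_of_nonneg ha, gF_of_neg hb, abs_of_nonneg ha, abs_of_neg hb, dF_of_neg hb]
    have h := opp_upper hp ha (by linarith : 0 ≤ -b)
    have e : (a ^ (p / 2) - -(-b) ^ (p / 2)) ^ 2 = (a ^ (p / 2) + (-b) ^ (p / 2)) ^ 2 := by ring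
    rw [e]; linarith
  · rw [gF_of_nonneg ha, gF_of_nonneg hb, abs_of_nonneg ha, abs_of_nonneg hb, dF_of_nonneg hb]
    have h := same_upper hp ha hb
    linarith

end Pool.Agent.Hlawka
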