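import Mathlib
import Pool.Agent.Hlawka.Scalar

/-!
# Trace functions of Hermitian matrices
-/

namespace Pool.Agent.Hlawka

open Matrix Finset Unitary

variable {ι : Type*} [Fintype ι] [DecidableEq ι]

/-- matrix function -/
noncomputable def mf (g : ℝ → ℝ) {A : Matrix ι ι ℂ} (hA : A.IsHermitian) : Matrix ι ι ℂ :=
  (hA.eigenvectorUnitary : Matrix ι ι ℂ) *
    diagonal (fun i => ((g (hA.eigenvalues i) : ℝ) : ℂ)) *
    star (hA.eigenvectorUnitary : Matrix ι ι ℂ)

/-- overlaps of the eigenvectors -/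
noncomputable def ov {A B : Matrix ι ι ℂ} (hA : A.IsHermitian) (hB : B.IsHermitian) (i j : ι) : ℝ :=
  Complex.normSq ((star (hA.eigenvectorUnitary : Matrix ι ι ℂ) *
    (hB.eigenvectorUnitary : Matrix ι ι ℂ)) i j)

lemma ov_nonneg {A B : Matrix ι ι ℂ} (hA : A.IsHermitian) (hB : B.IsHermitian) (i j : ι) :
    0 ≤ ov hA hB i j := Complex.normSq_nonneg _

lemma star_mul_self_U {A : Matrix ι ι ℂ} (hA : A.IsHermitian) :
    star (hA.eigenvectorUnitary : Matrix ι ι ℂ) * (hA.eigenvectorUnitary : Matrix ι ι ℂ) = 1 :=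
  Unitary.coe_star_mul_self _

lemma mul_star_self_U {A : Matrix ι ι ℂ} (hA : A.IsHermitian) :
    (hA.eigenvectorUnitary : Matrix ι ι ℂ) * star (hA.eigenvectorUnitary : Matrix ι ι ℂ) = 1 :=
  Unitary.coe_mul_star_self _

lemma mf_id {A : Matrix ι ι ℂ} (hA : A.IsHermitian) : mf id hA = A := by
  conv_rhs => rw [hA.spectral_theorem]
  rfl

lemma mf_one {A : Matrix ι ι ℂ} (hA : A.IsHermitian) : mf (fun _ => 1) hA = 1 := by
  unfold mf
  have : (diagonal (fun _ : ι => (((1 : ℝ)) : ℂ))) = (1 : Matrix ι ι ℂ) := by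
    simp
  rw [this, mul_one, mul_star_self_U]

lemma mf_isHermitian (g : ℝ → ℝ) {A : Matrix ι ι ℂ} (hA : A.IsHermitian) :
    (mf g hA).IsHermitian := by
  unfold mf
  rw [star_eq_conjTranspose]
  apply isHermitian_mul_mul_conjTranspose
  rw [isHermitian_diagonal_iff]
  intro i
  simp [IsSelfAdjoint]

/-- the joint trace identity -/
theorem trace_mf_mul_mf (g h : ℝ → ℝ) {A B : Matrix ι ι ℂ} (hA : A.IsHermitian)
    (hB : B.IsHermitian) :
    (mf g hA * mf h hB).trace =
      ((∑ i, ∑ j, g (hA.eigenvalues i) * h (hB.eigenvalues j) * ov hA hB i j : ℝ) : ℂ) := by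
  set U := (hA.eigenvectorUnitary : Matrix ι ι ℂ)
  set V := (hB.eigenvectorUnitary : Matrix ι ι ℂ)
  set W := star U * V with hW
  have e : mf g hA * mf h hB = U * (diagonal (fun i => ((g (hA.eigenvalues i) : ℝ) : ℂ)) * W *
      diagonal (fun i => ((h (hB.eigenvalues i) : ℝ) : ℂ)) * star V) := by
    unfold mf
    simp only [mul_assoc, hW, U, V]
  have e2 : star V * U = star W := by rw [hW, star_mul, star_star]
  rw [e, trace_mul_comm, mul_assoc, e2, Matrix.trace]
  push_cast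
  apply Finset.sum_congr rfl
  intro i _
  rw [Matrix.diag_apply, Matrix.mul_apply]
  apply Finset.sum_congr rfl
  intro j _
  rw [Matrix.mul_diagonal, Matrix.diagonal_mul, star_apply]
  have : (ov hA hB i j : ℂ) = W i j * star (W i j) := by
    unfold ov
    rw [← hW]
    simp [Complex.mul_conj]
  rw [this]
  ring

lemma ov_row {A B : Matrix ι ι ℂ} (hA : A.IsHermitian) (hB : B.IsHermitian) (i : ι) :
    ∑ j, ov hA hB i j = 1 := by
  set U := (hA.eigenvectorUnitary : Matrix ι ι ℂ) with hU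
  set V := (hB.eigenvectorUnitary : Matrix ι ι ℂ) with hV
  have h : (star U * V) * star (star U * V) = 1 := by
    rw [star_mul, star_star, mul_assoc, ← mul_assoc V, mul_star_self_U, one_mul, star_mul_self_U]
  have h2 := congrFun (congrFun h i) i
  rw [Matrix.mul_apply, Matrix.one_apply_eq] at h2
  have h3 : ((∑ j, ov hA hB i j : ℝ) : ℂ) = 1 := by
    rw [← h2]
    push_cast
    apply Finset.sum_congr rfl
    intro j _
    unfold ov
    rw [← hU, ← hV, star_apply]
    simp [Complex.mul_conj]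
  exact_mod_cast h3

lemma ov_symm {A B : Matrix ι ι ℂ} (hA : A.IsHermitian) (hB : B.IsHermitian) (i j : ι) :
    ov hA hB i j = ov hB hA j i := by
  unfold ov
  have : star (hA.eigenvectorUnitary : Matrix ι ι ℂ) * (hB.eigenvectorUnitary : Matrix ι ι ℂ)
      = star (star (hB.eigenvectorUnitary : Matrix ι ι ℂ) *
        (hA.eigenvectorUnitary : Matrix ι ι ℂ)) := by rw [star_mul, star_star]
  rw [this, star_apply]
  simp

lemma ov_col {A B : Matrix ι ι ℂ} (hA : A.IsHermitian) (hB : B.IsHermitian) (j : ι) :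
    ∑ i, ov hA hB i j = 1 := by
  simp_rw [ov_symm hA hB]
  exact ov_row hB hA j

lemma ov_self {A : Matrix ι ι ℂ} (hA : A.IsHermitian) (i j : ι) :
    ov hA hA i j = if i = j then 1 else 0 := by
  unfold ov
  rw [star_mul_self_U, Matrix.one_apply]
  split_ifs <;> simp

/-- trace function -/
noncomputable def trF (f : ℝ → ℝ) {A : Matrix ι ι ℂ} (hA : A.IsHermitian) : ℝ :=
  ∑ i, f (hA.eigenvalues i)

lemma sum_ov_left (f : ℝ → ℝ) {A B : Matrix ι ι ℂ} (hA : A.IsHermitian) (hB : B.IsHermitian) :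
    ∑ i, ∑ j, f (hA.eigenvalues i) * ov hA hB i j = trF f hA := by
  unfold trF
  apply Finset.sum_congr rfl
  intro i _
  rw [← Finset.mul_sum, ov_row, mul_one]

lemma sum_ov_right (f : ℝ → ℝ) {A B : Matrix ι ι ℂ} (hA : A.IsHermitian) (hB : B.IsHermitian) :
    ∑ i, ∑ j, f (hB.eigenvalues j) * ov hA hB i j = trF f hB := by
  rw [Finset.sum_comm]
  unfold trF
  apply Finset.sum_congr rfl
  intro j _
  rw [← Finset.mul_sum, ov_col, mul_one]

/-- the linear functional `A ↦ Tr (f'(B) A)` -/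
noncomputable def lin (f : ℝ → ℝ) {B : Matrix ι ι ℂ} (hB : B.IsHermitian) (A : Matrix ι ι ℂ) : ℝ :=
  (A * mf f hB).trace.re

lemma lin_add (f : ℝ → ℝ) {B : Matrix ι ι ℂ} (hB : B.IsHermitian) (A A' : Matrix ι ι ℂ) :
    lin f hB (A + A') = lin f hB A + lin f hB A' := by
  unfold lin
  rw [add_mul, trace_add, Complex.add_re]

lemma lin_smul (f : ℝ → ℝ) {B : Matrix ι ι ℂ} (hB : B.IsHermitian) (r : ℝ) (A : Matrix ι ι ℂ) :
    lin f hB (r • A) = r * lin f hB A := by
  unfold lin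
  rw [smul_mul_assoc, trace_smul, Complex.smul_re, smul_eq_mul]

lemma lin_eq (f : ℝ → ℝ) {A B : Matrix ι ι ℂ} (hA : A.IsHermitian) (hB : B.IsHermitian) :
    lin f hB A = ∑ i, ∑ j, hA.eigenvalues i * f (hB.eigenvalues j) * ov hA hB i j := by
  unfold lin
  conv_lhs => rw [← mf_id hA]
  rw [trace_mf_mul_mf, Complex.ofReal_re]
  rfl

lemma lin_self (f : ℝ → ℝ) {B : Matrix ι ι ℂ} (hB : B.IsHermitian) :
    lin f hB B = ∑ j, f (hB.eigenvalues j) * hB.eigenvalues j := by
  rw [lin_eq f hB hB]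
  simp_rw [ov_self]
  apply Finset.sum_congr rfl
  intro i _
  rw [Finset.sum_eq_single i]
  · simp; ring
  · intro j _ hj; simp [hj.symm]
  · intro h; exact absurd (Finset.mem_univ i) h

/-- **Bregman identity.** -/
theorem bregman {p : ℝ} (hp : 1 < p) {A B : Matrix ι ι ℂ} (hA : A.IsHermitian)
    (hB : B.IsHermitian) :
    trF (fun t => |t| ^ p) hA + (p - 1) * trF (fun t => |t| ^ p) hB - lin (dF p) hB A =
      ∑ i, ∑ j, bF p (hA.eigenvalues i) (hB.eigenvalues j) * ov hA hB i j := by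
  rw [lin_eq (dF p) hA hB, ← sum_ov_left (fun t => |t| ^ p) hA hB,
    ← sum_ov_right (fun t => |t| ^ p) hA hB, Finset.mul_sum]
  simp_rw [Finset.mul_sum]
  rw [← Finset.sum_add_distrib, ← Finset.sum_sub_distrib]
  apply Finset.sum_congr rfl
  intro i _
  rw [← Finset.sum_add_distrib, ← Finset.sum_sub_distrib]
  apply Finset.sum_congr rfl
  intro j _
  rw [bF_eq hp]
  ring

/-- the squared Hilbert-Schmidt distance of the Mazur images -/
noncomputable def Qd (p : ℝ) {A B : Matrix ι ι ℂ} (hA : A.IsHermitian) (hB : B.IsHermitian) : ℝ :=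
  ∑ k, ∑ l, ‖mf (gF p) hA k l - mf (gF p) hB k l‖ ^ 2

lemma trace_mul_self_eq {C : Matrix ι ι ℂ} (hC : C.IsHermitian) :
    (C * C).trace = ((∑ k, ∑ l, ‖C k l‖ ^ 2 : ℝ) : ℂ) := by
  rw [Matrix.trace]
  push_cast
  apply Finset.sum_congr rfl
  intro k _
  rw [Matrix.diag_apply, Matrix.mul_apply]
  apply Finset.sum_congr rfl
  intro l _
  rw [← hC.apply l k]
  rw [← Complex.ofReal_pow, ← Complex.normSq_eq_norm_sq, ← Complex.mul_conj]
  rfl

theorem Qd_eq (p : ℝ) {A B : Matrix ι ι ℂ} (hA : A.IsHermitian) (hB : B.IsHermitian) :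
    Qd p hA hB =
      ∑ i, ∑ j, (gF p (hA.eigenvalues i) - gF p (hB.eigenvalues j)) ^ 2 * ov hA hB i j := by
  have hH : (mf (gF p) hA - mf (gF p) hB).IsHermitian :=
    (mf_isHermitian _ hA).sub (mf_isHermitian _ hB)
  have h1 := trace_mul_self_eq hH
  have h2 : (mf (gF p) hA - mf (gF p) hB) * (mf (gF p) hA - mf (gF p) hB)
      = mf (gF p) hA * mf (gF p) hA - mf (gF p) hA * mf (gF p) hB
        - mf (gF p) hB * mf (gF p) hA + mf (gF p) hB * mf (gF p) hB := by
    rw [sub_mul, mul_sub, mul_sub]; abel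
  have hself : ∀ {C : Matrix ι ι ℂ} (hC : C.IsHermitian),
      (mf (gF p) hC * mf (gF p) hC).trace = ((trF (fun t => gF p t ^ 2) hC : ℝ) : ℂ) := by
    intro C hC
    rw [trace_mf_mul_mf]
    congr 1
    unfold trF
    apply Finset.sum_congr rfl
    intro i _
    rw [Finset.sum_eq_single i]
    · rw [ov_self, if_pos rfl]; ring
    · intro j _ hj; rw [ov_self, if_neg hj.symm, mul_zero]
    · intro h; exact absurd (Finset.mem_univ i) h
  rw [h2, trace_add, trace_sub, trace_sub, trace_mul_comm (mf (gF p) hB) (mf (gF p) hA),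
    hself hA, hself hB, trace_mf_mul_mf] at h1
  have h3 : Qd p hA hB = trF (fun t => gF p t ^ 2) hA
      - (∑ i, ∑ j, gF p (hA.eigenvalues i) * gF p (hB.eigenvalues j) * ov hA hB i j)
      - (∑ i, ∑ j, gF p (hA.eigenvalues i) * gF p (hB.eigenvalues j) * ov hA hB i j)
      + trF (fun t => gF p t ^ 2) hB := by
    have : ((Qd p hA hB : ℝ) : ℂ) = ((trF (fun t => gF p t ^ 2) hA
      - (∑ i, ∑ j, gF p (hA.eigenvalues i) * gF p (hB.eigenvalues j) * ov hA hB i j)
      - (∑ i, ∑ j, gF p (hA.eigenvalues i) * gF p (hB.eigenvalues j) * ov hA hB i j)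
      + trF (fun t => gF p t ^ 2) hB : ℝ) : ℂ) := by
      unfold Qd
      rw [Complex.ofReal_add, Complex.ofReal_sub, Complex.ofReal_sub, h1]
      rfl
    exact_mod_cast this
  rw [h3, ← sum_ov_left (fun t => gF p t ^ 2) hA hB, ← sum_ov_right (fun t => gF p t ^ 2) hA hB,
    ← Finset.sum_sub_distrib, ← Finset.sum_sub_distrib, ← Finset.sum_add_distrib]
  apply Finset.sum_congr rfl
  intro i _
  rw [← Finset.sum_sub_distrib, ← Finset.sum_sub_distrib, ← Finset.sum_add_distrib]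
  apply Finset.sum_congr rfl
  intro j _
  ring

lemma Qd_triangle (p : ℝ) {A B C : Matrix ι ι ℂ} (hA : A.IsHermitian) (hB : B.IsHermitian)
    (hC : C.IsHermitian) : Qd p hA hB ≤ 2 * (Qd p hA hC + Qd p hB hC) := by
  unfold Qd
  rw [← Finset.sum_add_distrib, Finset.mul_sum]
  apply Finset.sum_le_sum
  intro k _
  rw [← Finset.sum_add_distrib, Finset.mul_sum]
  apply Finset.sum_le_sum
  intro l _
  have h : mf (gF p) hA k l - mf (gF p) hB k l
      = (mf (gF p) hA k l - mf (gF p) hC k l) - (mf (gF p) hB k l - mf (gF p) hC k l) := by ring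
  rw [h]
  have h2 := norm_sub_le (mf (gF p) hA k l - mf (gF p) hC k l)
    (mf (gF p) hB k l - mf (gF p) hC k l)
  have h3 := norm_nonneg (mf (gF p) hA k l - mf (gF p) hC k l
    - (mf (gF p) hB k l - mf (gF p) hC k l))
  have h4 := sq_nonneg (‖mf (gF p) hA k l - mf (gF p) hC k l‖
    - ‖mf (gF p) hB k l - mf (gF p) hC k l‖)
  nlinarith

/-- Bregman divergence -/
noncomputable def Br (p : ℝ) {A B : Matrix ι ι ℂ} (hA : A.IsHermitian) (hB : B.IsHermitian) : ℝ :=
  trF (fun t => |t| ^ p) hA + (p - 1) * trF (fun t => |t| ^ p) hB - lin (dF p) hB A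

theorem Br_lower {p : ℝ} (hp : 1 < p) {A B : Matrix ι ι ℂ} (hA : A.IsHermitian)
    (hB : B.IsHermitian) : min 1 (p - 1) / 2 * Qd p hA hB ≤ Br p hA hB := by
  unfold Br
  rw [bregman hp, Qd_eq, Finset.mul_sum]
  apply Finset.sum_le_sum
  intro i _
  rw [Finset.mul_sum]
  apply Finset.sum_le_sum
  intro j _
  rw [← mul_assoc]
  exact mul_le_mul_of_nonneg_right (bF_lower hp _ _) (ov_nonneg _ _ _ _)

theorem Br_upper {p : ℝ} (hp : 1 < p) {A B : Matrix ι ι ℂ} (hA : A.IsHermitian)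
    (hB : B.IsHermitian) : Br p hA hB ≤ 2 * p * Qd p hA hB := by
  unfold Br
  rw [bregman hp, Qd_eq, Finset.mul_sum]
  apply Finset.sum_le_sum
  intro i _
  rw [Finset.mul_sum]
  apply Finset.sum_le_sum
  intro j _
  rw [← mul_assoc]
  exact mul_le_mul_of_nonneg_right (bF_upper hp _ _) (ov_nonneg _ _ _ _)

lemma Qd_nonneg (p : ℝ) {A B : Matrix ι ι ℂ} (hA : A.IsHermitian) (hB : B.IsHermitian) :
    0 ≤ Qd p hA hB := by
  unfold Qd; positivity

theorem Br_nonneg {p : ℝ} (hp : 1 < p) {A B : Matrix ι ι ℂ} (hA : A.IsHermitian)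
    (hB : B.IsHermitian) : 0 ≤ Br p hA hB := by
  refine le_trans ?_ (Br_lower hp hA hB)
  have hm0 : 0 ≤ min 1 (p - 1) := le_min (by norm_num) (by linarith)
  have := Qd_nonneg p hA hB
  positivity

end Pool.Agent.Hlawka
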