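import Mathlib
import Pool.Agent.Hlawka.Herm

/-!
# The Schatten norm of Hermitian matrices and the three-vector inequality
-/

namespace Pool.Agent.Hlawka

open Matrix Finset Unitary

variable {ι : Type*} [Fintype ι] [DecidableEq ι]

/-- sum of `f` over the (real parts of the) roots of a polynomial -/
noncomputable def rs (f : ℝ → ℝ) (P : Polynomial ℂ) : ℝ := (P.roots.map (fun z => f z.re)).sum

lemma rs_mul (f : ℝ → ℝ) {P Q : Polynomial ℂ} (hP : P ≠ 0) (hQ : Q ≠ 0) :
    rs f (P * Q) = rs f P + rs f Q := by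
  unfold rs
  rw [Polynomial.roots_mul (mul_ne_zero hP hQ), Multiset.map_add, Multiset.sum_add]

lemma rs_prod (f : ℝ → ℝ) (d : ι → ℝ) :
    rs f (∏ i, (Polynomial.X - Polynomial.C ((d i : ℝ) : ℂ))) = ∑ i, f (d i) := by
  unfold rs
  rw [Polynomial.roots_prod]
  · simp
  · simp [Finset.prod_ne_zero_iff, Polynomial.X_sub_C_ne_zero]

lemma rs_X_pow (f : ℝ → ℝ) (n : ℕ) : rs f (Polynomial.X ^ n : Polynomial ℂ) = n * f 0 := by
  unfold rs
  rw [Polynomial.roots_X_pow, Multiset.map_nsmul, Multiset.sum_nsmul]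
  simp

lemma trF_eq_rs (f : ℝ → ℝ) {A : Matrix ι ι ℂ} (hA : A.IsHermitian) :
    trF f hA = rs f A.charpoly := by
  rw [hA.charpoly_eq]
  exact (rs_prod f hA.eigenvalues).symm

/-- charpoly of `U D U*` -/
lemma charpoly_conj_diag (U : Matrix ι ι ℂ) (hU : star U * U = 1) (d : ι → ℝ) :
    (U * diagonal (fun i => ((d i : ℝ) : ℂ)) * star U).charpoly =
      ∏ i, (Polynomial.X - Polynomial.C ((d i : ℝ) : ℂ)) := by
  rw [charpoly_mul_comm, ← mul_assoc, hU, one_mul, charpoly_diagonal]

lemma charpoly_smul {A : Matrix ι ι ℂ} (hA : A.IsHermitian) (r : ℝ) :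
    (r • A).charpoly =
      ∏ i, (Polynomial.X - Polynomial.C ((r * hA.eigenvalues i : ℝ) : ℂ)) := by
  rw [← charpoly_conj_diag _ (star_mul_self_U hA)]
  congr 1
  conv_lhs => rw [← mf_id hA]
  unfold mf
  rw [← smul_mul_assoc, ← mul_smul_comm]
  congr 2
  ext i j
  by_cases h : i = j
  · subst h; simp
  · simp [h]

lemma charpoly_sq {A : Matrix ι ι ℂ} (hA : A.IsHermitian) :
    (A * A).charpoly =
      ∏ i, (Polynomial.X - Polynomial.C ((hA.eigenvalues i ^ 2 : ℝ) : ℂ)) := by
  rw [← charpoly_conj_diag _ (star_mul_self_U hA)]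
  congr 1
  conv_lhs => rw [← mf_id hA]
  unfold mf
  set U := (hA.eigenvectorUnitary : Matrix ι ι ℂ) with hU
  set D := diagonal (fun i => ((id (hA.eigenvalues i) : ℝ) : ℂ)) with hD
  have h1 : U * D * star U * (U * D * star U) = U * (D * (star U * U) * D) * star U := by
    simp only [mul_assoc]
  rw [h1, hU, star_mul_self_U, mul_one, hD, diagonal_mul_diagonal]
  congr 3
  ext i
  simp; ring

/-- `∑ |λ_i|^p` -/
noncomputable def Fp (p : ℝ) (A : Matrix ι ι ℂ) : ℝ := rs (fun t => |t| ^ p) A.charpoly

lemma Fp_eq (p : ℝ) {A : Matrix ι ι ℂ} (hA : A.IsHermitian) :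
    Fp p A = trF (fun t => |t| ^ p) hA := (trF_eq_rs _ hA).symm

lemma Fp_nonneg (p : ℝ) {A : Matrix ι ι ℂ} (hA : A.IsHermitian) : 0 ≤ Fp p A := by
  rw [Fp_eq p hA]
  unfold trF
  positivity

lemma Fp_smul {p : ℝ} {A : Matrix ι ι ℂ} (hA : A.IsHermitian) (r : ℝ) :
    Fp p (r • A) = |r| ^ p * Fp p A := by
  rw [Fp_eq p hA]
  unfold Fp
  rw [charpoly_smul hA, rs_prod]
  unfold trF
  rw [Finset.mul_sum]
  apply Finset.sum_congr rfl
  intro i _
  rw [abs_mul, Real.mul_rpow (abs_nonneg _) (abs_nonneg _)]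

/-- the norm -/
noncomputable def hn (p : ℝ) (A : Matrix ι ι ℂ) : ℝ := (Fp p A) ^ (1 / p)

lemma hn_nonneg (p : ℝ) {A : Matrix ι ι ℂ} (hA : A.IsHermitian) : 0 ≤ hn p A :=
  Real.rpow_nonneg (Fp_nonneg p hA) _

lemma hn_rpow {p : ℝ} (hp : 1 < p) {A : Matrix ι ι ℂ} (hA : A.IsHermitian) :
    hn p A ^ p = Fp p A := by
  unfold hn
  rw [← Real.rpow_mul (Fp_nonneg p hA), one_div_mul_cancel (by linarith), Real.rpow_one]

lemma isHermitian_smul_real {A : Matrix ι ι ℂ} (hA : A.IsHermitian) (r : ℝ) :
    (r • A).IsHermitian := by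
  unfold IsHermitian
  rw [conjTranspose_smul, hA.eq]
  simp

lemma hn_smul {p : ℝ} (hp : 1 < p) {A : Matrix ι ι ℂ} (hA : A.IsHermitian) (r : ℝ) :
    hn p (r • A) = |r| * hn p A := by
  unfold hn
  rw [Fp_smul hA, Real.mul_rpow (Real.rpow_nonneg (abs_nonneg _) _) (Fp_nonneg p hA),
    ← Real.rpow_mul (abs_nonneg _), mul_one_div_cancel (by linarith), Real.rpow_one]

lemma lin_neg (f : ℝ → ℝ) {B : Matrix ι ι ℂ} (hB : B.IsHermitian) (A : Matrix ι ι ℂ) :
    lin f hB (-A) = - lin f hB A := by
  have := lin_smul f hB (-1) A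
  rw [neg_one_smul] at this
  rw [this]; ring

lemma lin_dF_self {p : ℝ} (hp : 1 < p) {B : Matrix ι ι ℂ} (hB : B.IsHermitian) :
    lin (dF p) hB B = p * Fp p B := by
  rw [lin_self, Fp_eq p hB]
  unfold trF
  rw [Finset.mul_sum]
  apply Finset.sum_congr rfl
  intro i _
  exact dF_mul_self hp _

/-- support functional inequality, `B` of norm one -/
lemma lin_le {p : ℝ} (hp : 1 < p) {A B : Matrix ι ι ℂ} (hA : A.IsHermitian)
    (hB : B.IsHermitian) (hB1 : Fp p B = 1) : lin (dF p) hB A ≤ p * hn p A := by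
  have hp0 : 0 < p := by linarith
  -- the inequality for all positive multiples
  have hall : ∀ t : ℝ, 0 < t → t * lin (dF p) hB A ≤ t ^ p * Fp p A + (p - 1) := by
    intro t ht
    have h := Br_nonneg hp (isHermitian_smul_real hA t) hB
    unfold Br at h
    rw [← Fp_eq, ← Fp_eq, hB1, Fp_smul hA, abs_of_pos ht, lin_smul] at h
    linarith
  rcases (hn_nonneg p hA).eq_or_lt with h0 | h0
  · -- norm zero
    have hF : Fp p A = 0 := by
      rw [← hn_rpow hp hA, ← h0, Real.zero_rpow hp0.ne']
    rw [← h0, mul_zero]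
    by_contra hcon
    push Not at hcon
    have h1 := hall (p / lin (dF p) hB A) (by positivity)
    rw [hF, mul_zero, div_mul_cancel₀ _ hcon.ne'] at h1
    linarith
  · have h1 := hall (1 / hn p A) (by positivity)
    rw [Real.div_rpow zero_le_one h0.le, Real.one_rpow, hn_rpow hp hA] at h1
    have hF : Fp p A ≠ 0 := by
      rw [← hn_rpow hp hA]; positivity
    rw [one_div_mul_cancel hF] at h1
    have h2 := mul_le_mul_of_nonneg_left h1 h0.le
    have e : hn p A * (1 / hn p A * lin (dF p) hB A) = lin (dF p) hB A := by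
      field_simp
    rw [e] at h2
    linarith

/-- triangle inequality -/
lemma hn_add_le {p : ℝ} (hp : 1 < p) {A B : Matrix ι ι ℂ} (hA : A.IsHermitian)
    (hB : B.IsHermitian) : hn p (A + B) ≤ hn p A + hn p B := by
  have hS : (A + B).IsHermitian := hA.add hB
  have hp0 : 0 < p := by linarith
  rcases (hn_nonneg p hS).eq_or_lt with h0 | h0
  · rw [← h0]
    exact add_nonneg (hn_nonneg p hA) (hn_nonneg p hB)
  · set s := (1 / hn p (A + B)) • (A + B) with hs
    have hsH : s.IsHermitian := isHermitian_smul_real hS _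
    have hs1 : Fp p s = 1 := by
      rw [hs, Fp_smul hS, abs_of_pos (by positivity), Real.div_rpow zero_le_one h0.le,
        Real.one_rpow, hn_rpow hp hS]
      have : Fp p (A + B) ≠ 0 := by rw [← hn_rpow hp hS]; positivity
      field_simp
    have h1 : lin (dF p) hsH (A + B) = p * hn p (A + B) := by
      have : A + B = hn p (A + B) • s := by
        rw [hs, smul_smul, mul_one_div_cancel h0.ne', one_smul]
      conv_lhs => rw [this]
      rw [lin_smul, lin_dF_self hp, hs1]; ring
    have h2 := lin_le hp hA hsH hs1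
    have h3 := lin_le hp hB hsH hs1
    rw [lin_add] at h1
    have h4 : p * hn p (A + B) ≤ p * (hn p A + hn p B) := by linarith
    exact le_of_mul_le_mul_left h4 hp0

lemma Br_eq {p : ℝ} {A B : Matrix ι ι ℂ} (hA : A.IsHermitian) (hB : B.IsHermitian) :
    Br p hA hB = Fp p A + (p - 1) * Fp p B - lin (dF p) hB A := by
  unfold Br
  rw [← Fp_eq, ← Fp_eq]

/-- midpoint estimate for unit vectors -/
lemma midpoint {p : ℝ} (hp : 1 < p) {x z : Matrix ι ι ℂ} (hx : x.IsHermitian)
    (hz : z.IsHermitian) (hx1 : Fp p x = 1) (hz1 : Fp p z = 1) :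
    min 1 (p - 1) / (8 * p) * (1 - lin (dF p) hz x / p) ≤ 2 - hn p (x + z) := by
  have hp0 : 0 < p := by linarith
  set m := (1 / 2 : ℝ) • (x + z) with hm
  have hmH : m.IsHermitian := isHermitian_smul_real (hx.add hz) _
  have hnx : hn p x = 1 := by unfold hn; rw [hx1, Real.one_rpow]
  have hnz : hn p z = 1 := by unfold hn; rw [hz1, Real.one_rpow]
  have hnm : hn p (x + z) = 2 * hn p m := by
    rw [hm, hn_smul hp (hx.add hz), abs_of_pos (by norm_num)]; ring
  have hm0 : 0 ≤ hn p m := hn_nonneg p hmH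
  have hm1 : hn p m ≤ 1 := by
    have := hn_add_le hp hx hz
    linarith
  -- Bernoulli
  have hber : 1 + p * (hn p m - 1) ≤ Fp p m := by
    rw [← hn_rpow hp hmH]
    have := one_add_mul_self_le_rpow_one_add (s := hn p m - 1) (by linarith) hp.le
    rw [show 1 + (hn p m - 1) = hn p m by ring] at this
    exact this
  -- Bregman
  have hsum : Br p hx hmH + Br p hz hmH = 2 - 2 * Fp p m := by
    rw [Br_eq, Br_eq, hx1, hz1]
    have h1 : lin (dF p) hmH x + lin (dF p) hmH z = 2 * (p * Fp p m) := by
      rw [← lin_add, ← lin_dF_self hp hmH, ← lin_smul]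
      congr 1
      rw [hm, smul_smul]; norm_num
    linear_combination -h1
  have h1 := Br_lower hp hx hmH
  have h2 := Br_lower hp hz hmH
  have h3 := Qd_triangle p hx hz hmH
  have h4 := Br_upper hp hx hz
  have h5 : Br p hx hz = p - lin (dF p) hz x := by
    rw [Br_eq, hx1, hz1]; ring
  have hk0 : 0 < min 1 (p - 1) := lt_min (by norm_num) (by linarith)
  set κ := min 1 (p - 1)
  have h6 : κ / 4 * Qd p hx hz ≤ 2 - 2 * Fp p m := by nlinarith
  have h7 : κ / (8 * p) * Br p hx hz ≤ κ / 4 * Qd p hx hz := by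
    have : κ / (8 * p) * Br p hx hz ≤ κ / (8 * p) * (2 * p * Qd p hx hz) :=
      mul_le_mul_of_nonneg_left h4 (by positivity)
    have e : κ / (8 * p) * (2 * p * Qd p hx hz) = κ / 4 * Qd p hx hz := by
      field_simp; ring
    linarith
  rw [h5] at h7
  have h8 : p * (κ / (8 * p) * (1 - lin (dF p) hz x / p)) ≤ p * (2 - hn p (x + z)) := by
    have e : p * (κ / (8 * p) * (1 - lin (dF p) hz x / p)) =
        κ / (8 * p) * (p - lin (dF p) hz x) := by field_simp
    rw [e, hnm]
    nlinarith
  exact le_of_mul_le_mul_left h8 hp0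

/-- the defect `n(A) - L_z(A)/p` is controlled by the two-vector defect -/
lemma defect {p : ℝ} (hp : 1 < p) {A z : Matrix ι ι ℂ} (hA : A.IsHermitian)
    (hz : z.IsHermitian) (hz1 : Fp p z = 1) {c : ℝ} (hc : hn p A ≤ c) :
    min 1 (p - 1) / (8 * p) * (hn p A - lin (dF p) hz A / p) ≤
      hn p A + c - hn p (A + c • z) := by
  have hp0 : 0 < p := by linarith
  have hk0 : 0 < min 1 (p - 1) := lt_min (by norm_num) (by linarith)
  have hnz : hn p z = 1 := by unfold hn; rw [hz1, Real.one_rpow]
  have ha0 := hn_nonneg p hA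
  -- monotonicity
  have hmono : hn p (A + c • z) ≤ hn p (A + hn p A • z) + (c - hn p A) := by
    have e : A + c • z = (A + hn p A • z) + (c - hn p A) • z := by
      rw [sub_smul]; abel
    have h := hn_add_le hp (hA.add (isHermitian_smul_real hz (hn p A)))
      (isHermitian_smul_real hz (c - hn p A))
    rw [← e, hn_smul hp hz (c - hn p A), abs_of_nonneg (by linarith), hnz] at h
    linarith
  rcases ha0.eq_or_lt with h0 | h0
  · -- `A` of norm zero
    have h1 : -lin (dF p) hz A ≤ 0 := by
      rw [← lin_neg]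
      have h := lin_le hp hA.neg hz hz1
      have e : hn p (-A) = 0 := by
        have := hn_smul hp hA (-1)
        rw [neg_one_smul, ← h0, mul_zero] at this
        exact this
      rw [e] at h; linarith
    have h2 : min 1 (p - 1) / (8 * p) * (hn p A - lin (dF p) hz A / p) ≤ 0 := by
      rw [← h0]
      have : 0 - lin (dF p) hz A / p = (-lin (dF p) hz A) / p := by ring
      rw [this]
      have h3 : (-lin (dF p) hz A) / p ≤ 0 := div_nonpos_of_nonpos_of_nonneg h1 hp0.le
      exact mul_nonpos_of_nonneg_of_nonpos (by positivity) h3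
    have h3 := hn_add_le hp hA (isHermitian_smul_real hz c)
    rw [hn_smul hp hz, hnz, abs_of_nonneg (by linarith)] at h3
    linarith
  · set x := (1 / hn p A) • A with hx
    have hxH : x.IsHermitian := isHermitian_smul_real hA _
    have hx1 : Fp p x = 1 := by
      rw [hx, Fp_smul hA, abs_of_pos (by positivity), Real.div_rpow zero_le_one h0.le,
        Real.one_rpow, hn_rpow hp hA]
      have : Fp p A ≠ 0 := by rw [← hn_rpow hp hA]; positivity
      field_simp
    have hAx : A = hn p A • x := by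
      rw [hx, smul_smul, mul_one_div_cancel h0.ne', one_smul]
    have hmid := midpoint hp hxH hz hx1 hz1
    have h1 : hn p (A + hn p A • z) = hn p A * hn p (x + z) := by
      have : A + hn p A • z = hn p A • (x + z) := by rw [smul_add, ← hAx]
      rw [this, hn_smul hp (hxH.add hz), abs_of_pos h0]
    have h2 : lin (dF p) hz A = hn p A * lin (dF p) hz x := by
      conv_lhs => rw [hAx]
      rw [lin_smul]
    have h3 := mul_le_mul_of_nonneg_left hmid h0.le
    rw [h2]
    have e : hn p A * (min 1 (p - 1) / (8 * p) * (1 - lin (dF p) hz x / p)) =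
        min 1 (p - 1) / (8 * p) * (hn p A - hn p A * lin (dF p) hz x / p) := by ring
    rw [e] at h3
    rw [h1] at hmono
    linarith

/-- the three-vector inequality, largest vector last -/
theorem three_aux {p : ℝ} (hp : 1 < p) {A B C : Matrix ι ι ℂ} (hA : A.IsHermitian)
    (hB : B.IsHermitian) (hC : C.IsHermitian) (hAC : hn p A ≤ hn p C) (hBC : hn p B ≤ hn p C) :
    min 1 (p - 1) / (8 * p) * (hn p A + hn p B + hn p C - hn p (A + B + C)) ≤
      (hn p A + hn p C - hn p (A + C)) + (hn p B + hn p C - hn p (B + C)) := by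
  have hp0 : 0 < p := by linarith
  have hk0 : 0 < min 1 (p - 1) := lt_min (by norm_num) (by linarith)
  rcases (hn_nonneg p hC).eq_or_lt with h0 | h0
  · have ha : hn p A = 0 := le_antisymm (by linarith) (hn_nonneg p hA)
    have hb : hn p B = 0 := le_antisymm (by linarith) (hn_nonneg p hB)
    have h1 := hn_nonneg p ((hA.add hB).add hC)
    have h2 := hn_add_le hp hA hC
    have h3 := hn_add_le hp hB hC
    have h4 : min 1 (p - 1) / (8 * p) * (hn p A + hn p B + hn p C - hn p (A + B + C)) ≤ 0 :=
      mul_nonpos_of_nonneg_of_nonpos (by positivity) (by linarith)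
    linarith
  · set z := (1 / hn p C) • C with hz
    have hzH : z.IsHermitian := isHermitian_smul_real hC _
    have hz1 : Fp p z = 1 := by
      rw [hz, Fp_smul hC, abs_of_pos (by positivity), Real.div_rpow zero_le_one h0.le,
        Real.one_rpow, hn_rpow hp hC]
      have : Fp p C ≠ 0 := by rw [← hn_rpow hp hC]; positivity
      field_simp
    have hCz : C = hn p C • z := by
      rw [hz, smul_smul, mul_one_div_cancel h0.ne', one_smul]
    have h1 := defect hp hA hzH hz1 hAC
    have h2 := defect hp hB hzH hz1 hBC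
    rw [← hCz] at h1 h2
    -- upper bound of the three-vector defect
    have h3 := lin_le hp ((hA.add hB).add hC) hzH hz1
    have h4 : lin (dF p) hzH C = p * hn p C := by
      conv_lhs => rw [hCz]
      rw [lin_smul, lin_dF_self hp, hz1]; ring
    rw [lin_add, lin_add, h4] at h3
    have h5 : hn p A + hn p B + hn p C - hn p (A + B + C) ≤
        (hn p A - lin (dF p) hzH A / p) + (hn p B - lin (dF p) hzH B / p) := by
      have : (lin (dF p) hzH A + lin (dF p) hzH B + p * hn p C) / p ≤ hn p (A + B + C) := by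
        rw [div_le_iff₀ hp0]; linarith
      have e : (lin (dF p) hzH A + lin (dF p) hzH B + p * hn p C) / p
          = lin (dF p) hzH A / p + lin (dF p) hzH B / p + hn p C := by field_simp
      linarith
    have h6 : 0 ≤ min 1 (p - 1) / (8 * p) := by positivity
    have h7 := mul_le_mul_of_nonneg_left h5 h6
    rw [mul_add] at h7
    linarith

/-- two-vector defect -/
noncomputable def hD2 (p : ℝ) (A B : Matrix ι ι ℂ) : ℝ := hn p A + hn p B - hn p (A + B)

lemma hD2_nonneg {p : ℝ} (hp : 1 < p) {A B : Matrix ι ι ℂ} (hA : A.IsHermitian)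
    (hB : B.IsHermitian) : 0 ≤ hD2 p A B := by
  have := hn_add_le hp hA hB
  unfold hD2; linarith

lemma hD2_comm (p : ℝ) (A B : Matrix ι ι ℂ) : hD2 p A B = hD2 p B A := by
  unfold hD2; rw [add_comm A B]; ring

theorem three {p : ℝ} (hp : 1 < p) {A B C : Matrix ι ι ℂ} (hA : A.IsHermitian)
    (hB : B.IsHermitian) (hC : C.IsHermitian) :
    hn p A + hn p B + hn p C - hn p (A + B + C) ≤
      8 * p / min 1 (p - 1) * (hD2 p A B + hD2 p A C + hD2 p B C) := by
  have hp0 : 0 < p := by linarith
  have hk0 : 0 < min 1 (p - 1) := lt_min (by norm_num) (by linarith)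
  have key : min 1 (p - 1) / (8 * p) * (hn p A + hn p B + hn p C - hn p (A + B + C)) ≤
      hD2 p A B + hD2 p A C + hD2 p B C := by
    have nAB := hD2_nonneg hp hA hB
    have nAC := hD2_nonneg hp hA hC
    have nBC := hD2_nonneg hp hB hC
    rcases le_total (hn p A) (hn p C) with h1 | h1
    · rcases le_total (hn p B) (hn p C) with h2 | h2
      · have h := three_aux hp hA hB hC h1 h2
        unfold hD2 at *
        linarith
      · -- B largest
        have h := three_aux hp hA hC hB (h1.trans h2) h2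
        rw [show A + C + B = A + B + C by abel] at h
        have c1 := hD2_comm p C B
        unfold hD2 at *
        linarith
    · rcases le_total (hn p B) (hn p A) with h2 | h2
      · -- A largest
        have h := three_aux hp hB hC hA h2 h1
        rw [show B + C + A = A + B + C by abel] at h
        have c1 := hD2_comm p B A
        have c2 := hD2_comm p C A
        unfold hD2 at *
        linarith
      · -- B largest
        have h := three_aux hp hA hC hB h2 (h1.trans h2)
        rw [show A + C + B = A + B + C by abel] at h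
        have c1 := hD2_comm p C B
        unfold hD2 at *
        linarith
  rw [div_mul_eq_mul_div, div_le_iff₀ (by positivity)] at key
  rw [div_mul_eq_mul_div, le_div_iff₀ hk0]
  linarith

end Pool.Agent.Hlawka
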