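import Mathlib
import Pool.Agent.Hlawka.Defs
import Pool.Agent.Hlawka.Norm

/-!
# Hermitian dilation; finiteness of `C_p` for `1 < p < ∞`
-/

namespace Pool.Agent.Hlawka

open Matrix Finset
open scoped ENNReal

variable {N M : ℕ}

/-- Hermitian dilation -/
def dil (X : Matrix (Fin N) (Fin M) ℂ) : Matrix (Fin N ⊕ Fin M) (Fin N ⊕ Fin M) ℂ :=
  fromBlocks 0 X Xᴴ 0

lemma dil_isHermitian (X : Matrix (Fin N) (Fin M) ℂ) : (dil X).IsHermitian := by
  unfold dil IsHermitian
  rw [fromBlocks_conjTranspose]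
  simp

lemma dil_add (X Y : Matrix (Fin N) (Fin M) ℂ) : dil (X + Y) = dil X + dil Y := by
  unfold dil
  rw [fromBlocks_add, conjTranspose_add]
  simp

lemma rs_charpoly_comm {f : ℝ → ℝ} (hf : f 0 = 0) (X : Matrix (Fin N) (Fin M) ℂ) :
    rs f (X * Xᴴ).charpoly = rs f (Xᴴ * X).charpoly := by
  have h := charpoly_mul_comm' X Xᴴ
  have h2 := congrArg (rs f) h
  rw [rs_mul f (pow_ne_zero _ Polynomial.X_ne_zero) (Matrix.charpoly_monic _).ne_zero,
    rs_mul f (pow_ne_zero _ Polynomial.X_ne_zero) (Matrix.charpoly_monic _).ne_zero,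
    rs_X_pow, rs_X_pow, hf] at h2
  linarith

lemma Fp_dil {p : ℝ} (hp : 0 < p) (X : Matrix (Fin N) (Fin M) ℂ) :
    Fp p (dil X) = 2 * ∑ i, singularValue X i ^ p := by
  set f : ℝ → ℝ := fun t => |t| ^ (p / 2) with hf
  have hf0 : f 0 = 0 := by
    rw [hf]; simp only [abs_zero]; exact Real.zero_rpow (by positivity)
  have h1 : Fp p (dil X) = rs f (dil X * dil X).charpoly := by
    rw [charpoly_sq (dil_isHermitian X), rs_prod, Fp_eq p (dil_isHermitian X)]
    unfold trF
    apply Finset.sum_congr rfl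
    intro i _
    rw [hf]
    simp only
    rw [abs_pow, ← Real.rpow_natCast, ← Real.rpow_mul (abs_nonneg _)]
    congr 1
    push_cast; ring
  have h2 : dil X * dil X = fromBlocks (X * Xᴴ) 0 0 (Xᴴ * X) := by
    unfold dil
    rw [fromBlocks_multiply]
    simp
  rw [h1, h2, charpoly_fromBlocks_zero₁₂,
    rs_mul f (Matrix.charpoly_monic _).ne_zero (Matrix.charpoly_monic _).ne_zero,
    rs_charpoly_comm hf0]
  have h3 : rs f (Xᴴ * X).charpoly = ∑ i, singularValue X i ^ p := by
    rw [← trF_eq_rs f (isHermitian_conjTranspose_mul_self X)]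
    unfold trF
    apply Finset.sum_congr rfl
    intro i _
    have hnn : 0 ≤ (isHermitian_conjTranspose_mul_self X).eigenvalues i :=
      eigenvalues_conjTranspose_mul_self_nonneg X i
    unfold singularValue
    rw [hf]
    simp only
    rw [abs_of_nonneg hnn, Real.sqrt_eq_rpow, ← Real.rpow_mul hnn]
    congr 1
    ring
  rw [h3]; ring

lemma hn_dil {p : ℝ} (hp : 0 < p) (X : Matrix (Fin N) (Fin M) ℂ) :
    hn p (dil X) = (2 : ℝ) ^ (1 / p) * schattenNorm p X := by
  unfold hn schattenNorm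
  rw [Fp_dil hp, Real.mul_rpow (by norm_num)]
  exact Finset.sum_nonneg fun i _ => Real.rpow_nonneg (Real.sqrt_nonneg _) _

theorem hlawka_of_one_lt {p : ℝ} (hp : 1 < p) : HlawkaHolds p (8 * p / min 1 (p - 1)) := by
  intro N M _ _ X Y Z
  have hp0 : 0 < p := by linarith
  have h := three hp (dil_isHermitian X) (dil_isHermitian Y) (dil_isHermitian Z)
  unfold hD2 at h
  rw [← dil_add, ← dil_add, ← dil_add, ← dil_add, hn_dil hp0, hn_dil hp0, hn_dil hp0,
    hn_dil hp0, hn_dil hp0, hn_dil hp0, hn_dil hp0] at h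
  unfold D₃ D₂
  have h2 : (0 : ℝ) < 2 ^ (1 / p) := Real.rpow_pos_of_pos (by norm_num) _
  have h3 : (2 : ℝ) ^ (1 / p) * (schattenNorm p X + schattenNorm p Y + schattenNorm p Z -
      schattenNorm p (X + Y + Z)) ≤ (2 : ℝ) ^ (1 / p) * (8 * p / min 1 (p - 1) *
      (schattenNorm p X + schattenNorm p Y - schattenNorm p (X + Y) +
        (schattenNorm p X + schattenNorm p Z - schattenNorm p (X + Z)) +
        (schattenNorm p Y + schattenNorm p Z - schattenNorm p (Y + Z)))) := by
    linarith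
  exact le_of_mul_le_mul_left h3 h2

theorem hlawkaConst_le {p : ℝ} (hp : 1 < p) :
    hlawkaConst p ≤ ENNReal.ofReal (8 * p / min 1 (p - 1)) := by
  have hk0 : 0 < min 1 (p - 1) := lt_min (by norm_num) (by linarith)
  exact sInf_le ⟨_, by positivity, hlawka_of_one_lt hp, rfl⟩

end Pool.Agent.Hlawka
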