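import Mathlib
import Pool.Agent.Hlawka.Norm

/-!
# Definitions for the large-`p` limit of `C_p`
-/

namespace Pool.Agent.Hlawka

open Matrix Finset

/-- `(1-s) x² + s z² - x^{2-2s} z^{2s}` -/
noncomputable def ysF (s x z : ℝ) : ℝ :=
  (1 - s) * x ^ 2 + s * z ^ 2 - x ^ (2 - 2 * s) * z ^ (2 * s)

/-- a smooth multiplier, equal to `1` on the diagonal, with `y κ(x,y) ≈ x` unless `y ≪ x` -/
noncomputable def kap (ν x y : ℝ) : ℝ :=
  x * y / (y ^ 2 + ν * x ^ 2) + ν / (1 + ν) * (2 * x * y / (x ^ 2 + y ^ 2))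

variable {ι : Type*} [Fintype ι] [DecidableEq ι]

/-- squared Hilbert-Schmidt norm -/
noncomputable def nsq (M : Matrix ι ι ℂ) : ℝ := ∑ j, ∑ i, Complex.normSq (M j i)

/-- bounded left and right multiplication on Hilbert-Schmidt operators (squared bound `c`) -/
def OpB (c : ℝ) (M : Matrix ι ι ℂ) : Prop :=
  ∀ X : Matrix ι ι ℂ, nsq (M * X) ≤ c * nsq X ∧ nsq (X * M) ≤ c * nsq X

/-- Schur product with a real function -/
def sch (f : ι → ι → ℝ) (W : Matrix ι ι ℂ) : Matrix ι ι ℂ :=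
  Matrix.of fun j i => (f j i : ℂ) * W j i

/-- positive (`b = true`) and negative (`b = false`) amplitude -/
noncomputable def amp (p : ℝ) (b : Bool) (t : ℝ) : ℝ :=
  (max (if b then t else -t) 0) ^ (p / 2)

/-- `δ²` -/
noncomputable def dsq (p : ℝ) {A B : Matrix ι ι ℂ} (hA : A.IsHermitian) (hB : B.IsHermitian) : ℝ :=
  ∑ b : Bool, ∑ i, ∑ j, ov hA hB i j *
    (amp p b (hA.eigenvalues i) - amp p b (hB.eigenvalues j)) ^ 2

/-- `E(T,A) = 1 - L_T(A)/p` for unit `T`, `A` -/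
noncomputable def En (p : ℝ) {T : Matrix ι ι ℂ} (hT : T.IsHermitian) (A : Matrix ι ι ℂ) : ℝ :=
  1 - lin (dF p) hT A / p

end Pool.Agent.Hlawka
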