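import Mathlib
import Pool.Agent.Hlawka.LimDefs

/-!
# Hilbert-Schmidt norms and the Schur multiplier `κ_ν`
-/

namespace Pool.Agent.Hlawka

open Matrix Finset
open scoped ComplexOrder

variable {ι : Type*} [Fintype ι] [DecidableEq ι]

lemma nsq_nonneg (M : Matrix ι ι ℂ) : 0 ≤ nsq M :=
  Finset.sum_nonneg fun _ _ => Finset.sum_nonneg fun _ _ => Complex.normSq_nonneg _

lemma normSq_add_le {η : ℝ} (hη : 0 < η) (a b : ℂ) :
    Complex.normSq (a + b) ≤ (1 + η) * Complex.normSq a + (1 + 1 / η) * Complex.normSq b := by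
  rw [Complex.normSq_add]
  have h1 : (a * (starRingEnd ℂ) b).re ≤ ‖a‖ * ‖b‖ := by
    refine (Complex.re_le_norm _).trans ?_
    rw [norm_mul, Complex.norm_conj]
  have h2 : 2 * (‖a‖ * ‖b‖) ≤ η * ‖a‖ ^ 2 + 1 / η * ‖b‖ ^ 2 := by
    have h3 : 0 ≤ 1 / η * (η * ‖a‖ - ‖b‖) ^ 2 := by positivity
    have e : 1 / η * (η * ‖a‖ - ‖b‖) ^ 2 = η * ‖a‖ ^ 2 - 2 * (‖a‖ * ‖b‖) + 1 / η * ‖b‖ ^ 2 := by
      field_simp
      ring
    linarith
  rw [Complex.normSq_eq_norm_sq, Complex.normSq_eq_norm_sq]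
  linarith

lemma nsq_add_le {η : ℝ} (hη : 0 < η) (M N : Matrix ι ι ℂ) :
    nsq (M + N) ≤ (1 + η) * nsq M + (1 + 1 / η) * nsq N := by
  unfold nsq
  rw [Finset.mul_sum, Finset.mul_sum, ← Finset.sum_add_distrib]
  apply Finset.sum_le_sum
  intro j _
  rw [Finset.mul_sum, Finset.mul_sum, ← Finset.sum_add_distrib]
  apply Finset.sum_le_sum
  intro i _
  exact normSq_add_le hη _ _

lemma nsq_eq_trace (M : Matrix ι ι ℂ) : nsq M = ((star M * M).trace).re := by
  unfold nsq
  rw [Finset.sum_comm, Matrix.trace, Complex.re_sum]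
  apply Finset.sum_congr rfl
  intro i _
  rw [Matrix.diag_apply, Matrix.mul_apply, Complex.re_sum]
  apply Finset.sum_congr rfl
  intro j _
  rw [star_apply, mul_comm]
  simp [Complex.mul_conj]

lemma nsq_star (M : Matrix ι ι ℂ) : nsq (star M) = nsq M := by
  unfold nsq
  rw [Finset.sum_comm]
  apply Finset.sum_congr rfl
  intro i _
  apply Finset.sum_congr rfl
  intro j _
  rw [star_apply]
  simp

lemma nsq_smul (c : ℝ) (M : Matrix ι ι ℂ) : nsq ((c : ℂ) • M) = c ^ 2 * nsq M := by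
  unfold nsq
  rw [Finset.mul_sum]
  apply Finset.sum_congr rfl
  intro j _
  rw [Finset.mul_sum]
  apply Finset.sum_congr rfl
  intro i _
  rw [Matrix.smul_apply, smul_eq_mul, Complex.normSq_mul, Complex.normSq_ofReal]
  ring

lemma nsq_unitary_mul {U : Matrix ι ι ℂ} (hU : star U * U = 1) (M : Matrix ι ι ℂ) :
    nsq (U * M) = nsq M := by
  rw [nsq_eq_trace, nsq_eq_trace, star_mul]
  have : star M * star U * (U * M) = star M * (star U * U) * M := by simp only [mul_assoc]
  rw [this, hU, mul_one]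

lemma nsq_mul_unitary {U : Matrix ι ι ℂ} (hU : star U * U = 1) (M : Matrix ι ι ℂ) :
    nsq (M * U) = nsq M := by
  have hU2 : U * star U = 1 := mul_eq_one_comm.1 hU
  rw [← nsq_star, star_mul]
  have h := nsq_unitary_mul (U := star U) (by rw [star_star]; exact hU2) (star M)
  rw [h, nsq_star]

/-- the Schur multiplier `2ab/(a²+b²)` -/
noncomputable def cm (a b : ι → ℝ) (W : Matrix ι ι ℂ) : Matrix ι ι ℂ :=
  sch (fun k i => 2 * a i * b k / (a i ^ 2 + b k ^ 2)) W

lemma cm_mul (a b : ι → ℝ) (W : Matrix ι ι ℂ) (k i : ι) :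
    ((a i ^ 2 + b k ^ 2 : ℝ) : ℂ) * cm a b W k i = 2 * ((b k : ℂ) * W k i * (a i : ℂ)) := by
  unfold cm sch
  rw [Matrix.of_apply, ← mul_assoc, ← Complex.ofReal_mul]
  have : (a i ^ 2 + b k ^ 2) * (2 * a i * b k / (a i ^ 2 + b k ^ 2)) = 2 * a i * b k := by
    rcases eq_or_ne (a i ^ 2 + b k ^ 2) 0 with h | h
    · have h1 : a i = 0 := by
        have := sq_nonneg (a i); have := sq_nonneg (b k)
        exact pow_eq_zero_iff (two_ne_zero) |>.1 (by linarith)
      rw [h, h1]; ring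
    · field_simp
  rw [this]
  push_cast
  ring

lemma vec_unitary {W : Matrix ι ι ℂ} (hW : star W * W = 1) (v : ι → ℂ) :
    ∑ k, Complex.normSq ((W *ᵥ v) k) = ∑ i, Complex.normSq (v i) := by
  have h1 : ∀ u : ι → ℂ, ((∑ k, Complex.normSq (u k) : ℝ) : ℂ) = star u ⬝ᵥ u := by
    intro u
    unfold dotProduct
    push_cast
    apply Finset.sum_congr rfl
    intro k _
    rw [Pi.star_apply, Complex.star_def, mul_comm, Complex.mul_conj]
  have h2 : star (W *ᵥ v) ⬝ᵥ (W *ᵥ v) = star v ⬝ᵥ v := by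
    rw [star_mulVec, ← star_eq_conjTranspose, dotProduct_mulVec, vecMul_vecMul, hW, vecMul_one]
  have h3 : ((∑ k, Complex.normSq ((W *ᵥ v) k) : ℝ) : ℂ) =
      ((∑ i, Complex.normSq (v i) : ℝ) : ℂ) := by
    rw [h1, h1, h2]
  exact_mod_cast h3

/-- numerical range argument: the eigenvalues of `N^* N` are at most one -/
lemma cm_eig {a b : ι → ℝ} {W : Matrix ι ι ℂ} (hW : star W * W = 1) {v : ι → ℂ} {l : ℝ}
    (hv : v ≠ 0) (h : (star (cm a b W) * cm a b W) *ᵥ v = (l : ℂ) • v) : l ≤ 1 := by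
  by_contra hcon
  push Not at hcon
  set N := cm a b W with hN
  set w := N *ᵥ v with hw
  have hNw : star N *ᵥ w = (l : ℂ) • v := by rw [hw, mulVec_mulVec, h]
  -- the two expressions of the form
  have hS : ∑ k, ∑ i, star (w k) * (((a i ^ 2 + b k ^ 2 : ℝ) : ℂ) * N k i) * v i =
      ((∑ k, b k ^ 2 * Complex.normSq (w k) + l * ∑ i, a i ^ 2 * Complex.normSq (v i) : ℝ) : ℂ) := by
    have e1 : ∑ k, ∑ i, star (w k) * (((a i ^ 2 + b k ^ 2 : ℝ) : ℂ) * N k i) * v i =
        ∑ k, (b k : ℂ) ^ 2 * (star (w k) * ∑ i, N k i * v i) +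
        ∑ i, (a i : ℂ) ^ 2 * ((∑ k, star (w k) * N k i) * v i) := by
      have e2 : ∑ i, (a i : ℂ) ^ 2 * ((∑ k, star (w k) * N k i) * v i) =
          ∑ k, ∑ i, (a i : ℂ) ^ 2 * (star (w k) * N k i * v i) := by
        rw [Finset.sum_comm]
        apply Finset.sum_congr rfl
        intro i _
        rw [Finset.sum_mul, Finset.mul_sum]
      rw [e2, ← Finset.sum_add_distrib]
      apply Finset.sum_congr rfl
      intro k _
      rw [Finset.mul_sum, Finset.mul_sum, ← Finset.sum_add_distrib]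
      apply Finset.sum_congr rfl
      intro i _
      push_cast
      ring
    rw [e1]
    have e3 : ∀ k, ∑ i, N k i * v i = w k := fun k => rfl
    have e4 : ∀ i, ∑ k, star (w k) * N k i = (l : ℂ) * star (v i) := by
      intro i
      have := congrFun hNw i
      have h5 : star ((star N *ᵥ w) i) = ∑ k, star (w k) * N k i := by
        have h6 : (star N *ᵥ w) i = ∑ k, (star N) i k * w k := rfl
        rw [h6, star_sum]
        apply Finset.sum_congr rfl
        intro k _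
        rw [star_mul', star_apply, star_star, mul_comm]
      rw [← h5, this, Pi.smul_apply, smul_eq_mul, star_mul']
      congr 1
      exact Complex.conj_ofReal l
    simp_rw [e3, e4]
    push_cast
    rw [Finset.mul_sum]
    congr 1
    · apply Finset.sum_congr rfl
      intro k _
      rw [Complex.star_def, mul_comm ((starRingEnd ℂ) (w k)), Complex.mul_conj]
    · apply Finset.sum_congr rfl
      intro i _
      have : (l : ℂ) * star (v i) * v i = (l : ℂ) * (v i * (starRingEnd ℂ) (v i)) := by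
        rw [Complex.star_def]; ring
      rw [this, Complex.mul_conj]
      ring
  have hS2 : ∑ k, ∑ i, star (w k) * (((a i ^ 2 + b k ^ 2 : ℝ) : ℂ) * N k i) * v i =
      2 * ∑ k, star ((b k : ℂ) * w k) * (W *ᵥ fun i => (a i : ℂ) * v i) k := by
    rw [Finset.mul_sum]
    apply Finset.sum_congr rfl
    intro k _
    have : (W *ᵥ fun i => (a i : ℂ) * v i) k = ∑ i, W k i * ((a i : ℂ) * v i) := rfl
    rw [this, Finset.mul_sum, Finset.mul_sum]
    apply Finset.sum_congr rfl
    intro i _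
    have h7 : star ((b k : ℂ)) = (b k : ℂ) := Complex.conj_ofReal _
    rw [hN, cm_mul, star_mul', h7]
    ring
  set P := ∑ k, b k ^ 2 * Complex.normSq (w k) with hP
  set Q := ∑ i, a i ^ 2 * Complex.normSq (v i) with hQ
  have hP0 : 0 ≤ P := Finset.sum_nonneg fun k _ =>
    mul_nonneg (sq_nonneg _) (Complex.normSq_nonneg _)
  have hQ0 : 0 ≤ Q := Finset.sum_nonneg fun k _ =>
    mul_nonneg (sq_nonneg _) (Complex.normSq_nonneg _)
  -- Cauchy-Schwarz
  have hCS : (P + l * Q) ^ 2 ≤ 4 * (P * Q) := by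
    have e5 : ((P + l * Q : ℝ) : ℂ) =
        2 * ∑ k, star ((b k : ℂ) * w k) * (W *ᵥ fun i => (a i : ℂ) * v i) k := by
      rw [← hS, hS2]
    have e6 : P + l * Q ≤ 2 * ∑ k, ‖(b k : ℂ) * w k‖ * ‖(W *ᵥ fun i => (a i : ℂ) * v i) k‖ := by
      have e7 : P + l * Q =
          (2 * ∑ k, star ((b k : ℂ) * w k) * (W *ᵥ fun i => (a i : ℂ) * v i) k).re := by
        rw [← e5, Complex.ofReal_re]
      rw [e7]
      refine (Complex.re_le_norm _).trans ?_
      rw [norm_mul, Complex.norm_two]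
      apply mul_le_mul_of_nonneg_left _ (by norm_num)
      refine (norm_sum_le _ _).trans (le_of_eq ?_)
      apply Finset.sum_congr rfl
      intro k _
      rw [norm_mul, norm_star]
    have e8 : (∑ k, ‖(b k : ℂ) * w k‖ * ‖(W *ᵥ fun i => (a i : ℂ) * v i) k‖) ^ 2 ≤
        (∑ k, ‖(b k : ℂ) * w k‖ ^ 2) * ∑ k, ‖(W *ᵥ fun i => (a i : ℂ) * v i) k‖ ^ 2 :=
      Finset.sum_mul_sq_le_sq_mul_sq _ _ _
    have e9 : ∑ k, ‖(b k : ℂ) * w k‖ ^ 2 = P := by
      rw [hP]
      apply Finset.sum_congr rfl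
      intro k _
      rw [← Complex.normSq_eq_norm_sq, Complex.normSq_mul, Complex.normSq_ofReal]
      ring
    have e10 : ∑ k, ‖(W *ᵥ fun i => (a i : ℂ) * v i) k‖ ^ 2 = Q := by
      rw [hQ]
      simp_rw [← Complex.normSq_eq_norm_sq]
      rw [vec_unitary hW]
      apply Finset.sum_congr rfl
      intro k _
      rw [Complex.normSq_mul, Complex.normSq_ofReal]
      ring
    rw [e9, e10] at e8
    have e11 : 0 ≤ P + l * Q := by
      have : 0 ≤ l * Q := mul_nonneg (by linarith) hQ0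
      linarith
    calc (P + l * Q) ^ 2 ≤ (2 * ∑ k, ‖(b k : ℂ) * w k‖ *
          ‖(W *ᵥ fun i => (a i : ℂ) * v i) k‖) ^ 2 := pow_le_pow_left₀ e11 e6 2
      _ = 4 * (∑ k, ‖(b k : ℂ) * w k‖ * ‖(W *ᵥ fun i => (a i : ℂ) * v i) k‖) ^ 2 := by ring
      _ ≤ 4 * (P * Q) := by linarith
  have hPQ : P * Q = 0 := by
    have h1 : 4 * l * (P * Q) ≤ (P + l * Q) ^ 2 := by nlinarith [sq_nonneg (P - l * Q)]
    have h2 : 0 ≤ P * Q := mul_nonneg hP0 hQ0
    nlinarith
  have hQz : Q = 0 := by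
    rw [hPQ, mul_zero] at hCS
    have h1 : P + l * Q = 0 := by
      have := sq_nonneg (P + l * Q)
      exact pow_eq_zero_iff two_ne_zero |>.1 (le_antisymm hCS this)
    have h2 : 0 ≤ l * Q := mul_nonneg (by linarith) hQ0
    have h3 : l * Q = 0 := by linarith
    rcases mul_eq_zero.1 h3 with h4 | h4
    · linarith
    · exact h4
  -- then `N v = 0`
  have hav : ∀ i, (a i : ℂ) * v i = 0 := by
    intro i
    have h1 := (Finset.sum_eq_zero_iff_of_nonneg (fun k _ =>
      mul_nonneg (sq_nonneg _) (Complex.normSq_nonneg _))).1 (hQ ▸ hQz) i (Finset.mem_univ i)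
    have h2 : Complex.normSq ((a i : ℂ) * v i) = 0 := by
      rw [Complex.normSq_mul, Complex.normSq_ofReal]
      linarith
    exact Complex.normSq_eq_zero.1 h2
  have hw0 : w = 0 := by
    funext k
    have : w k = ∑ i, N k i * v i := rfl
    rw [this, Pi.zero_apply]
    apply Finset.sum_eq_zero
    intro i _
    rw [hN]
    unfold cm sch
    rw [Matrix.of_apply]
    have e : ((2 * a i * b k / (a i ^ 2 + b k ^ 2) : ℝ) : ℂ) * W k i * v i =
        ((2 * b k / (a i ^ 2 + b k ^ 2) : ℝ) : ℂ) * W k i * ((a i : ℂ) * v i) := by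
      push_cast; ring
    rw [e, hav, mul_zero]
  rw [hw0, mulVec_zero] at hNw
  have hlne : (l : ℂ) ≠ 0 := by
    intro h0
    have : l = 0 := by exact_mod_cast h0
    linarith
  exact hv ((smul_eq_zero.1 hNw.symm).resolve_left hlne)

lemma cm_posSemidef {a b : ι → ℝ} {W : Matrix ι ι ℂ} (hW : star W * W = 1) :
    (1 - star (cm a b W) * cm a b W).PosSemidef := by
  set N := cm a b W
  have hK : (1 - star N * N).IsHermitian := by
    apply IsHermitian.sub isHermitian_one
    rw [star_eq_conjTranspose]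
    exact isHermitian_conjTranspose_mul_self N
  rw [hK.posSemidef_iff_eigenvalues_nonneg]
  intro j
  by_contra hcon
  push Not at hcon
  have hneg : hK.eigenvalues j < 0 := by simpa using hcon
  have hev := hK.mulVec_eigenvectorBasis j
  set v : ι → ℂ := ⇑(hK.eigenvectorBasis j) with hv
  have hv0 : v ≠ 0 := by
    intro h0
    have h1 : hK.eigenvectorBasis j ≠ 0 := hK.eigenvectorBasis.orthonormal.ne_zero j
    apply h1
    ext i
    exact congrFun h0 i
  have h2 : (star N * N) *ᵥ v = ((1 - hK.eigenvalues j : ℝ) : ℂ) • v := by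
    rw [sub_mulVec, one_mulVec] at hev
    have h3 : (star N * N) *ᵥ v = v - (hK.eigenvalues j) • v := by
      rw [← hev]; abel
    rw [h3]
    funext i
    simp only [Pi.sub_apply, Pi.smul_apply, smul_eq_mul, Complex.real_smul]
    push_cast
    ring
  have := cm_eig hW hv0 h2
  linarith

lemma star_cm (a b : ι → ℝ) (W : Matrix ι ι ℂ) : star (cm a b W) = cm b a (star W) := by
  ext i k
  unfold cm sch
  have h7 : ∀ c : ℝ, star (c : ℂ) = (c : ℂ) := fun c => Complex.conj_ofReal _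
  rw [star_apply, Matrix.of_apply, Matrix.of_apply, star_mul', star_apply, h7]
  congr 2
  have h8 : 2 * a i * b k / (a i ^ 2 + b k ^ 2) = 2 * b k * a i / (b k ^ 2 + a i ^ 2) := by
    rw [add_comm (a i ^ 2)]
    ring
  exact h8

lemma cm_left {a b : ι → ℝ} {W : Matrix ι ι ℂ} (hW : star W * W = 1) (X : Matrix ι ι ℂ) :
    nsq (cm a b W * X) ≤ nsq X := by
  have h := (cm_posSemidef (a := a) (b := b) hW).conjTranspose_mul_mul_same X
  have h2 := h.trace_nonneg
  have h3 : 0 ≤ ((Xᴴ * (1 - star (cm a b W) * cm a b W) * X).trace).re := by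
    have := (Complex.le_def.1 h2).1
    simpa using this
  have h4 : Xᴴ * (1 - star (cm a b W) * cm a b W) * X =
      star X * X - star (cm a b W * X) * (cm a b W * X) := by
    rw [star_mul, ← star_eq_conjTranspose]
    simp only [mul_sub, sub_mul, mul_one, mul_assoc]
  rw [h4, trace_sub, Complex.sub_re, ← nsq_eq_trace, ← nsq_eq_trace] at h3
  linarith

lemma cm_right {a b : ι → ℝ} {W : Matrix ι ι ℂ} (hW : star W * W = 1) (X : Matrix ι ι ℂ) :
    nsq (X * cm a b W) ≤ nsq X := by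
  have hW2 : W * star W = 1 := mul_eq_one_comm.1 hW
  rw [← nsq_star, star_mul, star_cm, ← nsq_star X]
  exact cm_left (by rw [star_star]; exact hW2) _

theorem opB_kap {ν : ℝ} (hν : 0 < ν) (hν1 : ν ≤ 1) {W : Matrix ι ι ℂ} (hW : star W * W = 1)
    (x y : ι → ℝ) : OpB (3 / ν) (sch (fun k i => kap ν (x i) (y k)) W) := by
  set r := Real.sqrt ν with hr
  have hr0 : 0 < r := Real.sqrt_pos.2 hν
  have hrr : r ^ 2 = ν := Real.sq_sqrt hν.le
  have e : sch (fun k i => kap ν (x i) (y k)) W =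
      ((1 / (2 * r) : ℝ) : ℂ) • cm (fun i => r * x i) y W +
      ((ν / (1 + ν) : ℝ) : ℂ) • cm x y W := by
    ext k i
    unfold cm sch kap
    rw [Matrix.add_apply, Matrix.smul_apply, Matrix.smul_apply, Matrix.of_apply, Matrix.of_apply,
      Matrix.of_apply, smul_eq_mul, smul_eq_mul, ← mul_assoc, ← mul_assoc, ← add_mul,
      ← Complex.ofReal_mul, ← Complex.ofReal_mul, ← Complex.ofReal_add]
    congr 2
    have this : (r * x i) ^ 2 + y k ^ 2 = y k ^ 2 + ν * x i ^ 2 := by rw [mul_pow, hrr]; ring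
    simp only []
    rw [this]
    have h2 : 1 / (2 * r) * (2 * (r * x i) * y k / (y k ^ 2 + ν * x i ^ 2)) =
        x i * y k / (y k ^ 2 + ν * x i ^ 2) := by
      rw [← mul_div_assoc]
      congr 1
      field_simp
    rw [h2]
  have hc1 : (1 / (2 * r)) ^ 2 = 1 / (4 * ν) := by
    rw [div_pow, mul_pow, hrr]; norm_num
  have hc2 : (ν / (1 + ν)) ^ 2 ≤ 1 / ν := by
    have h1 : ν / (1 + ν) ≤ 1 := by rw [div_le_one (by linarith)]; linarith
    have h2 : 0 ≤ ν / (1 + ν) := by positivity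
    have h3 : (ν / (1 + ν)) ^ 2 ≤ 1 := by nlinarith
    have h4 : 1 ≤ 1 / ν := by rw [le_div_iff₀ hν]; linarith
    linarith
  have comb : ∀ A B X : Matrix ι ι ℂ, nsq A ≤ nsq X → nsq B ≤ nsq X →
      nsq (((1 / (2 * r) : ℝ) : ℂ) • A + ((ν / (1 + ν) : ℝ) : ℂ) • B) ≤ 3 / ν * nsq X := by
    intro A B X hA hB
    have h := nsq_add_le one_pos (((1 / (2 * r) : ℝ) : ℂ) • A) (((ν / (1 + ν) : ℝ) : ℂ) • B)
    rw [nsq_smul, nsq_smul, hc1] at h
    have hX := nsq_nonneg X
    have hA0 := nsq_nonneg A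
    have hB0 := nsq_nonneg B
    have h1 : 1 / (4 * ν) * nsq A ≤ 1 / (4 * ν) * nsq X := mul_le_mul_of_nonneg_left hA (by positivity)
    have h2 : (ν / (1 + ν)) ^ 2 * nsq B ≤ 1 / ν * nsq X :=
      mul_le_mul hc2 hB hB0 (by positivity)
    have h3 : 1 / (4 * ν) * nsq X = 1 / 4 * (1 / ν * nsq X) := by field_simp
    have h4 : 3 / ν * nsq X = 3 * (1 / ν * nsq X) := by field_simp
    have h5 : 0 ≤ 1 / ν * nsq X := by positivity
    rw [h4]
    have h6 : (1:ℝ) + 1 = 2 := by norm_num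
    have h7 : (1:ℝ) + 1 / 1 = 2 := by norm_num
    rw [h7, h6] at h
    linarith
  intro X
  rw [e]
  constructor
  · rw [add_mul, smul_mul_assoc, smul_mul_assoc]
    exact comb _ _ _ (cm_left hW X) (cm_left hW X)
  · rw [mul_add, mul_smul_comm, mul_smul_comm]
    exact comb _ _ _ (cm_right hW X) (cm_right hW X)

end Pool.Agent.Hlawka
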