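import Mathlib
import Pool.Agent.Hlawka.LimDefs

/-!
# Scalar inequalities for the large-`p` comparison
-/

namespace Pool.Agent.Hlawka

lemma kap_nonneg {ν x y : ℝ} (hν : 0 < ν) (hx : 0 ≤ x) (hy : 0 ≤ y) : 0 ≤ kap ν x y := by
  unfold kap
  positivity

/-- `κ` for `x = 0` or `y = 0` -/
lemma kap_zero_left (ν y : ℝ) : kap ν 0 y = 0 := by unfold kap; simp
lemma kap_zero_right (ν x : ℝ) : kap ν x 0 = 0 := by unfold kap; simp

lemma psum_le {ν x y : ℝ} (hν : 0 < ν) (hν1 : ν ≤ 1) (hx : 0 ≤ x) (hy : 0 ≤ y) :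
    ν * x ^ 2 / (ν * x ^ 2 + y ^ 2) + ν * y ^ 2 / (ν * y ^ 2 + x ^ 2) ≤ 1 := by
  rcases hx.eq_or_lt with rfl | hx0
  · rcases hy.eq_or_lt with rfl | hy0
    · simp
    · have h1 : ν * y ^ 2 / (ν * y ^ 2 + 0 ^ 2) = 1 := by
        rw [zero_pow two_ne_zero, add_zero, div_self (by positivity)]
      rw [h1]; simp
  · have hd1 : 0 < ν * x ^ 2 + y ^ 2 := by positivity
    have hd2 : 0 < ν * y ^ 2 + x ^ 2 := by positivity
    rw [div_add_div _ _ hd1.ne' hd2.ne', div_le_one (by positivity)]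
    have h1 : 0 ≤ (1 - ν ^ 2) * (x ^ 2 * y ^ 2) := by
      have : ν ^ 2 ≤ 1 := by nlinarith
      have : 0 ≤ 1 - ν ^ 2 := by linarith
      positivity
    nlinarith [h1]

lemma kap_three {ν x y : ℝ} (hν : 0 < ν) (hν1 : ν ≤ 1) (hx : 0 ≤ x) (hy : 0 ≤ y) :
    (kap ν x y) ^ 2 ≤ 3 / ν := by
  -- `kap ≤ 1/(2 √ν) + ν/(1+ν)`
  have hk0 := kap_nonneg hν hx hy
  set r := Real.sqrt ν with hr
  have hr0 : 0 < r := Real.sqrt_pos.2 hν
  have hrr : r ^ 2 = ν := Real.sq_sqrt hν.le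
  have hr1 : r ≤ 1 := by
    rw [hr]; exact Real.sqrt_le_one.2 hν1
  have h1 : x * y / (y ^ 2 + ν * x ^ 2) ≤ 1 / (2 * r) := by
    rcases (by positivity : 0 ≤ y ^ 2 + ν * x ^ 2).eq_or_lt with h0 | h0
    · rw [← h0, div_zero]; positivity
    · rw [div_le_div_iff₀ h0 (by positivity)]
      rw [← hrr]
      nlinarith [sq_nonneg (y - r * x)]
  have h2 : 2 * x * y / (x ^ 2 + y ^ 2) ≤ 1 := by
    rcases (by positivity : 0 ≤ x ^ 2 + y ^ 2).eq_or_lt with h0 | h0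
    · rw [← h0, div_zero]; norm_num
    · rw [div_le_one h0]
      nlinarith [sq_nonneg (x - y)]
  have h3 : ν / (1 + ν) ≤ 1 / 2 := by
    rw [div_le_div_iff₀ (by linarith) (by norm_num)]
    linarith
  have h30 : 0 ≤ ν / (1 + ν) := by positivity
  have h4 : ν / (1 + ν) * (2 * x * y / (x ^ 2 + y ^ 2)) ≤ 1 / 2 := by
    have h20 : 0 ≤ 2 * x * y / (x ^ 2 + y ^ 2) := by positivity
    nlinarith
  have h5 : kap ν x y ≤ 1 / r := by
    unfold kap
    have : 1 / 2 ≤ 1 / (2 * r) := by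
      apply one_div_le_one_div_of_le (by positivity)
      linarith
    have e : 1 / (2 * r) + 1 / (2 * r) = 1 / r := by field_simp; norm_num
    linarith
  calc (kap ν x y) ^ 2 ≤ (1 / r) ^ 2 := pow_le_pow_left₀ hk0 h5 2
    _ = 1 / ν := by rw [div_pow, hrr]; norm_num
    _ ≤ 3 / ν := by
      apply div_le_div_of_nonneg_right _ hν.le
      norm_num

/-- the `ysF` lower bound: weighted AM-GM -/
lemma ysF_ge {s x z : ℝ} (hs : 0 < s) (hs1 : s ≤ 1 / 2) (hx : 0 ≤ x) (hz : 0 ≤ z) :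
    s * (x - z) ^ 2 ≤ ysF s x z := by
  -- `x^(2-2s) z^(2s) = (x^2)^(1-2s) (x z)^(2s) ≤ (1-2s) x^2 + 2 s x z`
  unfold ysF
  have h1 : x ^ (2 - 2 * s) * z ^ (2 * s) ≤ (1 - 2 * s) * x ^ 2 + 2 * s * (x * z) := by
    rcases hx.eq_or_lt with rfl | hx0
    · rw [Real.zero_rpow (by linarith)]
      have : (0:ℝ) ^ 2 = 0 := by norm_num
      simp
    · have h := Real.geom_mean_le_arith_mean2_weighted (w₁ := 1 - 2 * s) (w₂ := 2 * s)
        (p₁ := x ^ 2) (p₂ := x * z) (by linarith) (by linarith) (by positivity) (by positivity)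
        (by ring)
      have e : (x ^ 2) ^ (1 - 2 * s) * (x * z) ^ (2 * s) = x ^ (2 - 2 * s) * z ^ (2 * s) := by
        rw [Real.mul_rpow hx0.le hz, ← mul_assoc]
        congr 1
        rw [← Real.rpow_natCast, ← Real.rpow_mul hx0.le, ← Real.rpow_add hx0]
        congr 1
        push_cast; ring
      rw [e] at h
      exact h
  nlinarith

lemma kap_scale {ν x u : ℝ} (hx : 0 < x) : kap ν x (x * u) = kap ν 1 u := by
  unfold kap
  have h1 : x * (x * u) / ((x * u) ^ 2 + ν * x ^ 2) = 1 * u / (u ^ 2 + ν * 1 ^ 2) := by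
    rw [show x * (x * u) = x ^ 2 * (1 * u) by ring,
      show (x * u) ^ 2 + ν * x ^ 2 = x ^ 2 * (u ^ 2 + ν * 1 ^ 2) by ring,
      mul_div_mul_left _ _ (by positivity)]
  have h2 : 2 * x * (x * u) / (x ^ 2 + (x * u) ^ 2) = 2 * 1 * u / (1 ^ 2 + u ^ 2) := by
    rw [show 2 * x * (x * u) = x ^ 2 * (2 * 1 * u) by ring,
      show x ^ 2 + (x * u) ^ 2 = x ^ 2 * (1 ^ 2 + u ^ 2) by ring,
      mul_div_mul_left _ _ (by positivity)]
  rw [h1, h2]

lemma u_le {ν u : ℝ} (hν : 0 < ν) (_ : 0 ≤ u) :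
    ν * u / (ν + u ^ 2) ≤ Real.sqrt ν / 2 := by
  set r := Real.sqrt ν with hr
  have hr0 : 0 < r := Real.sqrt_pos.2 hν
  have hrr : ν = r ^ 2 := (Real.sq_sqrt hν.le).symm
  rw [div_le_div_iff₀ (by positivity) (by norm_num), hrr]
  nlinarith [mul_nonneg hr0.le (sq_nonneg (r - u))]

lemma one_aux {ν u : ℝ} (hν : 0 < ν) (hν1 : ν ≤ 1) (hu : 0 ≤ u) :
    (1 - u * kap ν 1 u) ^ 2 ≤ (1 - u) ^ 2 * (ν / (ν + u ^ 2) + 8 * Real.sqrt ν) := by
  set s := Real.sqrt ν with hs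
  have hs0 : 0 < s := Real.sqrt_pos.2 hν
  have hss : s ^ 2 = ν := Real.sq_sqrt hν.le
  have hs1 : s ≤ 1 := by rw [hs]; exact Real.sqrt_le_one.2 hν1
  set r := ν / (ν + u ^ 2) with hr
  have hr0 : 0 ≤ r := by positivity
  have hr1 : r ≤ 1 := by
    rw [hr, div_le_one (by positivity)]; nlinarith [sq_nonneg u]
  have hru : r * u ≤ s / 2 := by
    have := u_le hν hu
    have e : r * u = ν * u / (ν + u ^ 2) := by rw [hr]; ring
    rw [e]; exact this
  set B := r * (1 + u) * ((1 + ν) + 2 * u ^ 2) / ((1 + ν) * (1 + u ^ 2)) with hB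
  have hB0 : 0 ≤ B := by positivity
  have e1 : 1 - u * kap ν 1 u = (1 - u) * B := by
    rw [hB, hr]; unfold kap
    field_simp
    ring
  have hB1 : B ≤ r * (1 + u) * ((1 + 2 * u ^ 2) / (1 + u ^ 2)) := by
    rw [hB, mul_div_assoc]
    apply mul_le_mul_of_nonneg_left _ (by positivity)
    rw [div_le_div_iff₀ (by positivity) (by positivity)]
    have : 0 ≤ ν * u ^ 2 * (1 + u ^ 2) := by positivity
    nlinarith
  have key : B ^ 2 ≤ r + 8 * s := by
    rcases le_total u 1 with hu1 | hu1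
    · have h1 : (1 + 2 * u ^ 2) / (1 + u ^ 2) ≤ 1 + u ^ 2 := by
        rw [div_le_iff₀ (by positivity)]
        nlinarith [sq_nonneg (u ^ 2)]
      have h2 : B ≤ r * ((1 + u) * (1 + u ^ 2)) := by
        refine hB1.trans ?_
        rw [mul_assoc]
        apply mul_le_mul_of_nonneg_left _ hr0
        exact mul_le_mul_of_nonneg_left h1 (by linarith)
      have h3 : ((1 + u) * (1 + u ^ 2)) ^ 2 ≤ 1 + 15 * u := by
        have a2 : u ^ 2 ≤ u := by nlinarith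
        have a3 : u ^ 3 ≤ u := by nlinarith [mul_nonneg hu (sub_nonneg.2 a2), a2]
        have a4 : u ^ 4 ≤ u := by nlinarith [mul_nonneg hu (sub_nonneg.2 a3), a2]
        have a5 : u ^ 5 ≤ u := by nlinarith [mul_nonneg hu (sub_nonneg.2 a4), a2]
        have a6 : u ^ 6 ≤ u := by nlinarith [mul_nonneg hu (sub_nonneg.2 a5), a2]
        nlinarith
      calc B ^ 2 ≤ (r * ((1 + u) * (1 + u ^ 2))) ^ 2 := pow_le_pow_left₀ hB0 h2 2
        _ = r ^ 2 * ((1 + u) * (1 + u ^ 2)) ^ 2 := by ring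
        _ ≤ r ^ 2 * (1 + 15 * u) := mul_le_mul_of_nonneg_left h3 (sq_nonneg _)
        _ = r * r + 15 * r * (r * u) := by ring
        _ ≤ r + 8 * s := by nlinarith [mul_nonneg hr0 hu]
    · have h1 : (1 + 2 * u ^ 2) / (1 + u ^ 2) ≤ 2 := by
        rw [div_le_iff₀ (by positivity)]
        nlinarith [sq_nonneg u]
      have h2 : B ≤ 2 * s := by
        have h3 : r * (1 + u) * ((1 + 2 * u ^ 2) / (1 + u ^ 2)) ≤ r * (1 + u) * 2 :=
          mul_le_mul_of_nonneg_left h1 (by positivity)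
        have h4 : r * (1 + u) ≤ r * (2 * u) := mul_le_mul_of_nonneg_left (by linarith) hr0
        linarith
      calc B ^ 2 ≤ (2 * s) ^ 2 := pow_le_pow_left₀ hB0 h2 2
        _ = 4 * (s * s) := by ring
        _ ≤ 4 * (s * 1) := by
          have := mul_le_mul_of_nonneg_left hs1 hs0.le
          linarith
        _ ≤ r + 8 * s := by linarith
  rw [e1, mul_pow]
  exact mul_le_mul_of_nonneg_left key (sq_nonneg _)

lemma kap_one {ν x y : ℝ} (hν : 0 < ν) (hν1 : ν ≤ 1) (hx : 0 ≤ x) (hy : 0 ≤ y) :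
    (x - y * kap ν x y) ^ 2 ≤
      (x - y) ^ 2 * (ν * x ^ 2 / (ν * x ^ 2 + y ^ 2) + 8 * Real.sqrt ν) := by
  rcases hx.eq_or_lt with rfl | hx0
  · rw [kap_zero_left]
    have : 0 ≤ (0 - y) ^ 2 * (ν * 0 ^ 2 / (ν * 0 ^ 2 + y ^ 2) + 8 * Real.sqrt ν) := by positivity
    simpa using this
  · obtain ⟨u, hu, rfl⟩ : ∃ u : ℝ, 0 ≤ u ∧ y = x * u :=
      ⟨y / x, by positivity, by field_simp⟩
    rw [kap_scale hx0]
    have h := one_aux hν hν1 hu
    have e1 : (x - x * u * kap ν 1 u) ^ 2 = x ^ 2 * (1 - u * kap ν 1 u) ^ 2 := by ring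
    have e2 : ν * x ^ 2 / (ν * x ^ 2 + (x * u) ^ 2) = ν / (ν + u ^ 2) := by
      rw [show ν * x ^ 2 = x ^ 2 * ν by ring,
        show x ^ 2 * ν + (x * u) ^ 2 = x ^ 2 * (ν + u ^ 2) by ring,
        mul_div_mul_left _ _ (by positivity)]
    have e3 : (x - x * u) ^ 2 = x ^ 2 * (1 - u) ^ 2 := by ring
    rw [e1, e2, e3, mul_assoc]
    exact mul_le_mul_of_nonneg_left h (sq_nonneg x)

lemma two_aux {ν u : ℝ} (hν : 0 < ν) (hν1 : ν ≤ 1) (hu : 0 ≤ u) :
    (kap ν 1 u - 1) ^ 2 ≤ 9 / ν * (1 - u) ^ 2 := by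
  set s := Real.sqrt ν with hs
  have hs0 : 0 < s := Real.sqrt_pos.2 hν
  have hss : s ^ 2 = ν := Real.sq_sqrt hν.le
  have hs1 : s ≤ 1 := by rw [hs]; exact Real.sqrt_le_one.2 hν1
  set B := (u - ν) / ((u ^ 2 + ν) * (1 + ν)) - ν * (1 - u) / ((1 + ν) * (1 + u ^ 2)) with hB
  have e1 : kap ν 1 u - 1 = (1 - u) * B := by
    rw [hB]; unfold kap
    field_simp
    ring
  have h1s : 1 ≤ 1 / s := by rw [le_div_iff₀ hs0]; linarith
  have b1 : |(u - ν) / ((u ^ 2 + ν) * (1 + ν))| ≤ 1 / s := by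
    rw [abs_div, abs_of_pos (by positivity : 0 < (u ^ 2 + ν) * (1 + ν)),
      div_le_div_iff₀ (by positivity) hs0, one_mul]
    have c1 : |u - ν| ≤ max u ν := by
      rw [abs_le]
      constructor
      · have := le_max_right u ν; linarith
      · have := le_max_left u ν; linarith
    have c2 : max u ν * s ≤ u ^ 2 + ν := by
      rcases le_total u ν with h | h
      · rw [max_eq_right h]; nlinarith [sq_nonneg u]
      · rw [max_eq_left h]; nlinarith [sq_nonneg (u - s), mul_nonneg hu hs0.le]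
    have c3 : |u - ν| * s ≤ u ^ 2 + ν := (mul_le_mul_of_nonneg_right c1 hs0.le).trans c2
    have c4 : 0 ≤ (u ^ 2 + ν) * ν := by positivity
    linarith
  have b2 : |ν * (1 - u) / ((1 + ν) * (1 + u ^ 2))| ≤ 1 := by
    rw [abs_div, abs_of_pos (by positivity : 0 < (1 + ν) * (1 + u ^ 2)),
      div_le_one (by positivity), abs_mul, abs_of_pos hν]
    have c1 : |1 - u| ≤ 1 + u ^ 2 := by
      rw [abs_le]
      constructor
      · nlinarith [sq_nonneg (u - 1)]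
      · nlinarith [sq_nonneg u]
    have c2 := mul_le_mul_of_nonneg_left c1 hν.le
    have c3 : 0 ≤ 1 + u ^ 2 := by positivity
    linarith
  have b3 : |B| ≤ 3 / s := by
    rw [hB]
    refine (abs_sub _ _).trans ?_
    have : 3 / s = 1 / s + 1 / s + 1 / s := by field_simp; norm_num
    linarith
  have b4 : B ^ 2 ≤ 9 / ν := by
    calc B ^ 2 = |B| ^ 2 := (sq_abs B).symm
      _ ≤ (3 / s) ^ 2 := pow_le_pow_left₀ (abs_nonneg _) b3 2
      _ = 9 / ν := by rw [div_pow, hss]; norm_num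
  rw [e1, mul_pow, mul_comm]
  exact mul_le_mul_of_nonneg_right b4 (sq_nonneg _)

lemma kap_two {ν x y : ℝ} (hν : 0 < ν) (hν1 : ν ≤ 1) (hx : 0 ≤ x) (hy : 0 ≤ y) :
    (kap ν x y - 1) ^ 2 * x ^ 2 ≤ 9 / ν * (x - y) ^ 2 := by
  rcases hx.eq_or_lt with rfl | hx0
  · have : 0 ≤ 9 / ν * (0 - y) ^ 2 := by positivity
    simpa using this
  · obtain ⟨u, hu, rfl⟩ : ∃ u : ℝ, 0 ≤ u ∧ y = x * u :=
      ⟨y / x, by positivity, by field_simp⟩
    rw [kap_scale hx0]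
    have h := mul_le_mul_of_nonneg_right (two_aux hν hν1 hu) (sq_nonneg x)
    have e3 : (x - x * u) ^ 2 = x ^ 2 * (1 - u) ^ 2 := by ring
    rw [e3]
    linarith

lemma ysF_scale {s x u : ℝ} (hx : 0 < x) (hu : 0 ≤ u) :
    ysF s x (x * u) = x ^ 2 * ysF s 1 u := by
  unfold ysF
  rw [Real.mul_rpow hx.le hu, Real.one_rpow]
  have h1 : x ^ (2 - 2 * s) * (x ^ (2 * s) * u ^ (2 * s)) = x ^ 2 * u ^ (2 * s) := by
    rw [← mul_assoc, ← Real.rpow_add hx, show 2 - 2 * s + 2 * s = (2 : ℝ) by ring,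
      Real.rpow_two]
  rw [h1]
  ring

lemma rpow_ge_log {u s : ℝ} (hu : 0 < u) : 1 + 2 * s * Real.log u ≤ u ^ (2 * s) := by
  rw [Real.rpow_def_of_pos hu]
  have := Real.add_one_le_exp (Real.log u * (2 * s))
  linarith

lemma ysF_le_aux {s η μ u : ℝ} (hs : 0 < s) (_ : s ≤ 1 / 2) (hη : 0 < η) (hη1 : η ≤ 1)
    (hμ : 0 < μ) (hμ1 : μ ≤ η / 16) (h : s * (3 + 4 * Real.log (4 / (η * μ))) ≤ η)
    (hu : 0 ≤ u) :
    ysF s 1 u ≤ (1 - u) ^ 2 * ((1 + η) * (μ / (μ + u ^ 2)) + η) := by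
  have hy : ysF s 1 u = (1 - s) + s * u ^ 2 - u ^ (2 * s) := by
    unfold ysF; rw [Real.one_rpow]; ring
  have hημ : η * μ ≤ 1 / 16 := by nlinarith
  have hημ0 : 0 < η * μ := by positivity
  have hlog : 1 / 2 ≤ Real.log (4 / (η * μ)) := by
    have h1 := Real.one_sub_inv_le_log_of_pos (show 0 < 4 / (η * μ) by positivity)
    have h2 : (4 / (η * μ))⁻¹ ≤ 1 / 2 := by
      rw [inv_div]; linarith
    linarith
  have h5 : 5 * s ≤ η := by nlinarith
  rw [hy]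
  have hup : 0 ≤ u ^ (2 * s) := Real.rpow_nonneg hu _
  rcases le_or_gt (u ^ 2) (η * μ / 4) with c1 | c1
  · -- small `u`
    have hu8 : u ≤ η / 8 := by
      have : u ^ 2 ≤ (η / 8) ^ 2 := by nlinarith
      exact le_of_sq_le_sq this (by positivity)
    have h1 : (1 - s) + s * u ^ 2 - u ^ (2 * s) ≤ 1 := by
      have : u ^ 2 ≤ 1 := by nlinarith
      nlinarith
    have h2 : 1 / (1 + η / 4) ≤ μ / (μ + u ^ 2) := by
      rw [div_le_div_iff₀ (by positivity) (by positivity)]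
      nlinarith
    have h3 : 1 - η / 4 ≤ (1 - u) ^ 2 := by nlinarith [sq_nonneg u]
    have h4 : 1 ≤ (1 - u) ^ 2 * ((1 + η) * (μ / (μ + u ^ 2))) := by
      have h6 : (1 + η) * (1 / (1 + η / 4)) ≤ (1 + η) * (μ / (μ + u ^ 2)) :=
        mul_le_mul_of_nonneg_left h2 (by linarith)
      have h7 : (1 - η / 4) * ((1 + η) * (1 / (1 + η / 4))) ≤
          (1 - u) ^ 2 * ((1 + η) * (μ / (μ + u ^ 2))) :=
        mul_le_mul h3 h6 (by positivity) (sq_nonneg _)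
      have h8 : 1 ≤ (1 - η / 4) * ((1 + η) * (1 / (1 + η / 4))) := by
        rw [← mul_assoc, mul_one_div, le_div_iff₀ (by positivity)]
        nlinarith
      linarith
    have h9 : 0 ≤ (1 - u) ^ 2 * η := by positivity
    rw [mul_add]
    linarith
  · have hu0 : 0 < u := by
      rcases hu.eq_or_lt with h0 | h0
      · rw [← h0] at c1; nlinarith
      · exact h0
    have hl := rpow_ge_log (s := s) hu0
    have hq : 0 ≤ (1 - u) ^ 2 * ((1 + η) * (μ / (μ + u ^ 2))) := by positivity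
    rcases le_or_gt u (1 / 2) with c2 | c2
    · have h1 : -(2 * Real.log u) ≤ Real.log (4 / (η * μ)) := by
        have h2 : -(2 * Real.log u) = Real.log (1 / u ^ 2) := by
          rw [one_div, Real.log_inv, Real.log_pow]; push_cast; ring
        rw [h2]
        apply Real.log_le_log (by positivity)
        rw [div_le_div_iff₀ (by positivity) (by positivity)]
        linarith
      have h2 : s * (-(2 * Real.log u)) ≤ s * Real.log (4 / (η * μ)) :=
        mul_le_mul_of_nonneg_left h1 hs.le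
      have h3 : 4 * (s * Real.log (4 / (η * μ))) ≤ η := by nlinarith
      have h4 : η / 4 ≤ (1 - u) ^ 2 * η := by
        have : 1 / 4 ≤ (1 - u) ^ 2 := by nlinarith
        nlinarith
      have h6 : u ^ 2 ≤ 1 := by nlinarith
      have h7 : s * u ^ 2 ≤ s * 1 := mul_le_mul_of_nonneg_left h6 hs.le
      rw [mul_add]
      linarith
    · have h1 := Real.one_sub_inv_le_log_of_pos hu0
      have h2 : (u - 1) - 2 * (u - 1) ^ 2 ≤ 1 - u⁻¹ := by
        have h3 : 1 - u⁻¹ - ((u - 1) - 2 * (u - 1) ^ 2) = (u - 1) ^ 2 * (2 * u - 1) / u := by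
          field_simp; ring
        have h4 : 0 ≤ (u - 1) ^ 2 * (2 * u - 1) / u := by
          have : 0 ≤ 2 * u - 1 := by linarith
          positivity
        linarith
      have h3 : s * ((u - 1) - 2 * (u - 1) ^ 2) ≤ s * Real.log u :=
        mul_le_mul_of_nonneg_left (by linarith) hs.le
      have h4 : 5 * s * (1 - u) ^ 2 ≤ η * (1 - u) ^ 2 :=
        mul_le_mul_of_nonneg_right h5 (sq_nonneg _)
      rw [mul_add]
      nlinarith

lemma ysF_le {s η μ x z : ℝ} (hs : 0 < s) (hs1 : s ≤ 1 / 2) (hη : 0 < η) (hη1 : η ≤ 1)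
    (hμ : 0 < μ) (hμ1 : μ ≤ η / 16) (h : s * (3 + 4 * Real.log (4 / (η * μ))) ≤ η)
    (hx : 0 ≤ x) (hz : 0 ≤ z) :
    ysF s x z ≤ (x - z) ^ 2 * ((1 + η) * (μ * x ^ 2 / (μ * x ^ 2 + z ^ 2)) + η) := by
  rcases hx.eq_or_lt with rfl | hx0
  · have hlog : 0 ≤ Real.log (4 / (η * μ)) := by
      apply Real.log_nonneg
      rw [le_div_iff₀ (by positivity)]
      nlinarith
    have hsη : s ≤ η := by nlinarith [mul_nonneg hs.le hlog]
    have h1 : ysF s 0 z = s * z ^ 2 := by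
      unfold ysF
      rw [Real.zero_rpow (by linarith)]; ring
    rw [h1]
    have h2 : (0 - z) ^ 2 * ((1 + η) * (μ * 0 ^ 2 / (μ * 0 ^ 2 + z ^ 2)) + η) = η * z ^ 2 := by
      ring
    rw [h2]
    exact mul_le_mul_of_nonneg_right hsη (sq_nonneg _)
  · obtain ⟨u, hu, rfl⟩ : ∃ u : ℝ, 0 ≤ u ∧ z = x * u :=
      ⟨z / x, by positivity, by field_simp⟩
    rw [ysF_scale hx0 hu]
    have h1 := mul_le_mul_of_nonneg_left (ysF_le_aux hs hs1 hη hη1 hμ hμ1 h hu) (sq_nonneg x)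
    have e2 : μ * x ^ 2 / (μ * x ^ 2 + (x * u) ^ 2) = μ / (μ + u ^ 2) := by
      rw [show μ * x ^ 2 = x ^ 2 * μ by ring,
        show x ^ 2 * μ + (x * u) ^ 2 = x ^ 2 * (μ + u ^ 2) by ring,
        mul_div_mul_left _ _ (by positivity)]
    have e3 : (x - x * u) ^ 2 = x ^ 2 * (1 - u) ^ 2 := by ring
    rw [e2, e3, mul_assoc]
    exact h1

/-- the cross term -/
theorem cross_le {s Λ x z : ℝ} (hs : 0 < s) (hs2 : s ≤ 1 / 2) (hΛ : 1 ≤ Λ) (hx : 0 ≤ x)
    (hz : 0 ≤ z) :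
    x ^ (2 - 2 * s) * z ^ (2 * s) ≤ Λ ^ (2 * s) * x ^ 2 + 1 / Λ * z ^ 2 := by
  have hΛ0 : 0 < Λ := by linarith
  have e1 : x ^ (2 - 2 * s) * x ^ (2 * s) = x ^ 2 := by
    rw [← Real.rpow_add_of_nonneg hx (by linarith) (by linarith), sub_add_cancel,
      Real.rpow_two]
  have e2 : z ^ (2 - 2 * s) * z ^ (2 * s) = z ^ 2 := by
    rw [← Real.rpow_add_of_nonneg hz (by linarith) (by linarith), sub_add_cancel,
      Real.rpow_two]
  have x0 : 0 ≤ x ^ (2 - 2 * s) := Real.rpow_nonneg hx _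
  have z0 : 0 ≤ z ^ (2 * s) := Real.rpow_nonneg hz _
  rcases le_total z (Λ * x) with h | h
  · have h1 : z ^ (2 * s) ≤ (Λ * x) ^ (2 * s) := Real.rpow_le_rpow hz h (by linarith)
    rw [Real.mul_rpow hΛ0.le hx] at h1
    have h2 := mul_le_mul_of_nonneg_left h1 x0
    have h3 : 0 ≤ 1 / Λ * z ^ 2 := by positivity
    calc x ^ (2 - 2 * s) * z ^ (2 * s) ≤ x ^ (2 - 2 * s) * (Λ ^ (2 * s) * x ^ (2 * s)) := h2
      _ = Λ ^ (2 * s) * (x ^ (2 - 2 * s) * x ^ (2 * s)) := by ring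
      _ = Λ ^ (2 * s) * x ^ 2 := by rw [e1]
      _ ≤ _ := by linarith
  · have h1 : x ≤ z / Λ := by
      rw [le_div_iff₀ hΛ0]; linarith
    have h2 : x ^ (2 - 2 * s) ≤ (z / Λ) ^ (2 - 2 * s) := Real.rpow_le_rpow hx h1 (by linarith)
    rw [Real.div_rpow hz hΛ0.le] at h2
    have h3 := mul_le_mul_of_nonneg_right h2 z0
    have h4 : Λ ≤ Λ ^ (2 - 2 * s) := by
      conv_lhs => rw [← Real.rpow_one Λ]
      exact Real.rpow_le_rpow_of_exponent_le hΛ (by linarith)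
    have h5 : 0 ≤ Λ ^ (2 * s) * x ^ 2 := by positivity
    calc x ^ (2 - 2 * s) * z ^ (2 * s) ≤ z ^ (2 - 2 * s) / Λ ^ (2 - 2 * s) * z ^ (2 * s) := h3
      _ = (z ^ (2 - 2 * s) * z ^ (2 * s)) / Λ ^ (2 - 2 * s) := by ring
      _ = z ^ 2 / Λ ^ (2 - 2 * s) := by rw [e2]
      _ ≤ z ^ 2 / Λ := div_le_div_of_nonneg_left (sq_nonneg z) hΛ0 h4
      _ = 1 / Λ * z ^ 2 := by ring
      _ ≤ _ := by linarith

/-- (Y2) -/
theorem le_ysF {s ν η x z : ℝ} (hs : 0 < s) (hs2 : s ≤ 1 / 2) (hν : 0 < ν) (hνη : ν ≤ η)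
    (_hη1 : η ≤ 1) (hK : 0 < 1 - s - (ν / η) ^ s) (hx : 0 ≤ x) (hz : 0 ≤ z) :
    (x - z) ^ 2 * (ν * x ^ 2 / (ν * x ^ 2 + z ^ 2)) ≤
      1 / (1 - s - (ν / η) ^ s) * ysF s x z + η * (x - z) ^ 2 := by
  have hη : 0 < η := by linarith
  have hY0 : 0 ≤ ysF s x z :=
    (mul_nonneg hs.le (sq_nonneg _)).trans (ysF_ge hs hs2 hx hz)
  have hD : 0 ≤ (x - z) ^ 2 := sq_nonneg _
  rcases eq_or_lt_of_le hx with h0 | h0
  · -- x = 0
    rw [← h0] at hY0 ⊢
    have : (0 - z) ^ 2 * (ν * 0 ^ 2 / (ν * 0 ^ 2 + z ^ 2)) = 0 := by simp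
    rw [this]
    have h2 : 0 ≤ (0 - z) ^ 2 := sq_nonneg _
    positivity
  have hden : 0 < ν * x ^ 2 + z ^ 2 := by positivity
  rcases le_total (ν * x ^ 2 / (ν * x ^ 2 + z ^ 2)) η with h | h
  · have h1 := mul_le_mul_of_nonneg_left h hD
    have h2 : 0 ≤ 1 / (1 - s - (ν / η) ^ s) * ysF s x z := by positivity
    linarith
  · -- z² ≤ (ν/η) x²
    rw [le_div_iff₀ hden] at h
    have hz2 : z ^ 2 ≤ ν / η * x ^ 2 := by
      rw [div_mul_eq_mul_div, le_div_iff₀ hη]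
      have : 0 ≤ η * (ν * x ^ 2) := by positivity
      nlinarith
    have hq1 : ν / η ≤ 1 := by rw [div_le_one hη]; exact hνη
    have hzx : z ≤ x := by
      have : z ^ 2 ≤ x ^ 2 := by
        have : ν / η * x ^ 2 ≤ 1 * x ^ 2 := mul_le_mul_of_nonneg_right hq1 (sq_nonneg x)
        linarith
      exact le_of_sq_le_sq this hx
    have hL : (x - z) ^ 2 * (ν * x ^ 2 / (ν * x ^ 2 + z ^ 2)) ≤ x ^ 2 := by
      have h1 : ν * x ^ 2 / (ν * x ^ 2 + z ^ 2) ≤ 1 := by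
        rw [div_le_one hden]
        have := sq_nonneg z
        linarith
      have h2 : (x - z) ^ 2 ≤ x ^ 2 := by nlinarith
      have h3 := mul_le_mul_of_nonneg_left h1 hD
      linarith
    have hzs : z ^ (2 * s) ≤ (ν / η) ^ s * x ^ (2 * s) := by
      have e1 : z ^ (2 * s) = (z ^ 2) ^ s := by
        rw [← Real.rpow_two, ← Real.rpow_mul hz]
      have e2 : x ^ (2 * s) = (x ^ 2) ^ s := by
        rw [← Real.rpow_two, ← Real.rpow_mul hx]
      rw [e1, e2, ← Real.mul_rpow (by positivity) (by positivity)]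
      exact Real.rpow_le_rpow (by positivity) hz2 hs.le
    have e3 : x ^ (2 - 2 * s) * x ^ (2 * s) = x ^ 2 := by
      rw [← Real.rpow_add_of_nonneg hx (by linarith) (by linarith), sub_add_cancel,
        Real.rpow_two]
    have hY1 : (1 - s - (ν / η) ^ s) * x ^ 2 ≤ ysF s x z := by
      unfold ysF
      have x0 : 0 ≤ x ^ (2 - 2 * s) := Real.rpow_nonneg hx _
      have h1 := mul_le_mul_of_nonneg_left hzs x0
      have h2 : x ^ (2 - 2 * s) * ((ν / η) ^ s * x ^ (2 * s)) = (ν / η) ^ s * x ^ 2 := by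
        calc x ^ (2 - 2 * s) * ((ν / η) ^ s * x ^ (2 * s)) =
            (ν / η) ^ s * (x ^ (2 - 2 * s) * x ^ (2 * s)) := by ring
          _ = _ := by rw [e3]
      rw [h2] at h1
      have h3 : 0 ≤ s * z ^ 2 := by positivity
      nlinarith
    have hx2 : x ^ 2 ≤ 1 / (1 - s - (ν / η) ^ s) * ysF s x z := by
      rw [one_div, inv_mul_eq_div, le_div_iff₀ hK]
      linarith
    have h5 : 0 ≤ η * (x - z) ^ 2 := by positivity
    linarith

end Pool.Agent.Hlawka
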