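import Mathlib
import Pool.Agent.Hlawka.LimScal
import Pool.Agent.Hlawka.LimFro

/-!
# The one-sided comparison
-/

namespace Pool.Agent.Hlawka

open Matrix Finset

section algebra

variable {ι : Type*} [Fintype ι] [DecidableEq ι]

omit [Fintype ι] [DecidableEq ι] in
lemma sch_apply (f : ι → ι → ℝ) (W : Matrix ι ι ℂ) (j i : ι) :
    sch f W j i = (f j i : ℂ) * W j i := rfl

omit [Fintype ι] [DecidableEq ι] in
lemma sch_one (W : Matrix ι ι ℂ) : sch (fun _ _ => 1) W = W := by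
  ext j i; simp [sch_apply]

omit [Fintype ι] [DecidableEq ι] in
lemma sch_sub (f g : ι → ι → ℝ) (W : Matrix ι ι ℂ) :
    sch f W - sch g W = sch (fun j i => f j i - g j i) W := by
  ext j i; simp [sch_apply]; ring

omit [Fintype ι] [DecidableEq ι] in
lemma sch_add (f g : ι → ι → ℝ) (W : Matrix ι ι ℂ) :
    sch f W + sch g W = sch (fun j i => f j i + g j i) W := by
  ext j i; simp [sch_apply]; ring

lemma sch_mul_diag (f : ι → ι → ℝ) (W : Matrix ι ι ℂ) (x : ι → ℝ) :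
    sch f W * diagonal (fun i => (x i : ℂ)) = sch (fun j i => f j i * x i) W := by
  ext j i; rw [mul_diagonal, sch_apply, sch_apply]; push_cast; ring

lemma diag_mul_sch (f : ι → ι → ℝ) (W : Matrix ι ι ℂ) (z : ι → ℝ) :
    diagonal (fun i => (z i : ℂ)) * sch f W = sch (fun j i => z j * f j i) W := by
  ext j i; rw [diagonal_mul, sch_apply, sch_apply]; push_cast; ring

omit [DecidableEq ι] in
lemma nsq_sch (f : ι → ι → ℝ) (W : Matrix ι ι ℂ) :
    nsq (sch f W) = ∑ j, ∑ i, Complex.normSq (W j i) * f j i ^ 2 := by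
  unfold nsq
  refine Finset.sum_congr rfl fun j _ => Finset.sum_congr rfl fun i _ => ?_
  rw [sch_apply, map_mul, Complex.normSq_ofReal]; ring

omit [DecidableEq ι] in
/-- weighted comparison of Hilbert-Schmidt sums -/
lemma nsq_sch_le {f : ι → ι → ℝ} {g : ι → ι → ℝ} (W : Matrix ι ι ℂ)
    (h : ∀ j i, f j i ^ 2 ≤ g j i) :
    nsq (sch f W) ≤ ∑ j, ∑ i, Complex.normSq (W j i) * g j i := by
  rw [nsq_sch]
  refine Finset.sum_le_sum fun j _ => Finset.sum_le_sum fun i _ => ?_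
  exact mul_le_mul_of_nonneg_left (h j i) (Complex.normSq_nonneg _)

/-- `∑ |W_{ji}|² (x_i - z_j)²` -/
noncomputable def dv (W : Matrix ι ι ℂ) (x z : ι → ℝ) : ℝ :=
  ∑ j, ∑ i, Complex.normSq (W j i) * (x i - z j) ^ 2

omit [DecidableEq ι] in
lemma dv_nonneg (W : Matrix ι ι ℂ) (x z : ι → ℝ) : 0 ≤ dv W x z :=
  Finset.sum_nonneg fun _ _ => Finset.sum_nonneg fun _ _ =>
    mul_nonneg (Complex.normSq_nonneg _) (sq_nonneg _)

/-- `∑ |W_{ji}|² (x_i - z_j)² ν x_i²/(ν x_i² + z_j²)` -/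
noncomputable def pv (ν : ℝ) (W : Matrix ι ι ℂ) (x z : ι → ℝ) : ℝ :=
  ∑ j, ∑ i, Complex.normSq (W j i) * ((x i - z j) ^ 2 * (ν * x i ^ 2 / (ν * x i ^ 2 + z j ^ 2)))

/-- `∑ |W_{ji}|² ys(x_i, z_j)` -/
noncomputable def fv (s : ℝ) (W : Matrix ι ι ℂ) (x z : ι → ℝ) : ℝ :=
  ∑ j, ∑ i, Complex.normSq (W j i) * ysF s (x i) (z j)

lemma frac_le_one {ν x z : ℝ} (hν : 0 < ν) : ν * x ^ 2 / (ν * x ^ 2 + z ^ 2) ≤ 1 := by
  have h1 : 0 ≤ ν * x ^ 2 := by positivity
  have h2 : 0 ≤ z ^ 2 := sq_nonneg z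
  rcases eq_or_lt_of_le (add_nonneg h1 h2) with h | h
  · rw [← h, div_zero]; norm_num
  · rw [div_le_one h]; linarith

lemma frac_nonneg {ν x z : ℝ} (hν : 0 < ν) : 0 ≤ ν * x ^ 2 / (ν * x ^ 2 + z ^ 2) := by
  positivity

omit [DecidableEq ι] in
lemma pv_le_dv {ν : ℝ} (hν : 0 < ν) (W : Matrix ι ι ℂ) (x z : ι → ℝ) :
    pv ν W x z ≤ dv W x z := by
  refine Finset.sum_le_sum fun j _ => Finset.sum_le_sum fun i _ => ?_
  refine mul_le_mul_of_nonneg_left ?_ (Complex.normSq_nonneg _)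
  have := frac_le_one (x := x i) (z := z j) hν
  have h2 := sq_nonneg (x i - z j)
  nlinarith

lemma nsq_add_le_two (M N : Matrix ι ι ℂ) : nsq (M + N) ≤ 2 * nsq M + 2 * nsq N := by
  have := nsq_add_le (η := 1) one_pos M N
  norm_num at this
  linarith

omit [DecidableEq ι] in
lemma nsq_neg (M : Matrix ι ι ℂ) : nsq (-M) = nsq M := by
  unfold nsq
  simp

lemma nsq_sub_le_two (M N : Matrix ι ι ℂ) : nsq (M - N) ≤ 2 * nsq M + 2 * nsq N := by
  have := nsq_add_le_two M (-N)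
  rw [nsq_neg, ← sub_eq_add_neg] at this
  exact this

/-- the commutator bound -/
lemma dv_mul_le {W1 W2 : Matrix ι ι ℂ} (h1 : star W1 * W1 = 1) (h2 : star W2 * W2 = 1)
    (x y z : ι → ℝ) : dv (W2 * W1) x z ≤ 2 * (dv W1 x y + dv W2 y z) := by
  have e : sch (fun j i => x i - z j) (W2 * W1) =
      W2 * sch (fun k i => x i - y k) W1 + sch (fun j k => y k - z j) W2 * W1 := by
    have a1 : sch (fun j i => x i - z j) (W2 * W1) =
        (W2 * W1) * diagonal (fun i => (x i : ℂ)) - diagonal (fun i => (z i : ℂ)) * (W2 * W1) := by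
      ext j i
      rw [Matrix.sub_apply, mul_diagonal, diagonal_mul, sch_apply]; push_cast; ring
    have a2 : sch (fun k i => x i - y k) W1 =
        W1 * diagonal (fun i => (x i : ℂ)) - diagonal (fun i => (y i : ℂ)) * W1 := by
      ext j i
      rw [Matrix.sub_apply, mul_diagonal, diagonal_mul, sch_apply]; push_cast; ring
    have a3 : sch (fun j k => y k - z j) W2 =
        W2 * diagonal (fun i => (y i : ℂ)) - diagonal (fun i => (z i : ℂ)) * W2 := by
      ext j i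
      rw [Matrix.sub_apply, mul_diagonal, diagonal_mul, sch_apply]; push_cast; ring
    rw [a1, a2, a3]
    simp only [mul_sub, sub_mul, mul_assoc]
    abel
  have k1 : dv (W2 * W1) x z = nsq (sch (fun j i => x i - z j) (W2 * W1)) := by
    rw [nsq_sch]; rfl
  have k2 : dv W1 x y = nsq (sch (fun k i => x i - y k) W1) := by rw [nsq_sch]; rfl
  have k3 : dv W2 y z = nsq (sch (fun j k => y k - z j) W2) := by rw [nsq_sch]; rfl
  rw [k1, e, k2, k3]
  have := nsq_add_le_two (W2 * sch (fun k i => x i - y k) W1) (sch (fun j k => y k - z j) W2 * W1)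
  rw [nsq_unitary_mul h2, nsq_mul_unitary h1] at this
  linarith

/-- the error term carrying the small factor `μ` -/
lemma G_bound {ν₁ ν : ℝ} (hν₁ : 0 < ν₁) (hν₁1 : ν₁ ≤ 1) (hν : 0 < ν) (hν1 : ν ≤ 1)
    {W1 W2 : Matrix ι ι ℂ} (h1 : star W1 * W1 = 1) (h2 : star W2 * W2 = 1)
    {x y z : ι → ℝ} (hx : ∀ i, 0 ≤ x i) (hy : ∀ i, 0 ≤ y i) (hz : ∀ i, 0 ≤ z i) :
    nsq ((sch (fun j k => kap ν (y k) (z j)) W2 * sch (fun k i => kap ν₁ (x i) (y k)) W1 -
        W2 * W1) * diagonal (fun i => (x i : ℂ))) ≤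
      114 / (ν * ν₁) * (dv W1 x y + dv W2 y z) := by
  set q1 := sch (fun k i => kap ν₁ (x i) (y k)) W1 with hq1
  set q2 := sch (fun j k => kap ν (y k) (z j)) W2 with hq2
  set Dx : Matrix ι ι ℂ := diagonal (fun i => (x i : ℂ)) with hDx
  set Dy : Matrix ι ι ℂ := diagonal (fun i => (y i : ℂ)) with hDy
  set R := sch (fun k i => (x i - y k) * kap ν₁ (x i) (y k)) W1 with hR
  have eR : q1 * Dx = R + Dy * q1 := by
    rw [hq1, hDx, hDy, sch_mul_diag, diag_mul_sch, hR, sch_add]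
    congr 1
    funext k i
    ring
  have e : (q2 * q1 - W2 * W1) * Dx =
      W2 * ((q1 - W1) * Dx) + ((q2 - W2) * R + ((q2 - W2) * Dy) * q1) := by
    have : (q2 * q1 - W2 * W1) * Dx = W2 * ((q1 - W1) * Dx) + (q2 - W2) * (q1 * Dx) := by
      simp only [mul_sub, sub_mul, mul_assoc]
      abel
    rw [this, eR, mul_add, mul_assoc]
  have D0 := dv_nonneg W1 x y
  have V0 := dv_nonneg W2 y z
  have opq1 : OpB (3 / ν₁) q1 := opB_kap hν₁ hν₁1 h1 x y
  have opq2 : OpB (3 / ν) q2 := opB_kap hν hν1 h2 y z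
  -- first term
  have b1 : nsq ((q1 - W1) * Dx) ≤ 9 / ν₁ * dv W1 x y := by
    have e1 : (q1 - W1) * Dx = sch (fun k i => (kap ν₁ (x i) (y k) - 1) * x i) W1 := by
      conv_lhs => rw [hq1, ← sch_one W1]
      rw [sch_one W1]
      have : sch (fun k i => kap ν₁ (x i) (y k)) W1 - W1 =
          sch (fun k i => kap ν₁ (x i) (y k) - 1) W1 := by
        conv_lhs => enter [2]; rw [← sch_one W1]
        rw [sch_sub]
      rw [this, hDx, sch_mul_diag]
    rw [e1]
    refine (nsq_sch_le W1 (g := fun k i => 9 / ν₁ * (x i - y k) ^ 2) fun k i => ?_).trans ?_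
    · rw [mul_pow]
      exact kap_two hν₁ hν₁1 (hx i) (hy k)
    · unfold dv
      rw [Finset.mul_sum]
      refine Finset.sum_le_sum fun k _ => ?_
      rw [Finset.mul_sum]
      refine Finset.sum_le_sum fun i _ => ?_
      exact le_of_eq (by ring)
  -- the remainder R
  have b2 : nsq R ≤ 3 / ν₁ * dv W1 x y := by
    rw [hR]
    refine (nsq_sch_le W1 (g := fun k i => 3 / ν₁ * (x i - y k) ^ 2) fun k i => ?_).trans ?_
    · rw [mul_pow, mul_comm]
      exact mul_le_mul_of_nonneg_right (kap_three hν₁ hν₁1 (hx i) (hy k)) (sq_nonneg _)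
    · unfold dv
      rw [Finset.mul_sum]
      refine Finset.sum_le_sum fun k _ => ?_
      rw [Finset.mul_sum]
      refine Finset.sum_le_sum fun i _ => ?_
      exact le_of_eq (by ring)
  have b3 : nsq ((q2 - W2) * R) ≤ 8 / ν * nsq R := by
    rw [sub_mul]
    refine (nsq_sub_le_two _ _).trans ?_
    rw [nsq_unitary_mul h2]
    have c1 := (opq2 R).1
    have c2 := nsq_nonneg R
    have c3 : 2 * nsq R ≤ 2 / ν * nsq R := by
      refine mul_le_mul_of_nonneg_right ?_ c2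
      rw [le_div_iff₀ hν]; linarith
    have : 8 / ν * nsq R = 2 * (3 / ν * nsq R) + 2 / ν * nsq R := by ring
    linarith
  -- the commutator of q2 with y
  have b4 : nsq ((q2 - W2) * Dy) ≤ 9 / ν * dv W2 y z := by
    have e1 : (q2 - W2) * Dy = sch (fun j k => (kap ν (y k) (z j) - 1) * y k) W2 := by
      have : sch (fun j k => kap ν (y k) (z j)) W2 - W2 =
          sch (fun j k => kap ν (y k) (z j) - 1) W2 := by
        conv_lhs => enter [2]; rw [← sch_one W2]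
        rw [sch_sub]
      rw [hq2, this, hDy, sch_mul_diag]
    rw [e1]
    refine (nsq_sch_le W2 (g := fun j k => 9 / ν * (y k - z j) ^ 2) fun j k => ?_).trans ?_
    · rw [mul_pow]
      exact kap_two hν hν1 (hy k) (hz j)
    · unfold dv
      rw [Finset.mul_sum]
      refine Finset.sum_le_sum fun k _ => ?_
      rw [Finset.mul_sum]
      refine Finset.sum_le_sum fun i _ => ?_
      exact le_of_eq (by ring)
  have b5 := (opq1 ((q2 - W2) * Dy)).2
  rw [e]
  have t1 := nsq_add_le_two (W2 * ((q1 - W1) * Dx)) ((q2 - W2) * R + ((q2 - W2) * Dy) * q1)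
  have t2 := nsq_add_le_two ((q2 - W2) * R) (((q2 - W2) * Dy) * q1)
  rw [nsq_unitary_mul h2] at t1
  have u3 : nsq ((q2 - W2) * R) ≤ 24 / (ν * ν₁) * dv W1 x y := by
    refine b3.trans ?_
    calc 8 / ν * nsq R ≤ 8 / ν * (3 / ν₁ * dv W1 x y) :=
          mul_le_mul_of_nonneg_left b2 (by positivity)
      _ = 24 / (ν * ν₁) * dv W1 x y := by field_simp; ring
  have u5 : nsq (((q2 - W2) * Dy) * q1) ≤ 27 / (ν * ν₁) * dv W2 y z := by
    refine b5.trans ?_
    calc 3 / ν₁ * nsq ((q2 - W2) * Dy) ≤ 3 / ν₁ * (9 / ν * dv W2 y z) :=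
          mul_le_mul_of_nonneg_left b4 (by positivity)
      _ = 27 / (ν * ν₁) * dv W2 y z := by field_simp; ring
  have u1 : nsq ((q1 - W1) * Dx) ≤ 9 / (ν * ν₁) * dv W1 x y := by
    refine b1.trans ?_
    refine mul_le_mul_of_nonneg_right ?_ D0
    rw [div_le_div_iff₀ hν₁ (by positivity)]
    nlinarith
  have w : 114 / (ν * ν₁) * (dv W1 x y + dv W2 y z) =
      2 * (9 / (ν * ν₁) * dv W1 x y) + 4 * (24 / (ν * ν₁) * dv W1 x y) +
        4 * (27 / (ν * ν₁) * dv W2 y z) + 6 / (ν * ν₁) * dv W2 y z := by ring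
  have w0 : 0 ≤ 6 / (ν * ν₁) * dv W2 y z := by positivity
  linarith

/-- the main term -/
lemma H_bound {s η η₂ ν₁ ν : ℝ} (hs : 0 < s) (hs2 : s ≤ 1 / 2) (hη : 0 < η) (hν₁ : 0 < ν₁)
    (hν₁1 : ν₁ ≤ 1) (hν : 0 < ν) (hνη : ν ≤ η₂) (hη₂1 : η₂ ≤ 1) (hK : 0 < 1 - s - (ν / η₂) ^ s)
    {W1 W2 : Matrix ι ι ℂ} (h1 : star W1 * W1 = 1) (h2 : star W2 * W2 = 1)
    {x y z : ι → ℝ} (hx : ∀ i, 0 ≤ x i) (hy : ∀ i, 0 ≤ y i) (hz : ∀ i, 0 ≤ z i) :
    nsq (W2 * sch (fun k i => x i - y k * kap ν₁ (x i) (y k)) W1 +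
        sch (fun j k => y k - z j * kap ν (y k) (z j)) W2 *
          sch (fun k i => kap ν₁ (x i) (y k)) W1) ≤
      (1 + η) * (pv ν₁ W1 x y + 8 * Real.sqrt ν₁ * dv W1 x y) +
        (1 + 1 / η) * (3 / ν₁ * (1 / (1 - s - (ν / η₂) ^ s) * fv s W2 y z +
          (η₂ + 8 * Real.sqrt ν) * dv W2 y z)) := by
  set q1 := sch (fun k i => kap ν₁ (x i) (y k)) W1 with hq1
  have opq1 : OpB (3 / ν₁) q1 := opB_kap hν₁ hν₁1 h1 x y
  have hν1 : ν ≤ 1 := hνη.trans hη₂1
  refine (nsq_add_le hη _ _).trans ?_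
  rw [nsq_unitary_mul h2]
  have b1 : nsq (sch (fun k i => x i - y k * kap ν₁ (x i) (y k)) W1) ≤
      pv ν₁ W1 x y + 8 * Real.sqrt ν₁ * dv W1 x y := by
    refine (nsq_sch_le W1 (g := fun k i => (x i - y k) ^ 2 *
      (ν₁ * x i ^ 2 / (ν₁ * x i ^ 2 + y k ^ 2) + 8 * Real.sqrt ν₁)) fun k i => ?_).trans ?_
    · exact kap_one hν₁ hν₁1 (hx i) (hy k)
    · unfold dv pv
      rw [Finset.mul_sum, ← Finset.sum_add_distrib]
      refine Finset.sum_le_sum fun k _ => ?_
      rw [Finset.mul_sum, ← Finset.sum_add_distrib]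
      refine Finset.sum_le_sum fun i _ => ?_
      exact le_of_eq (by ring)
  have b2 : nsq (sch (fun j k => y k - z j * kap ν (y k) (z j)) W2) ≤
      1 / (1 - s - (ν / η₂) ^ s) * fv s W2 y z + (η₂ + 8 * Real.sqrt ν) * dv W2 y z := by
    refine (nsq_sch_le W2 (g := fun j k => 1 / (1 - s - (ν / η₂) ^ s) * ysF s (y k) (z j) +
      (η₂ + 8 * Real.sqrt ν) * (y k - z j) ^ 2) fun j k => ?_).trans ?_
    · have c1 := kap_one hν hν1 (hy k) (hz j)
      have c2 := le_ysF hs hs2 hν hνη hη₂1 hK (hy k) (hz j)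
      refine c1.trans ?_
      rw [mul_add]
      linarith
    · unfold dv fv
      rw [Finset.mul_sum, Finset.mul_sum, ← Finset.sum_add_distrib]
      refine Finset.sum_le_sum fun k _ => ?_
      rw [Finset.mul_sum, Finset.mul_sum, ← Finset.sum_add_distrib]
      refine Finset.sum_le_sum fun i _ => ?_
      exact le_of_eq (by ring)
  have b3 := (opq1 (sch (fun j k => y k - z j * kap ν (y k) (z j)) W2)).2
  have b4 := b3.trans (mul_le_mul_of_nonneg_left b2 (by positivity : 0 ≤ 3 / ν₁))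
  have c1 := mul_le_mul_of_nonneg_left b1 (by positivity : 0 ≤ 1 + η)
  have c2 := mul_le_mul_of_nonneg_left b4 (by positivity : 0 ≤ 1 + 1 / η)
  linarith

/-- the comparison with explicit parameters -/
lemma comp_param {s η η₂ μ ν₁ ν : ℝ} (hs : 0 < s) (hs2 : s ≤ 1 / 2) (hη : 0 < η) (hη1 : η ≤ 1)
    (hν₁ : 0 < ν₁) (hν₁1 : ν₁ ≤ 1) (hν : 0 < ν) (hνη : ν ≤ η₂) (hη₂1 : η₂ ≤ 1)
    (hK : 0 < 1 - s - (ν / η₂) ^ s) (hμ : 0 < μ) (hμη : μ ≤ η / 16)
    (hsη : s * (3 + 4 * Real.log (4 / (η * μ))) ≤ η)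
    {W1 W2 : Matrix ι ι ℂ} (h1 : star W1 * W1 = 1) (h2 : star W2 * W2 = 1)
    {x y z : ι → ℝ} (hx : ∀ i, 0 ≤ x i) (hy : ∀ i, 0 ≤ y i) (hz : ∀ i, 0 ≤ z i) :
    fv s (W2 * W1) x z ≤
      (1 + η) * ((1 + η) * ((1 + η) * (pv ν₁ W1 x y + 8 * Real.sqrt ν₁ * dv W1 x y) +
        (1 + 1 / η) * (3 / ν₁ * (1 / (1 - s - (ν / η₂) ^ s) * fv s W2 y z +
          (η₂ + 8 * Real.sqrt ν) * dv W2 y z))) +
        (1 + 1 / η) * (μ * (114 / (ν * ν₁) * (dv W1 x y + dv W2 y z)))) +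
      η * (2 * (dv W1 x y + dv W2 y z)) := by
  have hν1 : ν ≤ 1 := hνη.trans hη₂1
  set q1 := sch (fun k i => kap ν₁ (x i) (y k)) W1 with hq1
  set q2 := sch (fun j k => kap ν (y k) (z j)) W2 with hq2
  set H := W2 * sch (fun k i => x i - y k * kap ν₁ (x i) (y k)) W1 +
        sch (fun j k => y k - z j * kap ν (y k) (z j)) W2 * q1 with hH
  set G := q2 * q1 - W2 * W1 with hG
  have hHb := H_bound hs hs2 hη hν₁ hν₁1 hν hνη hη₂1 hK h1 h2 hx hy hz
  rw [← hq1, ← hH] at hHb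
  have hGb := G_bound hν₁ hν₁1 hν hν1 h1 h2 hx hy hz
  rw [← hq1, ← hq2, ← hG] at hGb
  -- the identity
  have id : ∀ j i, ((x i - z j : ℝ) : ℂ) * (W2 * W1) j i = H j i + (z j : ℂ) * G j i := by
    have e1 : sch (fun j i => x i - z j) (W2 * W1) = H + diagonal (fun i => (z i : ℂ)) * G := by
      have a1 : sch (fun j i => x i - z j) (W2 * W1) =
          (W2 * W1) * diagonal (fun i => (x i : ℂ)) -
            diagonal (fun i => (z i : ℂ)) * (W2 * W1) := by
        ext j i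
        rw [Matrix.sub_apply, mul_diagonal, diagonal_mul, sch_apply]; push_cast; ring
      have a2 : sch (fun k i => x i - y k * kap ν₁ (x i) (y k)) W1 =
          W1 * diagonal (fun i => (x i : ℂ)) - diagonal (fun i => (y i : ℂ)) * q1 := by
        ext j i
        rw [Matrix.sub_apply, mul_diagonal, diagonal_mul, sch_apply, hq1, sch_apply]
        push_cast; ring
      have a3 : sch (fun j k => y k - z j * kap ν (y k) (z j)) W2 =
          W2 * diagonal (fun i => (y i : ℂ)) - diagonal (fun i => (z i : ℂ)) * q2 := by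
        ext j i
        rw [Matrix.sub_apply, mul_diagonal, diagonal_mul, sch_apply, hq2, sch_apply]
        push_cast; ring
      rw [a1, hH, a2, a3, hG]
      simp only [mul_sub, sub_mul, mul_assoc]
      abel
    intro j i
    have := congrFun (congrFun e1 j) i
    rw [sch_apply, Matrix.add_apply, diagonal_mul] at this
    exact this
  -- pointwise
  have pt : ∀ j i, Complex.normSq ((W2 * W1) j i) * ysF s (x i) (z j) ≤
      (1 + η) * ((1 + η) * Complex.normSq (H j i) +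
        (1 + 1 / η) * (μ * Complex.normSq (G j i * (x i : ℂ)))) +
      η * (Complex.normSq ((W2 * W1) j i) * (x i - z j) ^ 2) := by
    intro j i
    have y1 := ysF_le hs hs2 hη hη1 hμ hμη hsη (hx i) (hz j)
    set m := μ * x i ^ 2 / (μ * x i ^ 2 + z j ^ 2) with hm
    have m0 : 0 ≤ m := frac_nonneg hμ
    have m1 : m ≤ 1 := frac_le_one hμ
    have n0 := Complex.normSq_nonneg ((W2 * W1) j i)
    have y2 := mul_le_mul_of_nonneg_left y1 n0
    have e2 : Complex.normSq ((W2 * W1) j i) * (x i - z j) ^ 2 =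
        Complex.normSq (H j i + (z j : ℂ) * G j i) := by
      rw [← id, map_mul, Complex.normSq_ofReal]; ring
    have y3 := normSq_add_le hη (H j i) ((z j : ℂ) * G j i)
    have y4 : m * Complex.normSq ((z j : ℂ) * G j i) ≤ μ * Complex.normSq (G j i * (x i : ℂ)) := by
      rw [map_mul, map_mul, Complex.normSq_ofReal, Complex.normSq_ofReal]
      have g0 := Complex.normSq_nonneg (G j i)
      have : m * (z j * z j) ≤ μ * (x i * x i) := by
        rcases eq_or_lt_of_le (by positivity : 0 ≤ μ * x i ^ 2 + z j ^ 2) with h0 | h0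
        · rw [hm, ← h0, div_zero, zero_mul]
          have := mul_self_nonneg (x i)
          positivity
        · rw [hm, div_mul_eq_mul_div, div_le_iff₀ h0]
          have a1 : 0 ≤ μ * (x i * x i) := by
            have := mul_self_nonneg (x i)
            positivity
          nlinarith [mul_nonneg a1 a1]
      calc m * (z j * z j * Complex.normSq (G j i))
          = (m * (z j * z j)) * Complex.normSq (G j i) := by ring
        _ ≤ (μ * (x i * x i)) * Complex.normSq (G j i) := mul_le_mul_of_nonneg_right this g0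
        _ = μ * (Complex.normSq (G j i) * (x i * x i)) := by ring
    have y5 : m * (Complex.normSq ((W2 * W1) j i) * (x i - z j) ^ 2) ≤
        (1 + η) * Complex.normSq (H j i) +
          (1 + 1 / η) * (μ * Complex.normSq (G j i * (x i : ℂ))) := by
      rw [e2]
      have hH0 := Complex.normSq_nonneg (H j i)
      calc m * Complex.normSq (H j i + (z j : ℂ) * G j i)
          ≤ m * ((1 + η) * Complex.normSq (H j i) +
              (1 + 1 / η) * Complex.normSq ((z j : ℂ) * G j i)) :=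
            mul_le_mul_of_nonneg_left y3 m0
        _ = m * ((1 + η) * Complex.normSq (H j i)) +
              (1 + 1 / η) * (m * Complex.normSq ((z j : ℂ) * G j i)) := by ring
        _ ≤ 1 * ((1 + η) * Complex.normSq (H j i)) +
              (1 + 1 / η) * (μ * Complex.normSq (G j i * (x i : ℂ))) := by
            gcongr
        _ = _ := by ring
    have y6 := mul_le_mul_of_nonneg_left y5 (by positivity : 0 ≤ 1 + η)
    calc Complex.normSq ((W2 * W1) j i) * ysF s (x i) (z j)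
        ≤ Complex.normSq ((W2 * W1) j i) * ((x i - z j) ^ 2 * ((1 + η) * m + η)) := y2
      _ = (1 + η) * (m * (Complex.normSq ((W2 * W1) j i) * (x i - z j) ^ 2)) +
          η * (Complex.normSq ((W2 * W1) j i) * (x i - z j) ^ 2) := by ring
      _ ≤ _ := by linarith
  have tot : fv s (W2 * W1) x z ≤
      (1 + η) * ((1 + η) * nsq H +
        (1 + 1 / η) * (μ * nsq (G * diagonal (fun i => (x i : ℂ))))) +
      η * dv (W2 * W1) x z := by
    have e3 : nsq (G * diagonal (fun i => (x i : ℂ))) =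
        ∑ j, ∑ i, Complex.normSq (G j i * (x i : ℂ)) := by
      unfold nsq
      refine Finset.sum_congr rfl fun j _ => Finset.sum_congr rfl fun i _ => ?_
      rw [mul_diagonal]
    rw [e3]
    unfold fv dv nsq
    simp only [Finset.mul_sum, ← Finset.sum_add_distrib]
    refine Finset.sum_le_sum fun j _ => Finset.sum_le_sum fun i _ => ?_
    have := pt j i
    simp only [mul_add] at this ⊢
    linarith
  have hd := dv_mul_le h1 h2 x y z
  refine tot.trans ?_
  gcongr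

end algebra

lemma fv_nonneg {ι : Type*} [Fintype ι] {s : ℝ} (hs : 0 < s) (hs2 : s ≤ 1 / 2)
    (W : Matrix ι ι ℂ) {x z : ι → ℝ} (hx : ∀ i, 0 ≤ x i) (hz : ∀ i, 0 ≤ z i) :
    0 ≤ fv s W x z :=
  Finset.sum_nonneg fun j _ => Finset.sum_nonneg fun i _ =>
    mul_nonneg (Complex.normSq_nonneg _)
      ((mul_nonneg hs.le (sq_nonneg _)).trans (ysF_ge hs hs2 (hx i) (hz j)))

/-- final arithmetic -/
lemma comp_arith {η η₂ ν₁ ν μ r K₀ K P D V F : ℝ} (hη : 0 < η) (hη1 : η ≤ 1) (hν₁ : 0 < ν₁)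
    (hν : 0 < ν) (hη₂ : η₂ = η ^ 2 * ν₁ / 48) (hμ : μ = η ^ 2 * ν * ν₁ / 400) (hr : r ≤ η₂)
    (hK₀ : 24 / (η * ν₁) * K₀ ≤ K) (hK0 : 0 ≤ K₀) (hP : P ≤ D) (hD : 0 ≤ D) (hV : 0 ≤ V)
    (hF : 0 ≤ F) :
    (1 + η) * ((1 + η) * ((1 + η) * (P + η * D) +
        (1 + 1 / η) * (3 / ν₁ * (K₀ * F + (η₂ + r) * V))) +
        (1 + 1 / η) * (μ * (114 / (ν * ν₁) * (D + V)))) + η * (2 * (D + V)) ≤
      P + 20 * η * (D + V) + K * F := by
  have e1 : (1 + η) ^ 3 ≤ 8 := by nlinarith [sq_nonneg η, mul_pos hη hη]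
  have e2 : (1 + η) ^ 3 ≤ 1 + 7 * η := by nlinarith [sq_nonneg η, mul_pos hη hη]
  have e3 : (1 + η) ^ 2 ≤ 4 := by nlinarith [sq_nonneg η, mul_pos hη hη]
  have e0 : 0 < (1 + η) ^ 3 := by positivity
  have T1 : (1 + η) ^ 3 * (P + η * D) ≤ P + 15 * η * D := by
    have a1 : (1 + η) ^ 3 * P ≤ P + 7 * η * D := by
      have : ((1 + η) ^ 3 - 1) * P ≤ ((1 + η) ^ 3 - 1) * D := by
        refine mul_le_mul_of_nonneg_left hP ?_
        nlinarith [sq_nonneg η, mul_pos hη hη]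
      nlinarith
    have a2 : (1 + η) ^ 3 * (η * D) ≤ 8 * (η * D) :=
      mul_le_mul_of_nonneg_right e1 (by positivity)
    linarith
  have T2 : (1 + η) ^ 3 / η * (3 / ν₁) * (K₀ * F) ≤ K * F := by
    have a1 : (1 + η) ^ 3 / η * (3 / ν₁) ≤ 24 / (η * ν₁) := by
      rw [div_mul_div_comm]
      gcongr
      linarith
    calc (1 + η) ^ 3 / η * (3 / ν₁) * (K₀ * F) ≤ 24 / (η * ν₁) * (K₀ * F) :=
          mul_le_mul_of_nonneg_right a1 (by positivity)
      _ = (24 / (η * ν₁) * K₀) * F := by ring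
      _ ≤ K * F := mul_le_mul_of_nonneg_right hK₀ hF
  have T3 : (1 + η) ^ 3 / η * (3 / ν₁) * ((η₂ + r) * V) ≤ η * V := by
    have a1 : (1 + η) ^ 3 / η * (3 / ν₁) ≤ 24 / (η * ν₁) := by
      rw [div_mul_div_comm]
      gcongr
      linarith
    have h2 : 0 < η₂ := by rw [hη₂]; positivity
    have a2 : (η₂ + r) * V ≤ 2 * η₂ * V := mul_le_mul_of_nonneg_right (by linarith) hV
    have a3 : 0 ≤ 2 * η₂ * V := by positivity
    calc (1 + η) ^ 3 / η * (3 / ν₁) * ((η₂ + r) * V)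
        ≤ (1 + η) ^ 3 / η * (3 / ν₁) * (2 * η₂ * V) := mul_le_mul_of_nonneg_left a2 (by positivity)
      _ ≤ 24 / (η * ν₁) * (2 * η₂ * V) := mul_le_mul_of_nonneg_right a1 a3
      _ = η * V := by rw [hη₂]; field_simp; ring
  have T4 : (1 + η) ^ 2 / η * (μ * (114 / (ν * ν₁) * (D + V))) ≤ 2 * η * (D + V) := by
    have a1 : (1 + η) ^ 2 / η * (μ * (114 / (ν * ν₁) * (D + V))) =
        (1 + η) ^ 2 * (η * (114 / 400) * (D + V)) := by rw [hμ]; field_simp
    rw [a1]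
    have a2 : 0 ≤ η * (114 / 400) * (D + V) := by positivity
    have a3 := mul_le_mul_of_nonneg_right e3 a2
    have a4 : 0 ≤ η * (D + V) := by positivity
    linarith
  have E : (1 + η) * ((1 + η) * ((1 + η) * (P + η * D) +
        (1 + 1 / η) * (3 / ν₁ * (K₀ * F + (η₂ + r) * V))) +
        (1 + 1 / η) * (μ * (114 / (ν * ν₁) * (D + V)))) + η * (2 * (D + V)) =
      (1 + η) ^ 3 * (P + η * D) + (1 + η) ^ 3 / η * (3 / ν₁) * (K₀ * F) +
      (1 + η) ^ 3 / η * (3 / ν₁) * ((η₂ + r) * V) +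
      (1 + η) ^ 2 / η * (μ * (114 / (ν * ν₁) * (D + V))) + η * (2 * (D + V)) := by
    field_simp
    ring
  rw [E]
  have p1 : 0 ≤ η * D := by positivity
  have p2 : 0 ≤ η * V := by positivity
  nlinarith

/-- the comparison for one sign -/
theorem comp_one {η : ℝ} (hη : 0 < η) (hη1 : η ≤ 1) :
    ∃ ν₁ K s₀ : ℝ, 0 < ν₁ ∧ ν₁ ≤ 1 ∧ 0 < K ∧ 0 < s₀ ∧ s₀ ≤ 1 / 2 ∧ ∀ s : ℝ, 0 < s → s ≤ s₀ →
      ∀ (ι : Type) [Fintype ι] [DecidableEq ι] (W1 W2 : Matrix ι ι ℂ),
      star W1 * W1 = 1 → star W2 * W2 = 1 →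
      ∀ x y z : ι → ℝ, (∀ i, 0 ≤ x i) → (∀ i, 0 ≤ y i) → (∀ i, 0 ≤ z i) →
      fv s (W2 * W1) x z ≤ pv ν₁ W1 x y + 20 * η * (dv W1 x y + dv W2 y z) +
        K * fv s W2 y z := by
  set ν₁ : ℝ := η ^ 2 / 64 with hν₁d
  set η₂ : ℝ := η ^ 2 * ν₁ / 48 with hη₂d
  set θ : ℝ := η / 8 with hθd
  set C₁ : ℝ := Real.log (1600 / (η ^ 3 * ν₁ * η₂)) with hC₁d
  have hη2 : η ^ 2 ≤ 1 := pow_le_one₀ hη.le hη1
  have hν₁ : 0 < ν₁ := by positivity
  have hν₁1 : ν₁ ≤ 1 := by rw [hν₁d]; linarith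
  have hη₂ : 0 < η₂ := by positivity
  have hη₂1 : η₂ ≤ 1 := by
    rw [hη₂d]
    have : η ^ 2 * ν₁ ≤ 1 * 1 := mul_le_mul hη2 hν₁1 hν₁.le zero_le_one
    linarith
  have hθ : 0 < θ := by positivity
  have hexp : Real.exp (-θ) < 1 := by rw [Real.exp_lt_one_iff]; linarith
  have h1e : 0 < 1 - Real.exp (-θ) := by linarith
  have hL : 0 < Real.log (64 / η₂) := by
    apply Real.log_pos
    rw [lt_div_iff₀ hη₂]; linarith
  have hC₁ : 0 < C₁ := by
    apply Real.log_pos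
    rw [lt_div_iff₀ (by positivity)]
    have h3 : η ^ 3 ≤ 1 := pow_le_one₀ hη.le hη1
    have : η ^ 3 * ν₁ * η₂ ≤ 1 * 1 * 1 := by gcongr
    linarith
  set K₀ : ℝ := 2 / (1 - Real.exp (-θ)) with hK₀d
  have hK₀ : 0 < K₀ := by positivity
  refine ⟨ν₁, 24 / (η * ν₁) * K₀,
    min (min (1 / 2) ((1 - Real.exp (-θ)) / 2)) (min (θ / Real.log (64 / η₂))
      (η / (2 * (3 + 4 * C₁)))), hν₁, hν₁1, by positivity, ?_, ?_, ?_⟩
  · refine lt_min (lt_min (by norm_num) (by positivity)) (lt_min (by positivity) (by positivity))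
  · exact (min_le_left _ _).trans (min_le_left _ _)
  intro s hs hs0 ι _ _ W1 W2 h1 h2 x y z hx hy hz
  have hs2 : s ≤ 1 / 2 := hs0.trans ((min_le_left _ _).trans (min_le_left _ _))
  have hsb : s ≤ (1 - Real.exp (-θ)) / 2 := hs0.trans ((min_le_left _ _).trans (min_le_right _ _))
  have hsc : s ≤ θ / Real.log (64 / η₂) := hs0.trans ((min_le_right _ _).trans (min_le_left _ _))
  have hsd : s ≤ η / (2 * (3 + 4 * C₁)) := hs0.trans ((min_le_right _ _).trans (min_le_right _ _))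
  set ν : ℝ := η₂ * Real.exp (-(θ / s)) with hνd
  have hexs : Real.exp (-(θ / s)) ≤ 1 := by
    rw [Real.exp_le_one_iff]
    have : 0 < θ / s := by positivity
    linarith
  have hν : 0 < ν := by positivity
  have hνη : ν ≤ η₂ := by
    rw [hνd]
    calc η₂ * Real.exp (-(θ / s)) ≤ η₂ * 1 := mul_le_mul_of_nonneg_left hexs hη₂.le
      _ = η₂ := mul_one _
  have hpow : (ν / η₂) ^ s = Real.exp (-θ) := by
    rw [hνd, mul_comm, mul_div_assoc, div_self hη₂.ne', mul_one, ← Real.exp_mul]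
    congr 1
    field_simp
  have hKp : (1 - Real.exp (-θ)) / 2 ≤ 1 - s - (ν / η₂) ^ s := by rw [hpow]; linarith
  have hK : 0 < 1 - s - (ν / η₂) ^ s := lt_of_lt_of_le (by positivity) hKp
  set μ : ℝ := η ^ 2 * ν * ν₁ / 400 with hμd
  have hμ : 0 < μ := by positivity
  have hν1 : ν ≤ 1 := hνη.trans hη₂1
  have hμη : μ ≤ η / 16 := by
    rw [hμd]
    have : η ^ 2 * ν * ν₁ ≤ η * 1 * 1 := by
      have : η ^ 2 ≤ η := by nlinarith
      gcongr
    linarith
  have hsη : s * (3 + 4 * Real.log (4 / (η * μ))) ≤ η := by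
    have e1 : Real.log (4 / (η * μ)) = C₁ + θ / s := by
      have : 4 / (η * μ) = 1600 / (η ^ 3 * ν₁ * η₂) * Real.exp (θ / s) := by
        rw [hμd, hνd, Real.exp_neg]
        have := Real.exp_pos (θ / s)
        field_simp
        ring
      rw [this, Real.log_mul (by positivity) (Real.exp_pos _).ne', Real.log_exp]
    rw [e1]
    have e2 : s * (3 + 4 * (C₁ + θ / s)) = s * (3 + 4 * C₁) + 4 * θ := by
      field_simp
      ring
    rw [e2]
    have e3 : s * (3 + 4 * C₁) ≤ η / 2 := by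
      have := mul_le_mul_of_nonneg_right hsd (by positivity : 0 ≤ 3 + 4 * C₁)
      have e4 : η / (2 * (3 + 4 * C₁)) * (3 + 4 * C₁) = η / 2 := by field_simp
      linarith
    rw [hθd]
    linarith
  have hr : 8 * Real.sqrt ν ≤ η₂ := by
    have a1 : Real.exp (-(θ / s)) ≤ η₂ / 64 := by
      rw [← Real.exp_log (show 0 < η₂ / 64 by positivity)]
      apply Real.exp_le_exp.mpr
      have a2 : Real.log (64 / η₂) ≤ θ / s := by
        rw [le_div_iff₀ hs]
        rw [le_div_iff₀ hL] at hsc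
        linarith
      have a3 : Real.log (η₂ / 64) = -Real.log (64 / η₂) := by
        rw [← Real.log_inv, inv_div]
      rw [a3]
      linarith
    have a4 : ν ≤ (η₂ / 8) ^ 2 := by
      rw [hνd]
      calc η₂ * Real.exp (-(θ / s)) ≤ η₂ * (η₂ / 64) := mul_le_mul_of_nonneg_left a1 hη₂.le
        _ = (η₂ / 8) ^ 2 := by ring
    have a5 : Real.sqrt ν ≤ η₂ / 8 := by
      rw [← Real.sqrt_sq (show 0 ≤ η₂ / 8 by positivity)]
      exact Real.sqrt_le_sqrt a4
    linarith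
  have hsq : 8 * Real.sqrt ν₁ = η := by
    have : ν₁ = (η / 8) ^ 2 := by rw [hν₁d]; ring
    rw [this, Real.sqrt_sq (by positivity)]
    ring
  have main := comp_param hs hs2 hη hη1 hν₁ hν₁1 hν hνη hη₂1 hK hμ hμη hsη h1 h2 hx hy hz
  rw [hsq] at main
  refine main.trans ?_
  have hK0' : 1 / (1 - s - (ν / η₂) ^ s) ≤ K₀ := by
    rw [hK₀d, div_le_div_iff₀ hK h1e]
    linarith
  refine comp_arith hη hη1 hν₁ hν hη₂d hμd hr ?_ (by positivity) (pv_le_dv hν₁ W1 x y)
    (dv_nonneg W1 x y) (dv_nonneg W2 y z) (fv_nonneg hs hs2 W2 hy hz)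
  exact mul_le_mul_of_nonneg_left hK0' (by positivity)

end Pool.Agent.Hlawka
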