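import Mathlib

/-!
# The inequality `(x + y)^q ≤ x^q + y^q + (2^q - 2) (x y)^{q/2}`, `1 < q < 2`
-/

namespace Pool.Agent.Hlawka

open Set

lemma concaveOn_log_sinh : ConcaveOn ℝ (Ioi (0 : ℝ)) fun t => Real.log (Real.sinh t) := by
  have hd : ∀ t ∈ Ioi (0 : ℝ), HasDerivAt (fun t => Real.log (Real.sinh t))
      (Real.cosh t / Real.sinh t) t := by
    intro t ht
    exact (Real.hasDerivAt_sinh t).log (Real.sinh_pos_iff.2 ht).ne'
  apply AntitoneOn.concaveOn_of_deriv (convex_Ioi 0)
  · intro t ht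
    exact (hd t ht).continuousAt.continuousWithinAt
  · rw [interior_Ioi]
    intro t ht
    exact (hd t ht).differentiableAt.differentiableWithinAt
  · rw [interior_Ioi]
    intro s hs t ht hst
    rw [(hd s hs).deriv, (hd t ht).deriv]
    have h1 := Real.sinh_pos_iff.2 hs
    have h2 := Real.sinh_pos_iff.2 ht
    rw [div_le_div_iff₀ h2 h1]
    have h3 : 0 ≤ Real.sinh (t - s) := Real.sinh_nonneg_iff.2 (by linarith)
    rw [Real.sinh_sub] at h3
    linarith

lemma sinh_mul_ge {q a : ℝ} (hq1 : 1 < q) (hq2 : q < 2) (ha : 0 < a) :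
    (2 * Real.cosh a) ^ (q - 1) * Real.sinh a ≤ Real.sinh (q * a) := by
  have h := concaveOn_log_sinh.2 (mem_Ioi.2 ha) (mem_Ioi.2 (by linarith : (0 : ℝ) < 2 * a))
    (by linarith : (0 : ℝ) ≤ 2 - q) (by linarith : (0 : ℝ) ≤ q - 1) (by ring)
  simp only [smul_eq_mul] at h
  have e : (2 - q) * a + (q - 1) * (2 * a) = q * a := by ring
  rw [e, Real.sinh_two_mul] at h
  have hs := Real.sinh_pos_iff.2 ha
  have hc := Real.cosh_pos a
  have hqa : 0 < Real.sinh (q * a) := Real.sinh_pos_iff.2 (by positivity)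
  rw [show 2 * Real.sinh a * Real.cosh a = Real.sinh a * (2 * Real.cosh a) by ring,
    Real.log_mul hs.ne' (by positivity)] at h
  have h2 : Real.log ((2 * Real.cosh a) ^ (q - 1) * Real.sinh a) ≤ Real.log (Real.sinh (q * a)) := by
    rw [Real.log_mul (by positivity) hs.ne', Real.log_rpow (by positivity)]
    linarith
  exact (Real.log_le_log_iff (by positivity) hqa).1 h2

lemma cosh_ineq {q : ℝ} (hq1 : 1 < q) (hq2 : q < 2) {a : ℝ} (ha : 0 ≤ a) :
    (2 * Real.cosh a) ^ q ≤ 2 * Real.cosh (q * a) + (2 ^ q - 2) := by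
  set g : ℝ → ℝ := fun a => 2 * Real.cosh (q * a) - (2 * Real.cosh a) ^ q with hg
  have hd : ∀ t : ℝ, HasDerivAt g (2 * (Real.sinh (q * t) * q) -
      2 * Real.sinh t * q * (2 * Real.cosh t) ^ (q - 1)) t := by
    intro t
    have h1 : HasDerivAt (fun a : ℝ => q * a) q t := by
      simpa using (hasDerivAt_id t).const_mul q
    have h2 : HasDerivAt (fun a : ℝ => 2 * Real.cosh (q * a)) (2 * (Real.sinh (q * t) * q)) t :=
      (h1.cosh).const_mul 2
    have h3 : HasDerivAt (fun a : ℝ => 2 * Real.cosh a) (2 * Real.sinh t) t :=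
      (Real.hasDerivAt_cosh t).const_mul 2
    have h4 := h3.rpow_const (p := q) (Or.inl (by have := Real.cosh_pos t; positivity))
    exact h2.sub h4
  have hmono : MonotoneOn g (Ici 0) := by
    apply monotoneOn_of_deriv_nonneg (convex_Ici 0)
    · intro t _
      exact (hd t).continuousAt.continuousWithinAt
    · intro t _
      exact (hd t).differentiableAt.differentiableWithinAt
    · rw [interior_Ici]
      intro t ht
      rw [(hd t).deriv]
      have := sinh_mul_ge hq1 hq2 (mem_Ioi.1 ht)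
      nlinarith
  have h := hmono (mem_Ici.2 le_rfl) (mem_Ici.2 ha) ha
  simp only [hg, mul_zero, Real.cosh_zero, mul_one] at h
  linarith

theorem add_rpow_le_mid {q : ℝ} (hq1 : 1 < q) (hq2 : q < 2) {x y : ℝ} (hx : 0 ≤ x) (hy : 0 ≤ y) :
    (x + y) ^ q ≤ x ^ q + y ^ q + (2 ^ q - 2) * (x * y) ^ (q / 2) := by
  have hq0 : q ≠ 0 := by linarith
  have hq20 : q / 2 ≠ 0 := by positivity
  rcases hx.eq_or_lt with h0 | hx0
  · rw [← h0, zero_add, zero_mul, Real.zero_rpow hq0, Real.zero_rpow hq20]; linarith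
  rcases hy.eq_or_lt with h0 | hy0
  · rw [← h0, add_zero, mul_zero, Real.zero_rpow hq0, Real.zero_rpow hq20]; linarith
  -- symmetric: assume `y ≤ x`
  have main : ∀ x y : ℝ, 0 < x → 0 < y → y ≤ x →
      (x + y) ^ q ≤ x ^ q + y ^ q + (2 ^ q - 2) * (x * y) ^ (q / 2) := by
    intro x y hx hy hyx
    set m := Real.sqrt (x * y) with hm
    have hm0 : 0 < m := Real.sqrt_pos.2 (by positivity)
    set a := Real.log (x / m) with ha
    have hxm : x = m * Real.exp a := by
      rw [ha, Real.exp_log (by positivity)]; field_simp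
    have hmm : m * m = x * y := Real.mul_self_sqrt (by positivity)
    have hym : y = m * Real.exp (-a) := by
      rw [Real.exp_neg]
      have h1 : Real.exp a ≠ 0 := (Real.exp_pos a).ne'
      field_simp
      have : x * y = m * (m * 1) := by rw [mul_one, hmm]
      rw [hxm] at this
      have h2 : m * (y * Real.exp a) = m * m := by linear_combination this
      exact mul_left_cancel₀ hm0.ne' h2
    have ha0 : 0 ≤ a := by
      apply Real.log_nonneg
      rw [le_div_iff₀ hm0, one_mul, hm]
      rw [Real.sqrt_le_left hx.le]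
      nlinarith
    have h := cosh_ineq hq1 hq2 ha0
    have e1 : (x + y) ^ q = m ^ q * (2 * Real.cosh a) ^ q := by
      rw [← Real.mul_rpow hm0.le (by have := Real.cosh_pos a; positivity)]
      congr 1
      rw [Real.cosh_eq]
      conv_lhs => rw [hxm, hym]
      ring
    have e2 : x ^ q + y ^ q = m ^ q * (2 * Real.cosh (q * a)) := by
      conv_lhs => rw [hxm, hym]
      rw [Real.mul_rpow hm0.le (Real.exp_pos _).le, Real.mul_rpow hm0.le (Real.exp_pos _).le,
        ← Real.exp_mul, ← Real.exp_mul, Real.cosh_eq]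
      have : -a * q = -(q * a) := by ring
      rw [this, mul_comm a q]
      ring
    have e3 : (x * y) ^ (q / 2) = m ^ q := by
      rw [← hmm, ← pow_two, ← Real.rpow_natCast, ← Real.rpow_mul hm0.le]
      congr 1
      push_cast
      ring
    rw [e1, e2, e3]
    have := mul_le_mul_of_nonneg_left h (Real.rpow_nonneg hm0.le q)
    linarith
  rcases le_total y x with h | h
  · exact main x y hx0 hy0 h
  · have := main y x hy0 hx0 h
    rw [add_comm x y, mul_comm x y]
    linarith

end Pool.Agent.Hlawka
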