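import Mathlib
import Pool.Agent.Hlawka.Norm

/-!
# Comparison of `Tr f(P + Q)` with the sum over the overlaps
-/

namespace Pool.Agent.Hlawka

open Matrix Finset Unitary
open scoped ComplexOrder

variable {ι : Type*} [Fintype ι] [DecidableEq ι]

lemma mf_mul_mf (g h : ℝ → ℝ) {A : Matrix ι ι ℂ} (hA : A.IsHermitian) :
    mf g hA * mf h hA = mf (fun t => g t * h t) hA := by
  unfold mf
  set U := (hA.eigenvectorUnitary : Matrix ι ι ℂ) with hU
  set D := diagonal (fun i => ((g (hA.eigenvalues i) : ℝ) : ℂ)) with hD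
  set E := diagonal (fun i => ((h (hA.eigenvalues i) : ℝ) : ℂ)) with hE
  have h1 : U * D * star U * (U * E * star U) = U * (D * (star U * U) * E) * star U := by
    simp only [mul_assoc]
  rw [h1, hU, star_mul_self_U, mul_one, hD, hE, diagonal_mul_diagonal]
  congr 3
  ext i
  simp

lemma mf_add_fun (g h : ℝ → ℝ) {A : Matrix ι ι ℂ} (hA : A.IsHermitian) :
    mf (fun t => g t + h t) hA = mf g hA + mf h hA := by
  unfold mf
  rw [← add_mul, ← mul_add, diagonal_add]
  congr 3
  ext i
  simp

lemma mf_congr {g h : ℝ → ℝ} {A : Matrix ι ι ℂ} (hA : A.IsHermitian)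
    (e : ∀ i, g (hA.eigenvalues i) = h (hA.eigenvalues i)) : mf g hA = mf h hA := by
  unfold mf
  simp_rw [e]

lemma trace_mf (g : ℝ → ℝ) {A : Matrix ι ι ℂ} (hA : A.IsHermitian) :
    (mf g hA).trace = ((trF g hA : ℝ) : ℂ) := by
  unfold mf trF
  rw [trace_mul_comm, ← mul_assoc, star_mul_self_U, one_mul, trace_diagonal]
  push_cast
  rfl

lemma mf_posSemidef {g : ℝ → ℝ} {A : Matrix ι ι ℂ} (hA : A.IsHermitian)
    (hg : ∀ i, 0 ≤ g (hA.eigenvalues i)) : (mf g hA).PosSemidef := by
  unfold mf
  rw [star_eq_conjTranspose]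
  apply PosSemidef.mul_mul_conjTranspose_same
  rw [posSemidef_diagonal_iff]
  intro i
  exact_mod_cast hg i

/-- sum of squares weighted on the left -/
lemma sum_left (g h : ℝ → ℝ) {A B : Matrix ι ι ℂ} (hA : A.IsHermitian) (hB : B.IsHermitian)
    {R : Matrix ι ι ℂ} (hR : R.IsHermitian) :
    (∑ i, ∑ j, (g (hA.eigenvalues i) + h (hB.eigenvalues j)) *
      Complex.normSq ((star (hA.eigenvectorUnitary : Matrix ι ι ℂ) * R *
        (hB.eigenvectorUnitary : Matrix ι ι ℂ)) i j) : ℝ) =
      (((mf g hA + mf h hB) * (R * R)).trace).re := by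
  set U := (hA.eigenvectorUnitary : Matrix ι ι ℂ) with hU
  set V := (hB.eigenvectorUnitary : Matrix ι ι ℂ) with hV
  set Z := star U * R * V with hZ
  have hRs : star R = R := by rw [star_eq_conjTranspose]; exact hR
  have hZs : star Z = star V * R * U := by
    rw [hZ, star_mul, star_mul, star_star, hRs, mul_assoc]
  have h1 : (mf g hA * (R * R)).trace =
      (diagonal (fun i => ((g (hA.eigenvalues i) : ℝ) : ℂ)) * (Z * star Z)).trace := by
    have e : Z * star Z = star U * (R * R) * U := by
      rw [hZs, hZ]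
      have : star U * R * V * (star V * R * U) = star U * R * (V * star V) * R * U := by
        simp only [mul_assoc]
      rw [this, hV, mul_star_self_U, mul_one]
      simp only [mul_assoc]
    rw [e]
    unfold mf
    rw [← hU]
    have : U * diagonal (fun i => ((g (hA.eigenvalues i) : ℝ) : ℂ)) * star U * (R * R) =
        U * (diagonal (fun i => ((g (hA.eigenvalues i) : ℝ) : ℂ)) * star U * (R * R)) := by
      simp only [mul_assoc]
    rw [this, trace_mul_comm]
    simp only [mul_assoc]
  have h2 : (mf h hB * (R * R)).trace =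
      (Z * diagonal (fun i => ((h (hB.eigenvalues i) : ℝ) : ℂ)) * star Z).trace := by
    rw [hZs, hZ]
    have : star U * R * V * diagonal (fun i => ((h (hB.eigenvalues i) : ℝ) : ℂ)) *
        (star V * R * U) = star U * (R * (V * diagonal (fun i =>
          ((h (hB.eigenvalues i) : ℝ) : ℂ)) * star V) * R * U) := by
      simp only [mul_assoc]
    rw [this, trace_mul_comm (star U), mul_assoc (R * _ * R), hU, mul_star_self_U, mul_one]
    have e5 : V * diagonal (fun i => ((h (hB.eigenvalues i) : ℝ) : ℂ)) * star V = mf h hB := rfl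
    rw [e5, mul_assoc R, trace_mul_comm R, mul_assoc]
  rw [add_mul, trace_add, h1, h2, Complex.add_re]
  have h3 : ((diagonal (fun i => ((g (hA.eigenvalues i) : ℝ) : ℂ)) * (Z * star Z)).trace).re =
      ∑ i, ∑ j, g (hA.eigenvalues i) * Complex.normSq (Z i j) := by
    rw [Matrix.trace, Complex.re_sum]
    apply Finset.sum_congr rfl
    intro i _
    rw [Matrix.diag_apply, Matrix.diagonal_mul, Matrix.mul_apply, Finset.mul_sum, Complex.re_sum]
    apply Finset.sum_congr rfl
    intro j _
    rw [star_apply]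
    simp [Complex.mul_conj]
  have h4 : ((Z * diagonal (fun i => ((h (hB.eigenvalues i) : ℝ) : ℂ)) * star Z).trace).re =
      ∑ i, ∑ j, h (hB.eigenvalues j) * Complex.normSq (Z i j) := by
    rw [Matrix.trace, Complex.re_sum]
    apply Finset.sum_congr rfl
    intro i _
    rw [Matrix.diag_apply, Matrix.mul_apply, Complex.re_sum]
    apply Finset.sum_congr rfl
    intro j _
    rw [Matrix.mul_diagonal, star_apply]
    have : Z i j * ((h (hB.eigenvalues j) : ℝ) : ℂ) * star (Z i j) =
        ((h (hB.eigenvalues j) : ℝ) : ℂ) * (Z i j * star (Z i j)) := by ring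
    rw [this]
    simp [Complex.mul_conj]
  rw [h3, h4, ← Finset.sum_add_distrib]
  apply Finset.sum_congr rfl
  intro i _
  rw [← Finset.sum_add_distrib]
  apply Finset.sum_congr rfl
  intro j _
  ring

lemma sum_cross {A B : Matrix ι ι ℂ} (hA : A.IsHermitian) (hB : B.IsHermitian)
    {R : Matrix ι ι ℂ} (hR : R.IsHermitian) :
    (∑ i, ∑ j, ((star ((star (hA.eigenvectorUnitary : Matrix ι ι ℂ) * R *
        (hB.eigenvectorUnitary : Matrix ι ι ℂ)) i j)) *
        (star (hA.eigenvectorUnitary : Matrix ι ι ℂ) *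
        (hB.eigenvectorUnitary : Matrix ι ι ℂ)) i j).re : ℝ) = (R.trace).re := by
  set U := (hA.eigenvectorUnitary : Matrix ι ι ℂ) with hU
  set V := (hB.eigenvectorUnitary : Matrix ι ι ℂ) with hV
  set Z := star U * R * V with hZ
  set W := star U * V with hW
  have hRs : star R = R := by rw [star_eq_conjTranspose]; exact hR
  have hZs : star Z = star V * R * U := by
    rw [hZ, star_mul, star_mul, star_star, hRs, mul_assoc]
  have h1 : (W * star Z).trace = R.trace := by
    rw [hZs, hW]
    have : star U * V * (star V * R * U) = star U * ((V * star V) * R * U) := by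
      simp only [mul_assoc]
    rw [this, hV, mul_star_self_U, one_mul, trace_mul_comm, mul_assoc, hU, mul_star_self_U,
      mul_one]
  rw [← h1, Matrix.trace, Complex.re_sum]
  apply Finset.sum_congr rfl
  intro i _
  rw [Matrix.diag_apply, Matrix.mul_apply, Complex.re_sum]
  apply Finset.sum_congr rfl
  intro j _
  rw [star_apply, mul_comm]

/-- **Resolvent comparison.** -/
theorem resolvent_le {g h : ℝ → ℝ} {A B : Matrix ι ι ℂ} (hA : A.IsHermitian)
    (hB : B.IsHermitian) (hg : ∀ i, 0 ≤ g (hA.eigenvalues i)) (hh : ∀ j, 0 ≤ h (hB.eigenvalues j))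
    {S : Matrix ι ι ℂ} (hS : S.IsHermitian) (hSe : S = mf g hA + mf h hB) {l : ℝ} (hl : 0 < l) :
    trF (fun t => (l + t)⁻¹) hS ≤
      ∑ i, ∑ j, (l + (g (hA.eigenvalues i) + h (hB.eigenvalues j)))⁻¹ * ov hA hB i j := by
  have hSp : S.PosSemidef := by
    rw [hSe]; exact (mf_posSemidef hA hg).add (mf_posSemidef hB hh)
  have hS0 : ∀ k, 0 ≤ hS.eigenvalues k := fun k => hSp.eigenvalues_nonneg k
  set R := mf (fun t => (l + t)⁻¹) hS with hRdef
  have hR : R.IsHermitian := mf_isHermitian _ hS
  -- `(l + S) R = 1`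
  have hinv : (mf (fun t => l + g t) hA + mf h hB) * (R * R) = R := by
    have e1 : mf (fun t => l + g t) hA + mf h hB = mf (fun t => l + t) hS := by
      have a1 : mf (fun t => l + g t) hA = mf (fun _ => l) hA + mf g hA := mf_add_fun _ _ hA
      have a2 : mf (fun t => l + t) hS = mf (fun _ => l) hS + mf id hS := mf_add_fun _ _ hS
      have a3 : ∀ {C : Matrix ι ι ℂ} (hC : C.IsHermitian), mf (fun _ => l) hC = (l : ℂ) • 1 := by
        intro C hC
        unfold mf
        have : (diagonal (fun _ : ι => ((l : ℝ) : ℂ))) = (l : ℂ) • (1 : Matrix ι ι ℂ) := by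
          ext i j
          by_cases hij : i = j
          · subst hij; simp
          · simp [hij]
        rw [this, mul_smul_comm, mul_one, smul_mul_assoc, mul_star_self_U]
      rw [a1, a2, a3, a3, mf_id, hSe, add_assoc]
    rw [e1, ← mul_assoc, hRdef, mf_mul_mf]
    have e2 : mf (fun t => (l + t) * (l + t)⁻¹) hS = mf (fun _ => 1) hS :=
      mf_congr hS fun i => mul_inv_cancel₀ (by have := hS0 i; positivity)
    rw [e2, mf_one, one_mul]
  have hs := sum_left (fun t => l + g t) h hA hB hR
  rw [hinv] at hs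
  have hc := sum_cross hA hB hR
  have htr : (R.trace).re = trF (fun t => (l + t)⁻¹) hS := by
    rw [hRdef, trace_mf, Complex.ofReal_re]
  rw [← htr]
  have key : (R.trace).re = 2 * (R.trace).re - (R.trace).re := by ring
  rw [key]
  nth_rewrite 2 [← hs]
  rw [← hc, Finset.mul_sum, ← Finset.sum_sub_distrib]
  apply Finset.sum_le_sum
  intro i _
  rw [Finset.mul_sum, ← Finset.sum_sub_distrib]
  apply Finset.sum_le_sum
  intro j _
  unfold ov
  set z := (star (hA.eigenvectorUnitary : Matrix ι ι ℂ) * R *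
        (hB.eigenvectorUnitary : Matrix ι ι ℂ)) i j
  set w := (star (hA.eigenvectorUnitary : Matrix ι ι ℂ) *
        (hB.eigenvectorUnitary : Matrix ι ι ℂ)) i j
  have hm : 0 < l + (g (hA.eigenvalues i) + h (hB.eigenvalues j)) := by
    have := hg i; have := hh j; positivity
  have e3 : l + g (hA.eigenvalues i) + h (hB.eigenvalues j) =
      l + (g (hA.eigenvalues i) + h (hB.eigenvalues j)) := by ring
  rw [e3]
  set m := l + (g (hA.eigenvalues i) + h (hB.eigenvalues j))
  have hsq : 0 ≤ m⁻¹ * Complex.normSq (w - (m : ℂ) * z) :=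
    mul_nonneg (inv_nonneg.2 hm.le) (Complex.normSq_nonneg _)
  have hexp : m⁻¹ * Complex.normSq (w - (m : ℂ) * z) =
      m⁻¹ * Complex.normSq w - 2 * (star z * w).re + m * Complex.normSq z := by
    rw [Complex.normSq_sub, Complex.normSq_mul, Complex.normSq_ofReal]
    have e4 : (w * (starRingEnd ℂ) ((m : ℂ) * z)).re = m * (star z * w).re := by
      rw [map_mul, Complex.conj_ofReal]
      have : w * ((m : ℂ) * (starRingEnd ℂ) z) = (m : ℂ) * (star z * w) := by
        rw [Complex.star_def]; ring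
      rw [this, Complex.re_ofReal_mul]
    rw [e4]
    field_simp
    ring
  linarith

/-- **Comparison of the traces of powers.** -/
theorem trF_rpow_add_le {q : ℝ} (hq : q ∈ Set.Ioo (1 : ℝ) 2) {g h : ℝ → ℝ}
    {A B : Matrix ι ι ℂ} (hA : A.IsHermitian) (hB : B.IsHermitian)
    (hg : ∀ i, 0 ≤ g (hA.eigenvalues i)) (hh : ∀ j, 0 ≤ h (hB.eigenvalues j))
    {S : Matrix ι ι ℂ} (hS : S.IsHermitian) (hSe : S = mf g hA + mf h hB) :
    trF (fun t => t ^ q) hS ≤
      ∑ i, ∑ j, (g (hA.eigenvalues i) + h (hB.eigenvalues j)) ^ q * ov hA hB i j := by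
  have hSp : S.PosSemidef := by
    rw [hSe]; exact (mf_posSemidef hA hg).add (mf_posSemidef hB hh)
  have hS0 : ∀ k, 0 ≤ hS.eigenvalues k := fun k => hSp.eigenvalues_nonneg k
  have hgh : ∀ i j, 0 ≤ g (hA.eigenvalues i) + h (hB.eigenvalues j) :=
    fun i j => add_nonneg (hg i) (hh j)
  set I := Real.rpowIntegrand₁₂ q with hI
  set c := (∫ t in Set.Ioi (0 : ℝ), Real.rpowIntegrand₀₁ (q - 1) t 1)⁻¹ with hc
  have hrep : ∀ x : ℝ, 0 ≤ x → x ^ q = c * ∫ t in Set.Ioi (0 : ℝ), I t x :=
    fun x hx => Real.rpow_eq_const_mul_integral_rpowIntegrand₁₂ hq hx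
  have hint : ∀ x : ℝ, 0 ≤ x → MeasureTheory.IntegrableOn (fun t => I t x) (Set.Ioi 0) :=
    fun x hx => Real.integrableOn_rpowIntegrand₁₂ hq hx
  have hc0 : 0 ≤ c := by
    rw [hc]
    apply inv_nonneg.2
    apply MeasureTheory.setIntegral_nonneg measurableSet_Ioi
    intro t ht
    exact Real.rpowIntegrand₀₁_nonneg (by linarith [hq.1]) (le_of_lt ht) zero_le_one
  have hL : trF (fun t => t ^ q) hS = c * ∫ t in Set.Ioi (0 : ℝ), ∑ k, I t (hS.eigenvalues k) := by
    rw [MeasureTheory.integral_finsetSum _ (fun k _ => hint _ (hS0 k)), Finset.mul_sum]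
    exact Finset.sum_congr rfl fun k _ => hrep _ (hS0 k)
  have hRr : ∑ i, ∑ j, (g (hA.eigenvalues i) + h (hB.eigenvalues j)) ^ q * ov hA hB i j =
      c * ∫ t in Set.Ioi (0 : ℝ), ∑ i, ∑ j,
        I t (g (hA.eigenvalues i) + h (hB.eigenvalues j)) * ov hA hB i j := by
    rw [MeasureTheory.integral_finsetSum _ (fun i _ => MeasureTheory.integrable_finsetSum _
      (fun j _ => (hint _ (hgh i j)).mul_const _)), Finset.mul_sum]
    apply Finset.sum_congr rfl
    intro i _
    rw [MeasureTheory.integral_finsetSum _ (fun j _ => (hint _ (hgh i j)).mul_const _),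
      Finset.mul_sum]
    apply Finset.sum_congr rfl
    intro j _
    rw [MeasureTheory.integral_mul_const, hrep _ (hgh i j)]
    ring
  rw [hL, hRr]
  apply mul_le_mul_of_nonneg_left _ hc0
  apply MeasureTheory.setIntegral_mono_on
  · exact MeasureTheory.integrable_finsetSum _ fun k _ => hint _ (hS0 k)
  · exact MeasureTheory.integrable_finsetSum _ fun i _ =>
      MeasureTheory.integrable_finsetSum _ fun j _ => (hint _ (hgh i j)).mul_const _
  · exact measurableSet_Ioi
  · intro t ht
    have ht0 : 0 < t := ht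
    -- trace identities
    have htr : ∑ k, hS.eigenvalues k =
        ∑ i, ∑ j, (g (hA.eigenvalues i) + h (hB.eigenvalues j)) * ov hA hB i j := by
      have h1 : ((trF id hS : ℝ) : ℂ) = ((trF g hA + trF h hB : ℝ) : ℂ) := by
        rw [← trace_mf, mf_id, hSe, trace_add, trace_mf, trace_mf]
        push_cast
        rfl
      have h2 : trF id hS = trF g hA + trF h hB := by exact_mod_cast h1
      have h3 : ∑ k, hS.eigenvalues k = trF id hS := rfl
      rw [h3, h2, ← sum_ov_left g hA hB, ← sum_ov_right h hA hB, ← Finset.sum_add_distrib]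
      apply Finset.sum_congr rfl
      intro i _
      rw [← Finset.sum_add_distrib]
      apply Finset.sum_congr rfl
      intro j _
      ring
    have hcard : ∑ _k : ι, (1 : ℝ) = ∑ i, ∑ j, ov hA hB i j := by
      apply Finset.sum_congr rfl
      intro i _
      rw [ov_row]
    have hres := resolvent_le hA hB hg hh hS hSe ht0
    unfold trF at hres
    have e1 : ∑ k, I t (hS.eigenvalues k) = t ^ (q - 1) * (t⁻¹ * ∑ k, hS.eigenvalues k +
        t * ∑ k, (t + hS.eigenvalues k)⁻¹ - ∑ _k : ι, (1 : ℝ)) := by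
      rw [hI]
      unfold Real.rpowIntegrand₁₂
      rw [← Finset.mul_sum, Finset.sum_sub_distrib, Finset.sum_add_distrib, Finset.mul_sum,
        Finset.mul_sum]
    have e2 : ∑ i, ∑ j, I t (g (hA.eigenvalues i) + h (hB.eigenvalues j)) * ov hA hB i j =
        t ^ (q - 1) * (t⁻¹ * ∑ i, ∑ j, (g (hA.eigenvalues i) + h (hB.eigenvalues j)) *
          ov hA hB i j + t * ∑ i, ∑ j, (t + (g (hA.eigenvalues i) + h (hB.eigenvalues j)))⁻¹ *
          ov hA hB i j - ∑ i, ∑ j, ov hA hB i j) := by
      rw [hI]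
      unfold Real.rpowIntegrand₁₂
      simp only [Finset.mul_sum, ← Finset.sum_add_distrib, ← Finset.sum_sub_distrib]
      apply Finset.sum_congr rfl
      intro i _
      apply Finset.sum_congr rfl
      intro j _
      ring
    rw [e1, e2, htr, hcard]
    apply mul_le_mul_of_nonneg_left _ (by positivity)
    have := mul_le_mul_of_nonneg_left hres ht0.le
    linarith

end Pool.Agent.Hlawka
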