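import Mathlib
import Pool.Agent.Hlawka.LimDefs
import Pool.Agent.Hlawka.Resolv
import Pool.Agent.Hlawka.Mid

/-!
# Uniform convexity of the dual norm: `E(T,N) + E(T',N) ≥ c_q δ²(T,T')`
-/

namespace Pool.Agent.Hlawka

open Matrix Finset Unitary
open scoped ComplexOrder

variable {ι : Type*} [Fintype ι] [DecidableEq ι]

/-- positive part of `t` (`b = true`) or of `-t` (`b = false`) -/
noncomputable def ps (b : Bool) (t : ℝ) : ℝ := max (if b then t else -t) 0

lemma ps_nonneg (b : Bool) (t : ℝ) : 0 ≤ ps b t := le_max_right _ _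

lemma amp_eq (p : ℝ) (b : Bool) (t : ℝ) : amp p b t = ps b t ^ (p / 2) := rfl

lemma amp_nonneg (p : ℝ) (b : Bool) (t : ℝ) : 0 ≤ amp p b t :=
  Real.rpow_nonneg (ps_nonneg b t) _

lemma amp_sq (p : ℝ) (b : Bool) (t : ℝ) : amp p b t ^ 2 = ps b t ^ p := sq_half (ps_nonneg b t)

lemma amp_sq_add {p : ℝ} (hp : 0 < p) (t : ℝ) :
    amp p true t ^ 2 + amp p false t ^ 2 = |t| ^ p := by
  rw [amp_sq, amp_sq]
  unfold ps
  simp only [if_true, Bool.false_eq_true, if_false]
  rcases le_total 0 t with h | h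
  · rw [max_eq_left h, max_eq_right (by linarith : -t ≤ 0), Real.zero_rpow hp.ne', abs_of_nonneg h,
      add_zero]
  · rw [max_eq_right h, max_eq_left (by linarith : 0 ≤ -t), Real.zero_rpow hp.ne',
      abs_of_nonpos h, zero_add]

lemma sub_ps (t : ℝ) : t = ps true t - ps false t := by
  unfold ps
  simp only [if_true, Bool.false_eq_true, if_false]
  rcases le_total 0 t with h | h
  · rw [max_eq_left h, max_eq_right (by linarith : -t ≤ 0)]; ring
  · rw [max_eq_right h, max_eq_left (by linarith : 0 ≤ -t)]; ring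

lemma dF_div_ps {p : ℝ} (hp : 1 < p) (t : ℝ) :
    dF p t / p = ps true t ^ (p - 1) - ps false t ^ (p - 1) := by
  have hp0 : p ≠ 0 := by linarith
  have h1 : p - 1 ≠ 0 := by intro h; linarith
  unfold ps
  simp only [if_true, Bool.false_eq_true, if_false]
  rcases lt_or_ge t 0 with h | h
  · rw [dF_of_neg h, max_eq_right h.le, max_eq_left (by linarith : 0 ≤ -t), Real.zero_rpow h1]
    field_simp
    ring
  · rw [dF_of_nonneg h, max_eq_left h, max_eq_right (by linarith : -t ≤ 0), Real.zero_rpow h1]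
    field_simp
    ring

/-- sum over the overlaps of a function of the amplitudes of both signs -/
lemma sum_amp_left {p : ℝ} (hp : 0 < p) {A B : Matrix ι ι ℂ} (hA : A.IsHermitian)
    (hB : B.IsHermitian) :
    ∑ b : Bool, ∑ i, ∑ j, ov hA hB i j * amp p b (hA.eigenvalues i) ^ 2 = Fp p A := by
  rw [Fintype.sum_bool, ← Finset.sum_add_distrib, Fp_eq p hA,
    ← sum_ov_left (fun t => |t| ^ p) hA hB]
  apply Finset.sum_congr rfl
  intro i _
  rw [← Finset.sum_add_distrib]
  apply Finset.sum_congr rfl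
  intro j _
  rw [← amp_sq_add hp]
  ring

lemma sum_amp_right {p : ℝ} (hp : 0 < p) {A B : Matrix ι ι ℂ} (hA : A.IsHermitian)
    (hB : B.IsHermitian) :
    ∑ b : Bool, ∑ i, ∑ j, ov hA hB i j * amp p b (hB.eigenvalues j) ^ 2 = Fp p B := by
  rw [← sum_amp_left hp hB hA]
  apply Finset.sum_congr rfl
  intro b _
  rw [Finset.sum_comm]
  apply Finset.sum_congr rfl
  intro i _
  apply Finset.sum_congr rfl
  intro j _
  rw [ov_symm]

/-- the functional at `T` is at most the sum of the parts of equal sign -/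
lemma lin_le_parts {p : ℝ} (hp : 1 < p) {T N : Matrix ι ι ℂ} (hT : T.IsHermitian)
    (hN : N.IsHermitian) :
    lin (dF p) hT N / p ≤ ∑ b : Bool,
      ((mf (fun t => ps b t ^ (p - 1)) hT * mf (ps b) hN).trace).re := by
  have h2 : lin (dF p) hT N / p = ∑ i, ∑ j, ((ps true (hT.eigenvalues i) ^ (p - 1) -
      ps false (hT.eigenvalues i) ^ (p - 1)) * (ps true (hN.eigenvalues j) -
      ps false (hN.eigenvalues j))) * ov hT hN i j := by
    rw [lin_eq (dF p) hN hT, Finset.sum_comm, Finset.sum_div]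
    apply Finset.sum_congr rfl
    intro i _
    rw [Finset.sum_div]
    apply Finset.sum_congr rfl
    intro j _
    rw [← dF_div_ps hp, ov_symm hN hT, ← sub_ps]
    ring
  rw [h2, Fintype.sum_bool, trace_mf_mul_mf, trace_mf_mul_mf, Complex.ofReal_re, Complex.ofReal_re,
    ← Finset.sum_add_distrib]
  apply Finset.sum_le_sum
  intro i _
  rw [← Finset.sum_add_distrib]
  apply Finset.sum_le_sum
  intro j _
  rw [← add_mul]
  apply mul_le_mul_of_nonneg_right _ (ov_nonneg _ _ _ _)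
  have a1 := ps_nonneg true (hN.eigenvalues j)
  have a2 := ps_nonneg false (hN.eigenvalues j)
  have a3 : 0 ≤ ps true (hT.eigenvalues i) ^ (p - 1) := Real.rpow_nonneg (ps_nonneg _ _) _
  have a4 : 0 ≤ ps false (hT.eigenvalues i) ^ (p - 1) := Real.rpow_nonneg (ps_nonneg _ _) _
  have a5 := mul_nonneg a3 a2
  have a6 := mul_nonneg a4 a1
  nlinarith

/-- Young's inequality for one sign -/
lemma part_le {p q : ℝ} (hpq : p.HolderConjugate q) (hq : q ∈ Set.Ioo (1 : ℝ) 2) (b : Bool)
    {T T' N : Matrix ι ι ℂ} (hT : T.IsHermitian) (hT' : T'.IsHermitian) (hN : N.IsHermitian) :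
    ((mf (fun t => ps b t ^ (p - 1)) hT * mf (ps b) hN).trace).re +
      ((mf (fun t => ps b t ^ (p - 1)) hT' * mf (ps b) hN).trace).re ≤
      (2 : ℝ) ^ (1 - q) / q * ∑ i, ∑ j, ov hT hT' i j * (amp p b (hT.eigenvalues i) ^ 2 +
        amp p b (hT'.eigenvalues j) ^ 2 + (2 ^ q - 2) *
        (amp p b (hT.eigenvalues i) * amp p b (hT'.eigenvalues j))) +
      2 / p * ∑ j, ps b (hN.eigenvalues j) ^ p := by
  have hq1 : 1 < q := hq.1
  have hq0 : 0 < q := by linarith
  have hp1 : 1 < p := hpq.lt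
  have hp0 : 0 < p := by linarith
  set g : ℝ → ℝ := fun t => ps b t ^ (p - 1) with hg
  have hg0 : ∀ t, 0 ≤ g t := fun t => Real.rpow_nonneg (ps_nonneg _ _) _
  set S := mf g hT + mf g hT' with hS
  have hSH : S.IsHermitian := (mf_isHermitian _ hT).add (mf_isHermitian _ hT')
  have hSp : S.PosSemidef :=
    (mf_posSemidef hT fun i => hg0 _).add (mf_posSemidef hT' fun j => hg0 _)
  have hS0 : ∀ k, 0 ≤ hSH.eigenvalues k := fun k => hSp.eigenvalues_nonneg k
  rw [← Complex.add_re, ← trace_add, ← add_mul, ← hS]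
  conv_lhs => rw [← mf_id hSH]
  rw [trace_mf_mul_mf, Complex.ofReal_re]
  -- Young on the overlaps
  have hY : ∑ i, ∑ j, id (hSH.eigenvalues i) * ps b (hN.eigenvalues j) * ov hSH hN i j ≤
      ∑ i, ∑ j, ((2 : ℝ) ^ (1 - q) / q * hSH.eigenvalues i ^ q * ov hSH hN i j +
        2 / p * ps b (hN.eigenvalues j) ^ p * ov hSH hN i j) := by
    apply Finset.sum_le_sum
    intro i _
    apply Finset.sum_le_sum
    intro j _
    rw [← add_mul]
    apply mul_le_mul_of_nonneg_right _ (ov_nonneg _ _ _ _)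
    have hy := Real.young_inequality_of_nonneg (ps_nonneg b (hN.eigenvalues j))
      (div_nonneg (hS0 i) (by norm_num : (0 : ℝ) ≤ 2)) hpq
    rw [Real.div_rpow (hS0 i) (by norm_num)] at hy
    have e : (2 : ℝ) ^ (1 - q) = 2 / 2 ^ q := by
      rw [Real.rpow_sub (by norm_num), Real.rpow_one]
    rw [e, id]
    have e2 : 2 / (2 : ℝ) ^ q / q * hSH.eigenvalues i ^ q + 2 / p * ps b (hN.eigenvalues j) ^ p =
        2 * (ps b (hN.eigenvalues j) ^ p / p + hSH.eigenvalues i ^ q / 2 ^ q / q) := by ring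
    rw [e2]
    nlinarith
  have hsum : ∑ i, ∑ j, ((2 : ℝ) ^ (1 - q) / q * hSH.eigenvalues i ^ q * ov hSH hN i j +
        2 / p * ps b (hN.eigenvalues j) ^ p * ov hSH hN i j) =
      (2 : ℝ) ^ (1 - q) / q * trF (fun t => t ^ q) hSH +
        2 / p * ∑ j, ps b (hN.eigenvalues j) ^ p := by
    have h1 := sum_ov_left (fun t => t ^ q) hSH hN
    have h2 := sum_ov_right (fun t => ps b t ^ p) hSH hN
    simp only [Finset.sum_add_distrib]
    rw [← h1]
    have h3 : ∑ j, ps b (hN.eigenvalues j) ^ p = trF (fun t => ps b t ^ p) hN := rfl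
    rw [h3, ← h2]
    simp only [Finset.mul_sum]
    congr 1
    · apply Finset.sum_congr rfl
      intro i _
      apply Finset.sum_congr rfl
      intro j _
      ring
    · apply Finset.sum_congr rfl
      intro i _
      apply Finset.sum_congr rfl
      intro j _
      ring
  refine hY.trans ?_
  rw [hsum]
  apply add_le_add_left
  apply mul_le_mul_of_nonneg_left _ (by positivity)
  refine (trF_rpow_add_le hq hT hT' (fun i => hg0 _) (fun j => hg0 _) hSH hS).trans ?_
  apply Finset.sum_le_sum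
  intro i _
  apply Finset.sum_le_sum
  intro j _
  rw [mul_comm]
  apply mul_le_mul_of_nonneg_left _ (ov_nonneg _ _ _ _)
  have hm := add_rpow_le_mid hq.1 hq.2 (hg0 (hT.eigenvalues i)) (hg0 (hT'.eigenvalues j))
  have hpq2 : (p - 1) * q = p := hpq.sub_one_mul_conj
  have e1 : ∀ t, g t ^ q = amp p b t ^ 2 := by
    intro t
    rw [hg, amp_sq]
    simp only
    rw [← Real.rpow_mul (ps_nonneg _ _), hpq2]
  have e2 : ∀ t t', (g t * g t') ^ (q / 2) = amp p b t * amp p b t' := by
    intro t t'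
    rw [hg, amp_eq, amp_eq]
    simp only
    rw [← Real.mul_rpow (ps_nonneg _ _) (ps_nonneg _ _),
      ← Real.mul_rpow (ps_nonneg _ _) (ps_nonneg _ _),
      ← Real.rpow_mul (mul_nonneg (ps_nonneg _ _) (ps_nonneg _ _))]
    congr 1
    linear_combination (1 / 2) * hpq2
  rw [e1, e1, e2] at hm
  exact hm

/-- **Uniform convexity.** -/
theorem En_add_ge {p : ℝ} (hp : 2 < p) {T T' N : Matrix ι ι ℂ} (hT : T.IsHermitian)
    (hT' : T'.IsHermitian) (hN : N.IsHermitian) (hT1 : Fp p T = 1) (hT1' : Fp p T' = 1)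
    (hN1 : Fp p N = 1) :
    (1 - (2 : ℝ) ^ (1 - p / (p - 1))) / (p / (p - 1)) * dsq p hT hT' ≤
      En p hT N + En p hT' N := by
  have hp1 : 1 < p := by linarith
  have hp0 : 0 < p := by linarith
  set q := p / (p - 1) with hqdef
  have hpq : p.HolderConjugate q := Real.HolderConjugate.conjExponent hp1
  have hq1 : 1 < q := hpq.symm.lt
  have hq2 : q < 2 := by
    rw [hqdef, div_lt_iff₀ (by linarith)]; linarith
  have hq0 : 0 < q := by linarith
  have hb := fun b => part_le hpq ⟨hq1, hq2⟩ b hT hT' hN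
  have h1 := lin_le_parts hp1 hT hN
  have h2 := lin_le_parts hp1 hT' hN
  have h3 : lin (dF p) hT N / p + lin (dF p) hT' N / p ≤
      ∑ b : Bool, ((2 : ℝ) ^ (1 - q) / q * ∑ i, ∑ j, ov hT hT' i j *
        (amp p b (hT.eigenvalues i) ^ 2 + amp p b (hT'.eigenvalues j) ^ 2 + (2 ^ q - 2) *
        (amp p b (hT.eigenvalues i) * amp p b (hT'.eigenvalues j))) +
      2 / p * ∑ j, ps b (hN.eigenvalues j) ^ p) := by
    calc lin (dF p) hT N / p + lin (dF p) hT' N / p ≤ _ := add_le_add h1 h2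
      _ = ∑ b : Bool, (((mf (fun t => ps b t ^ (p - 1)) hT * mf (ps b) hN).trace).re +
          ((mf (fun t => ps b t ^ (p - 1)) hT' * mf (ps b) hN).trace).re) := by
            rw [Finset.sum_add_distrib]
      _ ≤ _ := Finset.sum_le_sum fun b _ => hb b
  -- the sums
  set X := ∑ b : Bool, ∑ i, ∑ j, ov hT hT' i j *
    (amp p b (hT.eigenvalues i) * amp p b (hT'.eigenvalues j)) with hX
  have hL := sum_amp_left hp0 hT hT'
  have hR := sum_amp_right hp0 hT hT'
  rw [hT1] at hL
  rw [hT1'] at hR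
  have hd : dsq p hT hT' = 2 - 2 * X := by
    have : dsq p hT hT' = (∑ b : Bool, ∑ i, ∑ j, ov hT hT' i j *
        amp p b (hT.eigenvalues i) ^ 2) + (∑ b : Bool, ∑ i, ∑ j, ov hT hT' i j *
        amp p b (hT'.eigenvalues j) ^ 2) - 2 * X := by
      unfold dsq
      rw [hX]
      simp only [Finset.mul_sum, ← Finset.sum_add_distrib, ← Finset.sum_sub_distrib]
      apply Finset.sum_congr rfl
      intro b _
      apply Finset.sum_congr rfl
      intro i _
      apply Finset.sum_congr rfl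
      intro j _
      ring
    rw [this, hL, hR]
    ring
  have hN2 : ∑ b : Bool, ∑ j, ps b (hN.eigenvalues j) ^ p = 1 := by
    rw [← hN1, Fp_eq p hN, Fintype.sum_bool, ← Finset.sum_add_distrib]
    unfold trF
    apply Finset.sum_congr rfl
    intro j _
    rw [← amp_sq, ← amp_sq, amp_sq_add hp0]
  have hS : ∑ b : Bool, ((2 : ℝ) ^ (1 - q) / q * ∑ i, ∑ j, ov hT hT' i j *
        (amp p b (hT.eigenvalues i) ^ 2 + amp p b (hT'.eigenvalues j) ^ 2 + (2 ^ q - 2) *
        (amp p b (hT.eigenvalues i) * amp p b (hT'.eigenvalues j))) +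
      2 / p * ∑ j, ps b (hN.eigenvalues j) ^ p) =
      (2 : ℝ) ^ (1 - q) / q * (2 + (2 ^ q - 2) * X) + 2 / p := by
    rw [Finset.sum_add_distrib, ← Finset.mul_sum, ← Finset.mul_sum, hN2, mul_one]
    congr 2
    have : (2 : ℝ) + (2 ^ q - 2) * X = (∑ b : Bool, ∑ i, ∑ j, ov hT hT' i j *
        amp p b (hT.eigenvalues i) ^ 2) + (∑ b : Bool, ∑ i, ∑ j, ov hT hT' i j *
        amp p b (hT'.eigenvalues j) ^ 2) + (2 ^ q - 2) * X := by
      rw [hL, hR]; ring
    rw [this, hX]
    simp only [Finset.mul_sum, ← Finset.sum_add_distrib]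
    apply Finset.sum_congr rfl
    intro b _
    apply Finset.sum_congr rfl
    intro i _
    apply Finset.sum_congr rfl
    intro j _
    ring
  rw [hS] at h3
  have hXe : X = 1 - dsq p hT hT' / 2 := by rw [hd]; ring
  rw [hXe] at h3
  have h2q : (2 : ℝ) ^ (1 - q) * 2 ^ q = 2 := by
    rw [← Real.rpow_add (by norm_num), sub_add_cancel, Real.rpow_one]
  have hinv : 1 / p + 1 / q = 1 := by
    have := hpq.inv_add_inv_eq_one
    simpa [one_div] using this
  have hfin : (2 : ℝ) ^ (1 - q) / q * (2 + (2 ^ q - 2) * (1 - dsq p hT hT' / 2)) + 2 / p =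
      2 - (1 - (2 : ℝ) ^ (1 - q)) / q * dsq p hT hT' := by
    have e1 : (2 : ℝ) ^ (1 - q) / q * (2 + (2 ^ q - 2) * (1 - dsq p hT hT' / 2)) + 2 / p =
        ((2 : ℝ) ^ (1 - q) * 2 ^ q) / q * (1 - dsq p hT hT' / 2) +
        (2 : ℝ) ^ (1 - q) / q * dsq p hT hT' + 2 / p := by ring
    rw [e1, h2q]
    linear_combination 2 * hinv
  rw [hfin] at h3
  unfold En
  linarith

end Pool.Agent.Hlawka
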