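import Mathlib
import Pool.Agent.Hlawka.LimComp
import Pool.Agent.Hlawka.LimRes

/-!
# The comparison of `E(T,A)` and `E(T',A)`
-/

namespace Pool.Agent.Hlawka

open Matrix Finset

section basic

variable {ι : Type*} [Fintype ι] [DecidableEq ι]

/-- the matrix `U_A^* U_T` -/
noncomputable def Wm {A T : Matrix ι ι ℂ} (hA : A.IsHermitian) (hT : T.IsHermitian) :
    Matrix ι ι ℂ :=
  star (hA.eigenvectorUnitary : Matrix ι ι ℂ) * (hT.eigenvectorUnitary : Matrix ι ι ℂ)

lemma normSq_Wm {A T : Matrix ι ι ℂ} (hA : A.IsHermitian) (hT : T.IsHermitian) (j i : ι) :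
    Complex.normSq (Wm hA hT j i) = ov hT hA i j := by
  rw [ov_symm hT hA i j]
  rfl

lemma star_Wm_mul {A T : Matrix ι ι ℂ} (hA : A.IsHermitian) (hT : T.IsHermitian) :
    star (Wm hA hT) * Wm hA hT = 1 := by
  unfold Wm
  rw [star_mul, star_star, mul_assoc, ← mul_assoc (hA.eigenvectorUnitary : Matrix ι ι ℂ),
    mul_star_self_U, one_mul, star_mul_self_U]

lemma Wm_mul {A T T' : Matrix ι ι ℂ} (hA : A.IsHermitian) (hT : T.IsHermitian)
    (hT' : T'.IsHermitian) : Wm hA hT' * Wm hT' hT = Wm hA hT := by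
  unfold Wm
  rw [mul_assoc, ← mul_assoc (hT'.eigenvectorUnitary : Matrix ι ι ℂ), mul_star_self_U, one_mul]

/-- amplitudes of the eigenvalues -/
noncomputable def am (p : ℝ) (b : Bool) {A : Matrix ι ι ℂ} (hA : A.IsHermitian) (i : ι) : ℝ :=
  amp p b (hA.eigenvalues i)

lemma am_nonneg (p : ℝ) (b : Bool) {A : Matrix ι ι ℂ} (hA : A.IsHermitian) (i : ι) :
    0 ≤ am p b hA i := amp_nonneg p b _

/-- `F(T,A)`: both signs -/
noncomputable def Fs (s p : ℝ) {T A : Matrix ι ι ℂ} (hT : T.IsHermitian) (hA : A.IsHermitian) : ℝ :=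
  ∑ b : Bool, fv s (Wm hA hT) (am p b hT) (am p b hA)

/-- `P(T|T')`: both signs -/
noncomputable def Ps (ν p : ℝ) {T A : Matrix ι ι ℂ} (hT : T.IsHermitian) (hA : A.IsHermitian) : ℝ :=
  ∑ b : Bool, pv ν (Wm hA hT) (am p b hT) (am p b hA)

lemma dsq_eq (p : ℝ) {T A : Matrix ι ι ℂ} (hT : T.IsHermitian) (hA : A.IsHermitian) :
    dsq p hT hA = ∑ b : Bool, dv (Wm hA hT) (am p b hT) (am p b hA) := by
  unfold dsq dv
  refine Finset.sum_congr rfl fun b _ => ?_
  rw [Finset.sum_comm]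
  refine Finset.sum_congr rfl fun j _ => Finset.sum_congr rfl fun i _ => ?_
  rw [normSq_Wm]
  rfl

lemma dsq_comm (p : ℝ) {T A : Matrix ι ι ℂ} (hT : T.IsHermitian) (hA : A.IsHermitian) :
    dsq p hT hA = dsq p hA hT := by
  unfold dsq
  refine Finset.sum_congr rfl fun b _ => ?_
  rw [Finset.sum_comm]
  refine Finset.sum_congr rfl fun j _ => Finset.sum_congr rfl fun i _ => ?_
  rw [ov_symm hT hA]
  ring

lemma dsq_nonneg (p : ℝ) {T A : Matrix ι ι ℂ} (hT : T.IsHermitian) (hA : A.IsHermitian) :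
    0 ≤ dsq p hT hA := by
  rw [dsq_eq]
  exact Finset.sum_nonneg fun b _ => dv_nonneg _ _ _

lemma dsq_triangle (p : ℝ) {T T' A : Matrix ι ι ℂ} (hT : T.IsHermitian) (hT' : T'.IsHermitian)
    (hA : A.IsHermitian) : dsq p hT hA ≤ 2 * (dsq p hT hT' + dsq p hT' hA) := by
  rw [dsq_eq, dsq_eq, dsq_eq, ← Finset.sum_add_distrib, Finset.mul_sum]
  refine Finset.sum_le_sum fun b _ => ?_
  rw [← Wm_mul hA hT hT']
  exact dv_mul_le (star_Wm_mul hT' hT) (star_Wm_mul hA hT') _ _ _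

lemma Ps_le_dsq {ν : ℝ} (hν : 0 < ν) (p : ℝ) {T A : Matrix ι ι ℂ} (hT : T.IsHermitian)
    (hA : A.IsHermitian) : Ps ν p hT hA ≤ dsq p hT hA := by
  rw [dsq_eq]
  exact Finset.sum_le_sum fun b _ => pv_le_dv hν _ _ _

/-- the two one-sided quantities add up to at most `δ²` -/
lemma Ps_add_le {ν : ℝ} (hν : 0 < ν) (hν1 : ν ≤ 1) (p : ℝ) {T A : Matrix ι ι ℂ}
    (hT : T.IsHermitian) (hA : A.IsHermitian) :
    Ps ν p hT hA + Ps ν p hA hT ≤ dsq p hT hA := by
  rw [dsq_eq]
  unfold Ps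
  rw [← Finset.sum_add_distrib]
  refine Finset.sum_le_sum fun b _ => ?_
  unfold pv dv
  have e : (∑ j, ∑ i, Complex.normSq (Wm hT hA j i) * ((am p b hA i - am p b hT j) ^ 2 *
      (ν * am p b hA i ^ 2 / (ν * am p b hA i ^ 2 + am p b hT j ^ 2)))) =
      ∑ j, ∑ i, Complex.normSq (Wm hA hT j i) * ((am p b hT i - am p b hA j) ^ 2 *
      (ν * am p b hA j ^ 2 / (ν * am p b hA j ^ 2 + am p b hT i ^ 2))) := by
    rw [Finset.sum_comm]
    refine Finset.sum_congr rfl fun j _ => Finset.sum_congr rfl fun i _ => ?_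
    rw [normSq_Wm, normSq_Wm, ov_symm hA hT]
    ring
  rw [e, ← Finset.sum_add_distrib]
  refine Finset.sum_le_sum fun j _ => ?_
  rw [← Finset.sum_add_distrib]
  refine Finset.sum_le_sum fun i _ => ?_
  have h := psum_le hν hν1 (am_nonneg p b hT i) (am_nonneg p b hA j)
  have h0 : 0 ≤ Complex.normSq (Wm hA hT j i) * (am p b hT i - am p b hA j) ^ 2 :=
    mul_nonneg (Complex.normSq_nonneg _) (sq_nonneg _)
  have := mul_le_mul_of_nonneg_left h h0
  rw [mul_one] at this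
  linarith

/-- expansion of `E(T,A)` -/
lemma En_eq {p : ℝ} (hp : 2 < p) {T A : Matrix ι ι ℂ} (hT : T.IsHermitian) (hA : A.IsHermitian)
    (hT1 : Fp p T = 1) (hA1 : Fp p A = 1) :
    En p hT A = Fs (1 / p) p hT hA + ∑ b : Bool, ∑ j, ∑ i, Complex.normSq (Wm hA hT j i) *
      (am p b hT i ^ (2 - 2 * (1 / p)) * am p (!b) hA j ^ (2 * (1 / p))) := by
  have hp0 : 0 < p := by linarith
  have hp1 : 1 < p := by linarith
  have hL := sum_amp_left hp0 hT hA
  have hR := sum_amp_right hp0 hT hA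
  rw [hT1] at hL
  rw [hA1] at hR
  have ex : ∀ b : Bool, ∀ t : ℝ, amp p b t ^ (2 - 2 * (1 / p)) = ps b t ^ (p - 1) := by
    intro b t
    rw [amp_eq, ← Real.rpow_mul (ps_nonneg _ _)]
    congr 1
    field_simp
  have ez : ∀ b : Bool, ∀ t : ℝ, amp p b t ^ (2 * (1 / p)) = ps b t := by
    intro b t
    rw [amp_eq, ← Real.rpow_mul (ps_nonneg _ _)]
    have : p / 2 * (2 * (1 / p)) = 1 := by field_simp
    rw [this, Real.rpow_one]
  have h2 : lin (dF p) hT A / p = ∑ i, ∑ j, ((ps true (hT.eigenvalues i) ^ (p - 1) -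
      ps false (hT.eigenvalues i) ^ (p - 1)) * (ps true (hA.eigenvalues j) -
      ps false (hA.eigenvalues j))) * ov hT hA i j := by
    rw [lin_eq (dF p) hA hT, Finset.sum_comm, Finset.sum_div]
    apply Finset.sum_congr rfl
    intro i _
    rw [Finset.sum_div]
    apply Finset.sum_congr rfl
    intro j _
    rw [← dF_div_ps hp1, ov_symm hA hT, ← sub_ps]
    ring
  have h1 : (1 : ℝ) = (1 - 1 / p) * (∑ b : Bool, ∑ i, ∑ j, ov hT hA i j *
        amp p b (hT.eigenvalues i) ^ 2) + 1 / p * ∑ b : Bool, ∑ i, ∑ j, ov hT hA i j *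
        amp p b (hA.eigenvalues j) ^ 2 := by
    rw [hL, hR]; ring
  unfold En
  rw [h2]
  conv_lhs => enter [1]; rw [h1]
  unfold Fs fv ysF am
  simp only [Fintype.sum_bool, Bool.not_true, Bool.not_false, ex, ez, normSq_Wm]
  rw [Finset.sum_comm (f := fun j i => ov hT hA i j * ((1 - 1 / p) *
      amp p true (hT.eigenvalues i) ^ 2 + 1 / p * amp p true (hA.eigenvalues j) ^ 2 -
      ps true (hT.eigenvalues i) ^ (p - 1) * ps true (hA.eigenvalues j))),
    Finset.sum_comm (f := fun j i => ov hT hA i j * ((1 - 1 / p) *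
      amp p false (hT.eigenvalues i) ^ 2 + 1 / p * amp p false (hA.eigenvalues j) ^ 2 -
      ps false (hT.eigenvalues i) ^ (p - 1) * ps false (hA.eigenvalues j))),
    Finset.sum_comm (f := fun j i => ov hT hA i j *
      (ps true (hT.eigenvalues i) ^ (p - 1) * ps false (hA.eigenvalues j))),
    Finset.sum_comm (f := fun j i => ov hT hA i j *
      (ps false (hT.eigenvalues i) ^ (p - 1) * ps true (hA.eigenvalues j)))]
  simp only [Finset.mul_sum, ← Finset.sum_add_distrib, ← Finset.sum_sub_distrib]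
  refine Finset.sum_congr rfl fun i _ => Finset.sum_congr rfl fun j _ => ?_
  ring

lemma Fs_nonneg {p : ℝ} (hp : 2 < p) {T A : Matrix ι ι ℂ} (hT : T.IsHermitian)
    (hA : A.IsHermitian) : 0 ≤ Fs (1 / p) p hT hA := by
  refine Finset.sum_nonneg fun b _ => fv_nonneg (by positivity) ?_ _ (am_nonneg p b hT)
    (am_nonneg p b hA)
  rw [div_le_div_iff₀ (by linarith) (by norm_num)]
  linarith

lemma Fs_le_En {p : ℝ} (hp : 2 < p) {T A : Matrix ι ι ℂ} (hT : T.IsHermitian)
    (hA : A.IsHermitian) (hT1 : Fp p T = 1) (hA1 : Fp p A = 1) :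
    Fs (1 / p) p hT hA ≤ En p hT A := by
  rw [En_eq hp hT hA hT1 hA1]
  have : 0 ≤ ∑ b : Bool, ∑ j, ∑ i, Complex.normSq (Wm hA hT j i) *
      (am p b hT i ^ (2 - 2 * (1 / p)) * am p (!b) hA j ^ (2 * (1 / p))) :=
    Finset.sum_nonneg fun b _ => Finset.sum_nonneg fun j _ => Finset.sum_nonneg fun i _ =>
      mul_nonneg (Complex.normSq_nonneg _) (mul_nonneg (Real.rpow_nonneg (am_nonneg _ _ _ _) _)
        (Real.rpow_nonneg (am_nonneg _ _ _ _) _))
  linarith

/-- `s δ²(T,A) ≤ E(T,A)` -/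
lemma dsq_le_En {p : ℝ} (hp : 2 < p) {T A : Matrix ι ι ℂ} (hT : T.IsHermitian)
    (hA : A.IsHermitian) (hT1 : Fp p T = 1) (hA1 : Fp p A = 1) :
    dsq p hT hA ≤ p * En p hT A := by
  have hp0 : 0 < p := by linarith
  have h1 := Fs_le_En hp hT hA hT1 hA1
  have h2 : 1 / p * dsq p hT hA ≤ Fs (1 / p) p hT hA := by
    rw [dsq_eq, Finset.mul_sum]
    refine Finset.sum_le_sum fun b _ => ?_
    unfold dv fv
    rw [Finset.mul_sum]
    refine Finset.sum_le_sum fun j _ => ?_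
    rw [Finset.mul_sum]
    refine Finset.sum_le_sum fun i _ => ?_
    have hs2 : 1 / p ≤ 1 / 2 := by
      rw [div_le_div_iff₀ (by linarith) (by norm_num)]; linarith
    have := ysF_ge (s := 1 / p) (by positivity) hs2 (am_nonneg p b hT i) (am_nonneg p b hA j)
    have h3 := mul_le_mul_of_nonneg_left this (Complex.normSq_nonneg (Wm hA hT j i))
    linarith
  have h3 : 1 / p * dsq p hT hA ≤ En p hT A := h2.trans h1
  have h4 := mul_le_mul_of_nonneg_left h3 hp0.le
  have e : p * (1 / p * dsq p hT hA) = dsq p hT hA := by field_simp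
  rw [e] at h4
  exact h4

lemma En_nonneg2 {p : ℝ} (hp : 2 < p) {T A : Matrix ι ι ℂ} (hT : T.IsHermitian)
    (hA : A.IsHermitian) (hT1 : Fp p T = 1) (hA1 : Fp p A = 1) : 0 ≤ En p hT A :=
  (Fs_nonneg hp hT hA).trans (Fs_le_En hp hT hA hT1 hA1)

lemma am_pos_compl {p : ℝ} (hp : 0 < p) (b : Bool) {A : Matrix ι ι ℂ} (hA : A.IsHermitian)
    (i : ι) (h : am p b hA i ≠ 0) : am p (!b) hA i = 0 := by
  unfold am at h ⊢
  rw [amp_eq] at h ⊢
  have h1 : ps b (hA.eigenvalues i) ≠ 0 := by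
    intro h0
    rw [h0, Real.zero_rpow (by positivity)] at h
    exact h rfl
  have h2 : ps (!b) (hA.eigenvalues i) = 0 := by
    cases b
    · unfold ps at h1 ⊢
      simp only [Bool.not_false, if_true, Bool.false_eq_true, if_false] at h1 ⊢
      by_contra h3
      rcases le_total 0 (hA.eigenvalues i) with h4 | h4
      · exact h1 (max_eq_right (by linarith))
      · exact h3 (max_eq_right h4)
    · unfold ps at h1 ⊢
      simp only [Bool.not_true, if_true, Bool.false_eq_true, if_false] at h1 ⊢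
      by_contra h3
      rcases le_total 0 (hA.eigenvalues i) with h4 | h4
      · exact h3 (max_eq_right (by linarith))
      · exact h1 (max_eq_right h4)
  rw [h2, Real.zero_rpow (by positivity)]

/-- the cross terms are at most a bit more than the terms of equal sign -/
lemma En_le_Fs {p Λ : ℝ} (hp : 2 < p) (hΛ : 1 ≤ Λ) {T A : Matrix ι ι ℂ} (hT : T.IsHermitian)
    (hA : A.IsHermitian) (hT1 : Fp p T = 1) (hA1 : Fp p A = 1) :
    En p hT A ≤ (1 + Λ ^ (2 * (1 / p)) / (1 - 1 / p)) * Fs (1 / p) p hT hA +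
      1 / Λ * dsq p hT hA := by
  have hp0 : 0 < p := by linarith
  set s : ℝ := 1 / p with hs
  have hs0 : 0 < s := by positivity
  have hs2 : s ≤ 1 / 2 := by
    rw [hs, div_le_div_iff₀ (by linarith) (by norm_num)]; linarith
  have h1s : 0 < 1 - s := by linarith
  rw [En_eq hp hT hA hT1 hA1, ← hs]
  have key : ∑ b : Bool, ∑ j, ∑ i, Complex.normSq (Wm hA hT j i) *
      (am p b hT i ^ (2 - 2 * s) * am p (!b) hA j ^ (2 * s)) ≤
      Λ ^ (2 * s) / (1 - s) * Fs s p hT hA + 1 / Λ * dsq p hT hA := by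
    have e1 : dsq p hT hA = ∑ b : Bool, dv (Wm hA hT) (am p (!b) hT) (am p (!b) hA) := by
      rw [dsq_eq, Fintype.sum_bool, Fintype.sum_bool, Bool.not_true, Bool.not_false]
      ring
    rw [e1]
    unfold Fs fv dv
    simp only [Finset.mul_sum, ← Finset.sum_add_distrib]
    refine Finset.sum_le_sum fun b _ => Finset.sum_le_sum fun j _ =>
      Finset.sum_le_sum fun i _ => ?_
    have n0 := Complex.normSq_nonneg (Wm hA hT j i)
    have x0 := am_nonneg p b hT i
    have z0 := am_nonneg p (!b) hA j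
    have Y0 : 0 ≤ ysF s (am p b hT i) (am p b hA j) :=
      (mul_nonneg hs0.le (sq_nonneg _)).trans (ysF_ge hs0 hs2 x0 (am_nonneg p b hA j))
    have L0 : 0 < Λ ^ (2 * s) := Real.rpow_pos_of_pos (by linarith) _
    have hΛ0 : 0 < Λ := by linarith
    have pt : am p b hT i ^ (2 - 2 * s) * am p (!b) hA j ^ (2 * s) ≤
        Λ ^ (2 * s) / (1 - s) * ysF s (am p b hT i) (am p b hA j) +
          1 / Λ * (am p (!b) hT i - am p (!b) hA j) ^ 2 := by
      have R0 : 0 ≤ Λ ^ (2 * s) / (1 - s) * ysF s (am p b hT i) (am p b hA j) +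
          1 / Λ * (am p (!b) hT i - am p (!b) hA j) ^ 2 := by positivity
      by_cases hx : am p b hT i = 0
      · rw [hx, Real.zero_rpow (by linarith), zero_mul]
        rw [hx] at R0
        exact R0
      by_cases hz : am p (!b) hA j = 0
      · rw [hz, Real.zero_rpow (by positivity), mul_zero]
        rw [hz] at R0
        exact R0
      have hx' := am_pos_compl hp0 b hT i hx
      have hz' := am_pos_compl hp0 (!b) hA j hz
      rw [Bool.not_not] at hz'
      have e2 : ysF s (am p b hT i) (am p b hA j) = (1 - s) * am p b hT i ^ 2 := by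
        unfold ysF
        rw [hz', Real.zero_rpow (by positivity)]
        ring
      rw [e2, hx']
      have := cross_le hs0 hs2 hΛ x0 z0
      have e3 : Λ ^ (2 * s) / (1 - s) * ((1 - s) * am p b hT i ^ 2) =
          Λ ^ (2 * s) * am p b hT i ^ 2 := by field_simp
      rw [e3]
      have e4 : (0 - am p (!b) hA j) ^ 2 = am p (!b) hA j ^ 2 := by ring
      rw [e4]
      exact this
    have := mul_le_mul_of_nonneg_left pt n0
    linarith
  linarith

end basic

/-- final arithmetic of the comparison -/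
lemma comp_arith2 {η K p P D V F F' E E' c d l : ℝ} (hη : 0 < η) (hη1 : η ≤ 1) (hK : 0 < K)
    (hp : 0 < p) (hPD : P ≤ D) (hD : 0 ≤ D) (hV : 0 ≤ V) (hF' : 0 ≤ F') (hFE : F' ≤ E')
    (hVE : V ≤ p * E') (h : E ≤ c * F + l * d)
    (h1 : c * F ≤ (2 + η) * (P + 20 * η * (D + V) + K * F'))
    (h2 : l * d ≤ η * (2 * (D + V))) :
    E ≤ 2 * P + 63 * η * D + (63 * η * p + 3 * K) * E' := by
  have s3 : η * P ≤ η * D := mul_le_mul_of_nonneg_left hPD hη.le
  have s4 : η * (η * (D + V)) ≤ η * (D + V) := by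
    have h3 : 0 ≤ η * (D + V) := mul_nonneg hη.le (add_nonneg hD hV)
    have h4 := mul_le_mul_of_nonneg_right hη1 h3
    linarith
  have s5 : (2 + η) * (K * F') ≤ 3 * K * E' := by
    have h3 : (2 + η) * (K * F') ≤ 3 * (K * F') :=
      mul_le_mul_of_nonneg_right (by linarith) (mul_nonneg hK.le hF')
    have h4 : K * F' ≤ K * E' := mul_le_mul_of_nonneg_left hFE hK.le
    linarith
  have s6 : 63 * η * V ≤ 63 * η * p * E' := by
    have := mul_le_mul_of_nonneg_left hVE (by positivity : 0 ≤ 63 * η)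
    linarith
  have e7 : (2 + η) * (P + 20 * η * (D + V) + K * F') =
      2 * P + η * P + 40 * η * (D + V) + 20 * (η * (η * (D + V))) +
        (2 + η) * (K * F') := by ring
  rw [e7] at h1
  have p1 : 0 ≤ η * D := mul_nonneg hη.le hD
  have p2 : 0 ≤ η * V := mul_nonneg hη.le hV
  have e8 : η * (D + V) = η * D + η * V := by ring
  have e9 : 63 * η * V = 63 * (η * V) := by ring
  have e10 : 63 * η * D = 63 * (η * D) := by ring
  have e11 : (63 * η * p + 3 * K) * E' = 63 * η * p * E' + 3 * K * E' := by ring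
  have e12 : 40 * η * (D + V) = 40 * (η * D) + 40 * (η * V) := by ring
  have e13 : η * (2 * (D + V)) = 2 * (η * D) + 2 * (η * V) := by ring
  rw [e12] at h1
  rw [e13] at h2
  rw [e8] at s4
  rw [e8] at h1
  rw [e9] at s6
  rw [e10, e11]
  linarith

/-- **One-sided comparison.** -/
theorem En_comp {η : ℝ} (hη : 0 < η) (hη1 : η ≤ 1) :
    ∃ ν₁ K p₀ : ℝ, 0 < ν₁ ∧ ν₁ ≤ 1 ∧ 0 < K ∧ 2 < p₀ ∧ ∀ p : ℝ, p₀ ≤ p →
      ∀ (ι : Type) [Fintype ι] [DecidableEq ι] (T T' A : Matrix ι ι ℂ) (hT : T.IsHermitian)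
      (hT' : T'.IsHermitian) (hA : A.IsHermitian), Fp p T = 1 → Fp p T' = 1 → Fp p A = 1 →
      En p hT A ≤ 2 * Ps ν₁ p hT hT' + 63 * η * dsq p hT hT' +
        (63 * η * p + K) * En p hT' A := by
  obtain ⟨ν₁, K, s₀, hν₁, hν₁1, hK, hs₀, hs₀2, H⟩ := comp_one hη hη1
  refine ⟨ν₁, 3 * K, max 3 (max (1 / s₀) (8 / η ^ 2)), hν₁, hν₁1, by positivity,
    lt_of_lt_of_le (by norm_num) (le_max_left _ _), ?_⟩
  intro p hp ι _ _ T T' A hT hT' hA hT1 hT1' hA1
  have hp3 : 3 ≤ p := (le_max_left _ _).trans hp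
  have hps : 1 / s₀ ≤ p := ((le_max_left _ _).trans (le_max_right _ _)).trans hp
  have hpη : 8 / η ^ 2 ≤ p := ((le_max_right _ _).trans (le_max_right _ _)).trans hp
  have hp2 : 2 < p := by linarith
  have hp0 : 0 < p := by linarith
  set s : ℝ := 1 / p with hs
  have hs0 : 0 < s := by positivity
  have hss : s ≤ s₀ := by
    rw [hs, div_le_iff₀ hp0]
    rw [div_le_iff₀ hs₀] at hps
    linarith
  have hsη : s ≤ η ^ 2 / 8 := by
    rw [hs, div_le_div_iff₀ hp0 (by norm_num)]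
    rw [div_le_iff₀ (by positivity)] at hpη
    linarith
  -- one sign at a time
  have hF : Fs s p hT hA ≤ Ps ν₁ p hT hT' + 20 * η * (dsq p hT hT' + dsq p hT' hA) +
      K * Fs s p hT' hA := by
    rw [dsq_eq, dsq_eq, ← Finset.sum_add_distrib]
    unfold Fs Ps
    rw [Finset.mul_sum, Finset.mul_sum, ← Finset.sum_add_distrib, ← Finset.sum_add_distrib]
    refine Finset.sum_le_sum fun b _ => ?_
    have := H s hs0 hss ι (Wm hT' hT) (Wm hA hT') (star_Wm_mul hT' hT) (star_Wm_mul hA hT')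
      (am p b hT) (am p b hT') (am p b hA) (am_nonneg p b hT) (am_nonneg p b hT')
      (am_nonneg p b hA)
    rw [Wm_mul hA hT hT'] at this
    exact this
  set Λ : ℝ := Real.exp (η / (8 * s)) with hΛ
  have hΛ1 : 1 ≤ Λ := Real.one_le_exp (by positivity)
  have hΛs : Λ ^ (2 * s) = Real.exp (η / 4) := by
    rw [hΛ, ← Real.exp_mul]
    congr 1
    field_simp
    ring
  have hΛi : 1 / Λ ≤ η := by
    have h1 : η / (8 * s) ≤ Λ := by
      have := Real.add_one_le_exp (η / (8 * s))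
      linarith
    have h2 : 1 / η ≤ η / (8 * s) := by
      rw [div_le_div_iff₀ hη (by positivity)]
      nlinarith
    have h3 : 1 / η ≤ Λ := h2.trans h1
    rw [div_le_iff₀ hη] at h3
    rw [div_le_iff₀ (by linarith)]
    linarith
  have hE := En_le_Fs hp2 hΛ1 hT hA hT1 hA1
  rw [← hs, hΛs] at hE
  have hexp : Real.exp (η / 4) ≤ 1 + η / 2 := by
    have h1 := Real.one_sub_le_exp_neg (η / 4)
    have h2 : 0 < 1 - η / 4 := by linarith
    rw [Real.exp_neg] at h1
    have h3 := Real.exp_pos (η / 4)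
    have h4 : Real.exp (η / 4) * (1 - η / 4) ≤ 1 := by
      calc Real.exp (η / 4) * (1 - η / 4) ≤ Real.exp (η / 4) * (Real.exp (η / 4))⁻¹ :=
            mul_le_mul_of_nonneg_left h1 h3.le
        _ = 1 := mul_inv_cancel₀ h3.ne'
    by_contra hcon
    push Not at hcon
    have h5 : (1 + η / 2) * (1 - η / 4) < Real.exp (η / 4) * (1 - η / 4) :=
      mul_lt_mul_of_pos_right hcon h2
    nlinarith
  have hc : 1 + Real.exp (η / 4) / (1 - s) ≤ 2 + η := by
    have h1 : s ≤ η / 8 := by nlinarith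
    have h2 : 0 < 1 - s := by linarith
    have h3 : Real.exp (η / 4) / (1 - s) ≤ 1 + η := by
      rw [div_le_iff₀ h2]
      nlinarith
    linarith
  have F0 : 0 ≤ Fs s p hT hA := Fs_nonneg hp2 hT hA
  have F0' : 0 ≤ Fs s p hT' hA := Fs_nonneg hp2 hT' hA
  have F1' : Fs s p hT' hA ≤ En p hT' A := Fs_le_En hp2 hT' hA hT1' hA1
  have D0 := dsq_nonneg p hT hT'
  have V0 := dsq_nonneg p hT' hA
  have Dt := dsq_triangle p hT hT' hA
  have P1 := Ps_le_dsq hν₁ p hT hT'
  have V1 := dsq_le_En hp2 hT' hA hT1' hA1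
  have E0' := En_nonneg2 hp2 hT' hA hT1' hA1
  have step1 : (1 + Real.exp (η / 4) / (1 - s)) * Fs s p hT hA ≤
      (2 + η) * (Ps ν₁ p hT hT' + 20 * η * (dsq p hT hT' + dsq p hT' hA) +
        K * Fs s p hT' hA) :=
    mul_le_mul hc hF F0 (by linarith)
  have step2 : 1 / Λ * dsq p hT hA ≤ η * (2 * (dsq p hT hT' + dsq p hT' hA)) :=
    mul_le_mul hΛi Dt (dsq_nonneg _ _ _) hη.le
  exact comp_arith2 hη hη1 hK hp0 P1 D0 V0 F0' F1' V1 hE step1 step2

end Pool.Agent.Hlawka
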