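import Mathlib
import Pool.Agent.Hlawka.Defs

/-!
# `C_1 = ∞` for the trace norm
-/

namespace Pool.Agent.Hlawka

open Matrix Finset
open scoped ENNReal

/-- trace norm of an `N × 2` matrix through trace and determinant of the Gram matrix -/
lemma schatten_one_eq {N : ℕ} (X : Matrix (Fin N) (Fin 2) ℂ) {t d : ℝ}
    (ht : (Xᴴ * X).trace = (t : ℂ)) (hd : (Xᴴ * X).det = (d : ℂ)) :
    schattenNorm 1 X = Real.sqrt (t + 2 * Real.sqrt d) := by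
  have hA := isHermitian_conjTranspose_mul_self X
  have h0 := eigenvalues_conjTranspose_mul_self_nonneg X 0
  have h1 := eigenvalues_conjTranspose_mul_self_nonneg X 1
  have ht' := hA.trace_eq_sum_eigenvalues
  have hd' := hA.det_eq_prod_eigenvalues
  rw [ht, Fin.sum_univ_two] at ht'
  rw [hd, Fin.prod_univ_two] at hd'
  have ht2 : t = hA.eigenvalues 0 + hA.eigenvalues 1 := by
    apply Complex.ofReal_injective
    rw [ht', Complex.ofReal_add]; rfl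
  have hd2 : d = hA.eigenvalues 0 * hA.eigenvalues 1 := by
    apply Complex.ofReal_injective
    rw [hd', Complex.ofReal_mul]; rfl
  unfold schattenNorm
  rw [Fin.sum_univ_two]
  simp only [Real.rpow_one, div_one]
  unfold singularValue
  have hs : Real.sqrt d = Real.sqrt (hA.eigenvalues 0) * Real.sqrt (hA.eigenvalues 1) := by
    rw [hd2, Real.sqrt_mul h0]
  have e : t + 2 * Real.sqrt d = (Real.sqrt (hA.eigenvalues 0) + Real.sqrt (hA.eigenvalues 1)) *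
      (Real.sqrt (hA.eigenvalues 0) + Real.sqrt (hA.eigenvalues 1)) := by
    rw [hs, ht2]
    have q0 := Real.mul_self_sqrt h0
    have q1 := Real.mul_self_sqrt h1
    linear_combination -q0 - q1
  rw [e, Real.sqrt_mul_self (by positivity)]

/-- the example -/
def exX : Matrix (Fin 3) (Fin 2) ℂ := !![1, 0; 0, 0; 0, 0]
def exY : Matrix (Fin 3) (Fin 2) ℂ := !![0, 0; 0, 1; 0, 0]
noncomputable def exZ (ε : ℝ) : Matrix (Fin 3) (Fin 2) ℂ := !![1, 1; 1, 1; (ε : ℂ), (ε : ℂ)]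

lemma norm_gen (a b c d e f : ℝ) :
    schattenNorm 1 (!![(a : ℂ), (b : ℂ); (c : ℂ), (d : ℂ); (e : ℂ), (f : ℂ)]) =
      Real.sqrt ((a ^ 2 + b ^ 2 + c ^ 2 + d ^ 2 + e ^ 2 + f ^ 2) +
        2 * Real.sqrt ((a ^ 2 + c ^ 2 + e ^ 2) * (b ^ 2 + d ^ 2 + f ^ 2)
          - (a * b + c * d + e * f) ^ 2)) := by
  have hG : (!![(a : ℂ), (b : ℂ); (c : ℂ), (d : ℂ); (e : ℂ), (f : ℂ)])ᴴ *
      !![(a : ℂ), (b : ℂ); (c : ℂ), (d : ℂ); (e : ℂ), (f : ℂ)] =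
      !![((a ^ 2 + c ^ 2 + e ^ 2 : ℝ) : ℂ), ((a * b + c * d + e * f : ℝ) : ℂ);
        ((a * b + c * d + e * f : ℝ) : ℂ), ((b ^ 2 + d ^ 2 + f ^ 2 : ℝ) : ℂ)] := by
    ext i j
    fin_cases i <;> fin_cases j <;>
      simp [Matrix.mul_apply, Fin.sum_univ_three, Matrix.conjTranspose_apply] <;> ring
  apply schatten_one_eq
  · rw [hG, Matrix.trace_fin_two]
    simp; ring
  · rw [hG, Matrix.det_fin_two]
    simp; ring

lemma norm_X : schattenNorm 1 exX = 1 := by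
  have h := norm_gen 1 0 0 0 0 0
  norm_num at h
  exact h

lemma norm_Y : schattenNorm 1 exY = 1 := by
  have h := norm_gen 0 0 0 1 0 0
  norm_num at h
  exact h

lemma norm_XY : schattenNorm 1 (exX + exY) = 2 := by
  have h := norm_gen 1 0 0 1 0 0
  have e : exX + exY = !![((1 : ℝ) : ℂ), ((0 : ℝ) : ℂ); ((0 : ℝ) : ℂ), ((1 : ℝ) : ℂ);
      ((0 : ℝ) : ℂ), ((0 : ℝ) : ℂ)] := by
    unfold exX exY
    ext i j
    fin_cases i <;> fin_cases j <;> simp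
  rw [e, h]
  rw [show ((1:ℝ) ^ 2 + 0 ^ 2 + 0 ^ 2) * (0 ^ 2 + 1 ^ 2 + 0 ^ 2) - (1 * 0 + 0 * 1 + 0 * 0) ^ 2 = 1
    by norm_num, Real.sqrt_one]
  rw [show ((1:ℝ) ^ 2 + 0 ^ 2 + 0 ^ 2 + 1 ^ 2 + 0 ^ 2 + 0 ^ 2 + 2 * 1) = 2 * 2 by norm_num]
  exact Real.sqrt_mul_self (by norm_num)

lemma norm_Z (ε : ℝ) : schattenNorm 1 (exZ ε) = Real.sqrt (4 + 2 * ε ^ 2) := by
  have h := norm_gen 1 1 1 1 ε ε
  have e : exZ ε = !![((1 : ℝ) : ℂ), ((1 : ℝ) : ℂ); ((1 : ℝ) : ℂ), ((1 : ℝ) : ℂ);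
      (ε : ℂ), (ε : ℂ)] := by
    unfold exZ
    ext i j
    fin_cases i <;> fin_cases j <;> simp
  rw [e, h]
  rw [show ((1:ℝ) ^ 2 + 1 ^ 2 + ε ^ 2) * (1 ^ 2 + 1 ^ 2 + ε ^ 2) - (1 * 1 + 1 * 1 + ε * ε) ^ 2 = 0
    by ring, Real.sqrt_zero]
  congr 1; ring

lemma norm_XZ (ε : ℝ) : schattenNorm 1 (exX + exZ ε) =
    Real.sqrt (7 + 2 * ε ^ 2 + 2 * Real.sqrt (1 + ε ^ 2)) := by
  have h := norm_gen 2 1 1 1 ε ε
  have e : exX + exZ ε = !![((2 : ℝ) : ℂ), ((1 : ℝ) : ℂ); ((1 : ℝ) : ℂ), ((1 : ℝ) : ℂ);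
      (ε : ℂ), (ε : ℂ)] := by
    unfold exX exZ
    ext i j
    fin_cases i <;> fin_cases j <;> simp <;> norm_num
  rw [e, h]
  rw [show ((2:ℝ) ^ 2 + 1 ^ 2 + ε ^ 2) * (1 ^ 2 + 1 ^ 2 + ε ^ 2) - (2 * 1 + 1 * 1 + ε * ε) ^ 2 =
    1 + ε ^ 2 by ring]
  congr 1; ring

lemma norm_YZ (ε : ℝ) : schattenNorm 1 (exY + exZ ε) =
    Real.sqrt (7 + 2 * ε ^ 2 + 2 * Real.sqrt (1 + ε ^ 2)) := by
  have h := norm_gen 1 1 1 2 ε ε
  have e : exY + exZ ε = !![((1 : ℝ) : ℂ), ((1 : ℝ) : ℂ); ((1 : ℝ) : ℂ), ((2 : ℝ) : ℂ);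
      (ε : ℂ), (ε : ℂ)] := by
    unfold exY exZ
    ext i j
    fin_cases i <;> fin_cases j <;> simp <;> norm_num
  rw [e, h]
  rw [show ((1:ℝ) ^ 2 + 1 ^ 2 + ε ^ 2) * (1 ^ 2 + 2 ^ 2 + ε ^ 2) - (1 * 1 + 1 * 2 + ε * ε) ^ 2 =
    1 + ε ^ 2 by ring]
  congr 1; ring

lemma norm_XYZ (ε : ℝ) : schattenNorm 1 (exX + exY + exZ ε) =
    1 + Real.sqrt (9 + 2 * ε ^ 2) := by
  have h := norm_gen 2 1 1 2 ε ε
  have e : exX + exY + exZ ε = !![((2 : ℝ) : ℂ), ((1 : ℝ) : ℂ); ((1 : ℝ) : ℂ), ((2 : ℝ) : ℂ);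
      (ε : ℂ), (ε : ℂ)] := by
    unfold exX exY exZ
    ext i j
    fin_cases i <;> fin_cases j <;> simp <;> norm_num
  rw [e, h]
  rw [show ((2:ℝ) ^ 2 + 1 ^ 2 + ε ^ 2) * (1 ^ 2 + 2 ^ 2 + ε ^ 2) - (2 * 1 + 1 * 2 + ε * ε) ^ 2 =
    9 + 2 * ε ^ 2 by ring]
  have h9 : (0 : ℝ) ≤ 9 + 2 * ε ^ 2 := by positivity
  have hm := Real.mul_self_sqrt h9
  rw [show (2 ^ 2 + 1 ^ 2 + 1 ^ 2 + 2 ^ 2 + ε ^ 2 + ε ^ 2 + 2 * √(9 + 2 * ε ^ 2)) =
    (1 + √(9 + 2 * ε ^ 2)) * (1 + √(9 + 2 * ε ^ 2)) by linear_combination -hm]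
  exact Real.sqrt_mul_self (by positivity)

/-- lower bound of the three-matrix defect -/
lemma D₃_lower {ε : ℝ} (h1 : ε ^ 2 ≤ 1) : ε ^ 2 / 8 ≤ D₃ 1 exX exY (exZ ε) := by
  unfold D₃
  rw [norm_X, norm_Y, norm_Z, norm_XYZ]
  set e := ε ^ 2 with he
  have he0 : 0 ≤ e := sq_nonneg _
  set s := Real.sqrt (4 + 2 * e)
  set w := Real.sqrt (9 + 2 * e)
  have hs : s ^ 2 = 4 + 2 * e := Real.sq_sqrt (by positivity)
  have hw : w ^ 2 = 9 + 2 * e := Real.sq_sqrt (by positivity)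
  have hs0 : 0 ≤ s := Real.sqrt_nonneg _
  have hw0 : 0 ≤ w := Real.sqrt_nonneg _
  have hs2 : s ≤ 5 / 2 := by nlinarith
  have hw2 : w ≤ 7 / 2 := by nlinarith
  have hs3 : 2 ≤ s := by nlinarith
  have hw3 : 3 ≤ w := by nlinarith
  -- (1+s-w)(1+s+w) = 2(s-2), (s-2)(s+2) = 2e
  have e1 : (1 + s - w) * (1 + s + w) = 2 * (s - 2) := by linear_combination hs - hw
  have e2 : (s - 2) * (s + 2) = 2 * e := by linear_combination hs
  have e3 : (1 + s - w) * ((1 + s + w) * (s + 2)) = 4 * e := by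
    linear_combination (s + 2) * e1 + 2 * e2
  have e4 : 0 < (1 + s + w) * (s + 2) := by positivity
  have e5 : (1 + s + w) * (s + 2) ≤ 32 := by nlinarith
  have e6 : 0 ≤ 1 + s - w := by
    by_contra hcon
    push Not at hcon
    nlinarith
  nlinarith

/-- upper bound of the two-matrix defects -/
lemma defect_upper {e : ℝ} (he0 : 0 ≤ e) :
    1 + Real.sqrt (4 + 2 * e) - Real.sqrt (7 + 2 * e + 2 * Real.sqrt (1 + e)) ≤ e ^ 2 := by
  set s := Real.sqrt (4 + 2 * e)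
  set u := Real.sqrt (1 + e)
  set r := Real.sqrt (7 + 2 * e + 2 * u)
  have hu0 : 0 ≤ u := Real.sqrt_nonneg _
  have hs : s ^ 2 = 4 + 2 * e := Real.sq_sqrt (by positivity)
  have hu : u ^ 2 = 1 + e := Real.sq_sqrt (by positivity)
  have hr : r ^ 2 = 7 + 2 * e + 2 * u := Real.sq_sqrt (by positivity)
  have hs0 : 0 ≤ s := Real.sqrt_nonneg _
  have hr0 : 0 ≤ r := Real.sqrt_nonneg _
  have hu1 : 1 ≤ u := by nlinarith
  have hs2 : 2 ≤ s := by nlinarith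
  have e1 : (1 + s - r) * (1 + s + r) = 2 * (s - 1 - u) := by linear_combination hs - hr
  have e2 : (s - 1 - u) * (s + 1 + u) = (u - 1) ^ 2 := by linear_combination hs - 2 * hu
  have e3 : (u - 1) * (u + 1) = e := by linear_combination hu
  have e4 : u - 1 ≤ e := by nlinarith
  have e5 : s - 1 - u ≤ e ^ 2 := by
    have h1 : (u - 1) ^ 2 ≤ e ^ 2 := by nlinarith
    have h2 : 1 ≤ s + 1 + u := by linarith
    by_contra hcon
    push Not at hcon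
    have h3 : 0 < s - 1 - u := lt_of_le_of_lt (sq_nonneg e) hcon
    nlinarith
  by_contra hcon
  push Not at hcon
  have h3 : 0 < 1 + s - r := lt_of_le_of_lt (sq_nonneg e) hcon
  nlinarith

theorem not_hlawka_one (C : ℝ) (hC : 0 ≤ C) : ¬ HlawkaHolds 1 C := by
  intro h
  set e : ℝ := 1 / (16 * C + 1) with he
  have he0 : 0 < e := by positivity
  have he1 : e ≤ 1 := by
    rw [he, div_le_one (by positivity)]; linarith
  have hee : e * (16 * C + 1) = 1 := by rw [he]; field_simp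
  have hsq : (Real.sqrt e) ^ 2 = e := Real.sq_sqrt he0.le
  have key := h 3 2 (by norm_num) (by norm_num) exX exY (exZ (Real.sqrt e))
  have h3 := D₃_lower (ε := Real.sqrt e) (by rw [hsq]; exact he1)
  have hXY : D₂ 1 exX exY = 0 := by
    unfold D₂
    rw [norm_X, norm_Y, norm_XY]; norm_num
  have hXZ : D₂ 1 exX (exZ (Real.sqrt e)) ≤ e ^ 2 := by
    unfold D₂
    rw [norm_X, norm_Z, norm_XZ, hsq]
    exact defect_upper he0.le
  have hYZ : D₂ 1 exY (exZ (Real.sqrt e)) ≤ e ^ 2 := by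
    unfold D₂
    rw [norm_Y, norm_Z, norm_YZ, hsq]
    exact defect_upper he0.le
  rw [hsq] at h3
  rw [hXY] at key
  have h4 : C * (0 + D₂ 1 exX (exZ √e) + D₂ 1 exY (exZ √e)) ≤ C * (2 * e ^ 2) :=
    mul_le_mul_of_nonneg_left (by linarith) hC
  have h5 : e / 8 ≤ C * (2 * e ^ 2) := by linarith
  have h6 : C * (2 * e ^ 2) < e / 8 := by nlinarith
  linarith

theorem hlawkaConst_one : hlawkaConst 1 = ⊤ := by
  unfold hlawkaConst
  have : {c : ℝ≥0∞ | ∃ C : ℝ, 0 ≤ C ∧ HlawkaHolds 1 C ∧ c = ENNReal.ofReal C} = ∅ := by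
    ext c
    simp only [Set.mem_ofPred_eq, Set.mem_empty_iff_false, iff_false]
    rintro ⟨C, hC, h, -⟩
    exact not_hlawka_one C hC h
  rw [this, sInf_empty]

end Pool.Agent.Hlawka
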