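import Mathlib
import Pool.Agent.Hlawka.Defs
import Pool.Agent.Hlawka.Dilation
import Pool.Agent.Hlawka.TraceNorm

/-!
# Lower bounds for `C_p`
-/

namespace Pool.Agent.Hlawka

open Matrix Finset
open scoped ENNReal

lemma le_hlawkaConst {p L : ℝ} (h : ∀ C : ℝ, 0 ≤ C → HlawkaHolds p C → L ≤ C) :
    ENNReal.ofReal L ≤ hlawkaConst p := by
  unfold hlawkaConst
  apply le_sInf
  rintro c ⟨C, hC, hH, rfl⟩
  exact ENNReal.ofReal_le_ofReal (h C hC hH)

/-- Schatten norm of a diagonal matrix -/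
lemma schatten_diag {p : ℝ} {N : ℕ} (d : Fin N → ℝ) :
    schattenNorm p (diagonal (fun i => ((d i : ℝ) : ℂ))) = (∑ i, |d i| ^ p) ^ (1 / p) := by
  unfold schattenNorm
  congr 1
  set X : Matrix (Fin N) (Fin N) ℂ := diagonal (fun i => ((d i : ℝ) : ℂ)) with hX
  set f : ℝ → ℝ := fun t => |t| ^ (p / 2) with hf
  have h3 : rs f (Xᴴ * X).charpoly = ∑ i, singularValue X i ^ p := by
    rw [← trF_eq_rs f (isHermitian_conjTranspose_mul_self X)]
    unfold trF
    apply Finset.sum_congr rfl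
    intro i _
    have hnn : 0 ≤ (isHermitian_conjTranspose_mul_self X).eigenvalues i :=
      eigenvalues_conjTranspose_mul_self_nonneg X i
    unfold singularValue
    rw [hf]
    simp only
    rw [abs_of_nonneg hnn, Real.sqrt_eq_rpow, ← Real.rpow_mul hnn]
    congr 1
    ring
  rw [← h3]
  have h4 : Xᴴ * X = diagonal (fun i => ((d i ^ 2 : ℝ) : ℂ)) := by
    rw [hX, diagonal_conjTranspose, diagonal_mul_diagonal]
    congr 1
    ext i
    simp; ring
  rw [h4, charpoly_diagonal, rs_prod]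
  apply Finset.sum_congr rfl
  intro i _
  rw [hf]
  simp only
  rw [abs_pow, ← Real.rpow_natCast, ← Real.rpow_mul (abs_nonneg _)]
  congr 1
  push_cast; ring

/-- a real diagonal `3 × 3` matrix -/
noncomputable def dg (a b c : ℝ) : Matrix (Fin 3) (Fin 3) ℂ :=
  diagonal (fun i => (((![a, b, c] : Fin 3 → ℝ) i : ℝ) : ℂ))

lemma dg_add (a b c a' b' c' : ℝ) : dg a b c + dg a' b' c' = dg (a + a') (b + b') (c + c') := by
  unfold dg
  rw [diagonal_add]
  congr 1
  ext i
  fin_cases i <;> simp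

lemma schatten_dg {p a b c : ℝ} (ha : 0 ≤ a) (hb : 0 ≤ b) (hc : 0 ≤ c) :
    schattenNorm p (dg a b c) = (a ^ p + b ^ p + c ^ p) ^ (1 / p) := by
  unfold dg
  rw [schatten_diag, Fin.sum_univ_three]
  simp [abs_of_nonneg ha, abs_of_nonneg hb, abs_of_nonneg hc]

/-- lower bound for `p ≥ 2` -/
theorem lower_large {p : ℝ} (hp : 2 ≤ p) : ENNReal.ofReal (p / 12) ≤ hlawkaConst p := by
  apply le_hlawkaConst
  intro C hC h
  have hp0 : 0 < p := by linarith
  have hpne : p ≠ 0 := hp0.ne'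
  have key := h 3 3 (by norm_num) (by norm_num) (dg 1 1 0) (dg 1 0 1) (dg 0 1 1)
  unfold D₃ D₂ at key
  rw [dg_add, dg_add, dg_add, dg_add] at key
  have n1 : schattenNorm p (dg 1 1 0) = (2 : ℝ) ^ (1 / p) := by
    rw [schatten_dg (by norm_num) (by norm_num) (by norm_num), Real.zero_rpow hpne, Real.one_rpow]
    norm_num
  have n2 : schattenNorm p (dg 1 0 1) = (2 : ℝ) ^ (1 / p) := by
    rw [schatten_dg (by norm_num) (by norm_num) (by norm_num), Real.zero_rpow hpne, Real.one_rpow]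
    norm_num
  have n3 : schattenNorm p (dg 0 1 1) = (2 : ℝ) ^ (1 / p) := by
    rw [schatten_dg (by norm_num) (by norm_num) (by norm_num), Real.zero_rpow hpne, Real.one_rpow]
    norm_num
  have n4 : 2 ≤ schattenNorm p (dg (1 + 1) (1 + 0) (0 + 1)) := by
    rw [schatten_dg (by norm_num) (by norm_num) (by norm_num)]
    have : (2 : ℝ) = ((2 : ℝ) ^ p) ^ (1 / p) := by
      rw [← Real.rpow_mul (by norm_num), mul_one_div_cancel hpne, Real.rpow_one]
    conv_lhs => rw [this]
    apply Real.rpow_le_rpow (by positivity) _ (by positivity)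
    norm_num
    linarith
  have n5 : 2 ≤ schattenNorm p (dg (1 + 0) (1 + 1) (0 + 1)) := by
    rw [schatten_dg (by norm_num) (by norm_num) (by norm_num)]
    have : (2 : ℝ) = ((2 : ℝ) ^ p) ^ (1 / p) := by
      rw [← Real.rpow_mul (by norm_num), mul_one_div_cancel hpne, Real.rpow_one]
    conv_lhs => rw [this]
    apply Real.rpow_le_rpow (by positivity) _ (by positivity)
    norm_num
    linarith
  have n6 : 2 ≤ schattenNorm p (dg (1 + 0) (0 + 1) (1 + 1)) := by
    rw [schatten_dg (by norm_num) (by norm_num) (by norm_num)]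
    have : (2 : ℝ) = ((2 : ℝ) ^ p) ^ (1 / p) := by
      rw [← Real.rpow_mul (by norm_num), mul_one_div_cancel hpne, Real.rpow_one]
    conv_lhs => rw [this]
    apply Real.rpow_le_rpow (by positivity) _ (by positivity)
    norm_num
  have n7 : schattenNorm p (dg (1 + 1 + 0) (1 + 0 + 1) (0 + 1 + 1)) = 2 * (3 : ℝ) ^ (1 / p) := by
    rw [schatten_dg (by norm_num) (by norm_num) (by norm_num)]
    rw [show ((1 : ℝ) + 1 + 0) ^ p + (1 + 0 + 1) ^ p + (0 + 1 + 1) ^ p = 3 * (2 : ℝ) ^ p by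
      norm_num; ring]
    rw [Real.mul_rpow (by norm_num) (by positivity), ← Real.rpow_mul (by norm_num),
      mul_one_div_cancel hpne, Real.rpow_one]
    ring
  rw [n1, n2, n3, n7] at key
  -- bounds with `x = 1 / p`
  set x := 1 / p with hx
  have hx0 : 0 < x := by positivity
  have hx2 : x ≤ 1 / 2 := by
    rw [hx]; exact one_div_le_one_div_of_le (by norm_num) hp
  have b1 : (2 : ℝ) ^ x ≤ 1 + x := by
    have := Real.geom_mean_le_arith_mean2_weighted (w₁ := 1 - x) (w₂ := x) (p₁ := 1) (p₂ := 2)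
      (by linarith) hx0.le (by norm_num) (by norm_num) (by ring)
    rw [Real.one_rpow] at this
    linarith
  have b2 : 1 + 69 / 100 * x ≤ (2 : ℝ) ^ x := by
    rw [Real.rpow_def_of_pos (by norm_num)]
    have h1 := Real.add_one_le_exp (Real.log 2 * x)
    have h2 := Real.log_two_gt_d9
    nlinarith
  have b3 : (3 : ℝ) ^ x ≤ 1 + 15 / 10 * x := by
    have h1 : (3 : ℝ) ^ x = (Real.sqrt 3) ^ (2 * x) := by
      rw [Real.sqrt_eq_rpow, ← Real.rpow_mul (by norm_num)]
      congr 1; ring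
    have := Real.geom_mean_le_arith_mean2_weighted (w₁ := 1 - 2 * x) (w₂ := 2 * x) (p₁ := 1)
      (p₂ := Real.sqrt 3) (by linarith) (by linarith) (by norm_num) (by positivity) (by ring)
    rw [Real.one_rpow] at this
    have h3 : Real.sqrt 3 ≤ 7 / 4 := by
      rw [Real.sqrt_le_left (by norm_num)]; norm_num
    rw [h1]
    nlinarith
  have hD3 : 1 / 2 ≤ (2 : ℝ) ^ x + 2 ^ x + 2 ^ x - 2 * 3 ^ x := by nlinarith
  have hD2 : C * (2 ^ x + 2 ^ x - schattenNorm p (dg (1 + 1) (1 + 0) (0 + 1)) +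
      (2 ^ x + 2 ^ x - schattenNorm p (dg (1 + 0) (1 + 1) (0 + 1))) +
      (2 ^ x + 2 ^ x - schattenNorm p (dg (1 + 0) (0 + 1) (1 + 1)))) ≤ C * (6 * x) := by
    apply mul_le_mul_of_nonneg_left _ hC
    linarith
  have h6 : 1 / 2 ≤ C * (6 * x) := by linarith
  have h7 : x * p = 1 := by rw [hx]; field_simp
  have h8 : p / 2 ≤ C * 6 := by
    have := mul_le_mul_of_nonneg_right h6 hp0.le
    have e : C * (6 * x) * p = C * 6 * (x * p) := by ring
    rw [e, h7] at this
    linarith
  linarith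

/-! ### `1 < p ≤ 2` -/

/-- comparison of the Schatten norms of `N × 2` matrices -/
lemma schatten_le_one {p : ℝ} (hp : 1 ≤ p) {N : ℕ} (X : Matrix (Fin N) (Fin 2) ℂ) :
    schattenNorm p X ≤ schattenNorm 1 X := by
  unfold schattenNorm
  rw [Fin.sum_univ_two, Fin.sum_univ_two]
  simp only [Real.rpow_one, div_one]
  have h0 : 0 ≤ singularValue X 0 := Real.sqrt_nonneg _
  have h1 : 0 ≤ singularValue X 1 := Real.sqrt_nonneg _
  have h := Real.add_rpow_le_rpow_add h0 h1 hp
  have h2 : (singularValue X 0 + singularValue X 1) =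
      ((singularValue X 0 + singularValue X 1) ^ p) ^ (1 / p) := by
    rw [← Real.rpow_mul (by positivity), mul_one_div_cancel (by linarith), Real.rpow_one]
  rw [h2]
  exact Real.rpow_le_rpow (by positivity) h (by positivity)

lemma schatten_ge_one {p : ℝ} (hp : 1 ≤ p) {N : ℕ} (X : Matrix (Fin N) (Fin 2) ℂ) :
    schattenNorm 1 X * (1 - (p - 1)) ≤ schattenNorm p X := by
  unfold schattenNorm
  rw [Fin.sum_univ_two, Fin.sum_univ_two]
  simp only [Real.rpow_one, div_one]
  set a := singularValue X 0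
  set b := singularValue X 1
  have h0 : 0 ≤ a := Real.sqrt_nonneg _
  have h1 : 0 ≤ b := Real.sqrt_nonneg _
  have hp0 : 0 < p := by linarith
  -- `(a+b)^p ≤ 2^(p-1) (a^p + b^p)`
  have h2 : (a + b) ^ p ≤ 2 ^ (p - 1) * (a ^ p + b ^ p) := by
    have := NNReal.rpow_add_le_mul_rpow_add_rpow ⟨a, h0⟩ ⟨b, h1⟩ hp
    exact_mod_cast this
  have h3 : a + b ≤ 2 ^ ((p - 1) / p) * (a ^ p + b ^ p) ^ (1 / p) := by
    have e1 : a + b = ((a + b) ^ p) ^ (1 / p) := by
      rw [← Real.rpow_mul (by positivity), mul_one_div_cancel (by linarith), Real.rpow_one]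
    rw [e1]
    refine (Real.rpow_le_rpow (by positivity) h2 (by positivity)).trans ?_
    rw [Real.mul_rpow (by positivity) (by positivity), ← Real.rpow_mul (by norm_num),
      show (p - 1) * (1 / p) = (p - 1) / p by ring]
  set y := (p - 1) / p
  have hy0 : 0 ≤ y := div_nonneg (by linarith) hp0.le
  have hy1 : y ≤ p - 1 := by
    show (p - 1) / p ≤ p - 1
    rw [div_le_iff₀ hp0]; nlinarith
  have hyle : y ≤ 1 := by
    show (p - 1) / p ≤ 1
    rw [div_le_one hp0]; linarith
  -- `2^(-y) ≥ 1 - y`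
  have h4 : (2 : ℝ) ^ y ≤ 1 + y := by
    have := Real.geom_mean_le_arith_mean2_weighted (w₁ := 1 - y) (w₂ := y) (p₁ := 1) (p₂ := 2)
      (by linarith) hy0 (by norm_num) (by norm_num) (by ring)
    rw [Real.one_rpow] at this
    linarith
  set n := (a ^ p + b ^ p) ^ (1 / p) with hn
  have hn0 : 0 ≤ n := Real.rpow_nonneg (by positivity) _
  have h5 : a + b ≤ (1 + y) * n := h3.trans (mul_le_mul_of_nonneg_right h4 hn0)
  have hab : 0 ≤ a + b := by positivity
  rcases le_total (1 - (p - 1)) 0 with h6 | h6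
  · exact (mul_nonpos_of_nonneg_of_nonpos hab h6).trans hn0
  · calc (a + b) * (1 - (p - 1)) ≤ ((1 + y) * n) * (1 - (p - 1)) :=
          mul_le_mul_of_nonneg_right h5 h6
      _ = ((1 + y) * (1 - (p - 1))) * n := by ring
      _ ≤ 1 * n := by
          apply mul_le_mul_of_nonneg_right _ hn0
          nlinarith
      _ = n := one_mul n

/-- norm of an `N × 2` matrix of rank one -/
lemma schatten_rank_one {p : ℝ} (hp : 1 ≤ p) {N : ℕ} (X : Matrix (Fin N) (Fin 2) ℂ)
    (hd : (Xᴴ * X).det = 0) : schattenNorm p X = schattenNorm 1 X := by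
  have hA := isHermitian_conjTranspose_mul_self X
  have hd' := hA.det_eq_prod_eigenvalues
  rw [hd, Fin.prod_univ_two] at hd'
  have hp0 : p ≠ 0 := by linarith
  have hz : hA.eigenvalues 0 = 0 ∨ hA.eigenvalues 1 = 0 := by
    rcases mul_eq_zero.1 hd'.symm with h | h
    · left; exact Complex.ofReal_injective (by rw [Complex.ofReal_zero]; exact h)
    · right; exact Complex.ofReal_injective (by rw [Complex.ofReal_zero]; exact h)
  unfold schattenNorm
  rw [Fin.sum_univ_two, Fin.sum_univ_two]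
  simp only [Real.rpow_one, div_one]
  rcases hz with h | h
  · have h0 : singularValue X 0 = 0 := by unfold singularValue; rw [h, Real.sqrt_zero]
    have h1 : 0 ≤ singularValue X 1 := Real.sqrt_nonneg _
    rw [h0, Real.zero_rpow hp0, zero_add, zero_add, ← Real.rpow_mul h1,
      mul_one_div_cancel hp0, Real.rpow_one]
  · have h0 : singularValue X 1 = 0 := by unfold singularValue; rw [h, Real.sqrt_zero]
    have h1 : 0 ≤ singularValue X 0 := Real.sqrt_nonneg _
    rw [h0, Real.zero_rpow hp0, add_zero, add_zero, ← Real.rpow_mul h1,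
      mul_one_div_cancel hp0, Real.rpow_one]

lemma det_gram_X : (exXᴴ * exX).det = 0 := by
  unfold exX
  simp [Matrix.det_fin_two, Matrix.mul_apply, Fin.sum_univ_three]

lemma det_gram_Y : (exYᴴ * exY).det = 0 := by
  unfold exY
  simp [Matrix.det_fin_two, Matrix.mul_apply, Fin.sum_univ_three]

lemma det_gram_Z (ε : ℝ) : ((exZ ε)ᴴ * exZ ε).det = 0 := by
  unfold exZ
  simp [Matrix.det_fin_two, Matrix.mul_apply, Fin.sum_univ_three]

/-- lower bound for `1 < p ≤ 2` -/
theorem lower_small {p : ℝ} (hp : 1 < p) (hp2 : p ≤ 2) :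
    ENNReal.ofReal (1 / (96 * Real.sqrt (p - 1))) ≤ hlawkaConst p := by
  apply le_hlawkaConst
  intro C hC h
  set δ := p - 1 with hδ
  have hδ0 : 0 < δ := by rw [hδ]; linarith
  have hδ1 : δ ≤ 1 := by rw [hδ]; linarith
  set e := Real.sqrt δ with he
  have he0 : 0 < e := Real.sqrt_pos.2 hδ0
  have he1 : e ≤ 1 := by rw [he]; exact Real.sqrt_le_one.2 hδ1
  have hee : e ^ 2 = δ := Real.sq_sqrt hδ0.le
  have hsq : (Real.sqrt e) ^ 2 = e := Real.sq_sqrt he0.le
  have key := h 3 2 (by norm_num) (by norm_num) exX exY (exZ (Real.sqrt e))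
  have hX : schattenNorm p exX = 1 := by rw [schatten_rank_one hp.le _ det_gram_X, norm_X]
  have hY : schattenNorm p exY = 1 := by rw [schatten_rank_one hp.le _ det_gram_Y, norm_Y]
  have hZ : schattenNorm p (exZ (Real.sqrt e)) = schattenNorm 1 (exZ (Real.sqrt e)) :=
    schatten_rank_one hp.le _ (det_gram_Z _)
  have h3 := D₃_lower (ε := Real.sqrt e) (by rw [hsq]; exact he1)
  rw [hsq] at h3
  -- lower bound of D₃
  have hD3 : e / 8 ≤ D₃ p exX exY (exZ (Real.sqrt e)) := by
    unfold D₃ at h3 ⊢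
    rw [hX, hY, hZ]
    rw [norm_X, norm_Y] at h3
    have := schatten_le_one hp.le (exX + exY + exZ (Real.sqrt e))
    linarith
  -- upper bounds of D₂
  have hXY : D₂ p exX exY ≤ 2 * δ := by
    unfold D₂
    rw [hX, hY]
    have := schatten_ge_one hp.le (exX + exY)
    rw [norm_XY] at this
    linarith
  have hr : Real.sqrt (7 + 2 * e + 2 * Real.sqrt (1 + e)) ≤ 4 := by
    rw [Real.sqrt_le_left (by norm_num)]
    have : Real.sqrt (1 + e) ≤ 2 := by
      rw [Real.sqrt_le_left (by norm_num)]; linarith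
    linarith
  have hXZ : D₂ p exX (exZ (Real.sqrt e)) ≤ e ^ 2 + 4 * δ := by
    unfold D₂
    rw [hX, hZ, norm_Z, hsq]
    have h1 := schatten_ge_one hp.le (exX + exZ (Real.sqrt e))
    rw [norm_XZ, hsq] at h1
    have h2 := defect_upper he0.le
    nlinarith
  have hYZ : D₂ p exY (exZ (Real.sqrt e)) ≤ e ^ 2 + 4 * δ := by
    unfold D₂
    rw [hY, hZ, norm_Z, hsq]
    have h1 := schatten_ge_one hp.le (exY + exZ (Real.sqrt e))
    rw [norm_YZ, hsq] at h1
    have h2 := defect_upper he0.le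
    nlinarith
  have h4 : C * (D₂ p exX exY + D₂ p exX (exZ √e) + D₂ p exY (exZ √e)) ≤ C * (12 * δ) :=
    mul_le_mul_of_nonneg_left (by rw [hee] at hXZ hYZ; linarith) hC
  have h5 : e / 8 ≤ C * (12 * δ) := by linarith
  rw [← hee] at h5
  have h6 : 1 ≤ C * (96 * e) := by
    have : e * 1 ≤ e * (C * (96 * e)) := by nlinarith
    exact le_of_mul_le_mul_left this he0
  rw [div_le_iff₀ (by positivity)]
  exact h6

end Pool.Agent.Hlawka
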