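import Mathlib
import Pool.Agent.Hlawka.Lower

/-!
# Lower bound for `C_p / p` as `p → ∞`
-/

namespace Pool.Agent.Hlawka

open Matrix Finset Filter Topology
open scoped ENNReal

lemma schatten_dg_abs {p a b c : ℝ} :
    schattenNorm p (dg a b c) = (|a| ^ p + |b| ^ p + |c| ^ p) ^ (1 / p) := by
  unfold dg
  rw [schatten_diag, Fin.sum_univ_three]
  simp

/-- the consequence of the example `(1,1,-t), (1,-t,1), (-t,1,1)` -/
lemma example_t {p t C : ℝ} (hp : 1 < p) (ht0 : 0 ≤ t) (ht1 : t ≤ 1) (hC : 0 ≤ C)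
    (h : HlawkaHolds p C) :
    3 * (2 + t ^ p) ^ (1 / p) - 3 ^ (1 / p) * (2 - t) ≤
      C * (6 * ((2 + t ^ p) ^ (1 / p) - 1)) := by
  have hp0 : 0 < p := by linarith
  have hpne : p ≠ 0 := hp0.ne'
  have key := h 3 3 (by norm_num) (by norm_num) (dg 1 1 (-t)) (dg 1 (-t) 1) (dg (-t) 1 1)
  unfold D₃ D₂ at key
  rw [dg_add, dg_add, dg_add, dg_add] at key
  have ha : |(-t)| = t := by rw [abs_neg, abs_of_nonneg ht0]
  have n1 : schattenNorm p (dg 1 1 (-t)) = (2 + t ^ p) ^ (1 / p) := by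
    rw [schatten_dg_abs, ha, abs_one, Real.one_rpow]
    congr 1; ring
  have n2 : schattenNorm p (dg 1 (-t) 1) = (2 + t ^ p) ^ (1 / p) := by
    rw [schatten_dg_abs, ha, abs_one, Real.one_rpow]
    congr 1; ring
  have n3 : schattenNorm p (dg (-t) 1 1) = (2 + t ^ p) ^ (1 / p) := by
    rw [schatten_dg_abs, ha, abs_one, Real.one_rpow]
    congr 1; ring
  have two : (2 : ℝ) = ((2 : ℝ) ^ p) ^ (1 / p) := by
    rw [← Real.rpow_mul (by norm_num), mul_one_div_cancel hpne, Real.rpow_one]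
  have h2 : (1 : ℝ) + 1 = 2 := by norm_num
  have ge2 : ∀ a b c : ℝ, |a| = 2 ∨ |b| = 2 ∨ |c| = 2 → 2 ≤ schattenNorm p (dg a b c) := by
    intro a b c habc
    rw [schatten_dg_abs]
    conv_lhs => rw [two]
    apply Real.rpow_le_rpow (by positivity) _ (by positivity)
    have e1 : 0 ≤ |a| ^ p := by positivity
    have e2 : 0 ≤ |b| ^ p := by positivity
    have e3 : 0 ≤ |c| ^ p := by positivity
    rcases habc with h | h | h
    · rw [h] at e1 ⊢; linarith
    · rw [h] at e2 ⊢; linarith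
    · rw [h] at e3 ⊢; linarith
  have n4 : 2 ≤ schattenNorm p (dg (1 + 1) (1 + -t) (-t + 1)) :=
    ge2 _ _ _ (Or.inl (by rw [h2]; norm_num))
  have n5 : 2 ≤ schattenNorm p (dg (1 + -t) (1 + 1) (-t + 1)) :=
    ge2 _ _ _ (Or.inr (Or.inl (by rw [h2]; norm_num)))
  have n6 : 2 ≤ schattenNorm p (dg (1 + -t) (-t + 1) (1 + 1)) :=
    ge2 _ _ _ (Or.inr (Or.inr (by rw [h2]; norm_num)))
  have n7 : schattenNorm p (dg (1 + 1 + -t) (1 + -t + 1) (-t + 1 + 1)) =
      3 ^ (1 / p) * (2 - t) := by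
    rw [schatten_dg_abs]
    have e1 : (1 : ℝ) + 1 + -t = 2 - t := by ring
    have e2 : (1 : ℝ) + -t + 1 = 2 - t := by ring
    have e3 : -t + 1 + 1 = 2 - t := by ring
    rw [e1, e2, e3, abs_of_nonneg (by linarith : (0 : ℝ) ≤ 2 - t)]
    rw [show (2 - t) ^ p + (2 - t) ^ p + (2 - t) ^ p = 3 * (2 - t) ^ p by ring]
    have h0 : (0 : ℝ) ≤ 2 - t := by linarith
    rw [Real.mul_rpow (by norm_num) (by positivity), ← Real.rpow_mul h0,
      mul_one_div_cancel hpne, Real.rpow_one]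
  rw [n1, n2, n3, n7] at key
  have hle : C * ((2 + t ^ p) ^ (1 / p) + (2 + t ^ p) ^ (1 / p) -
        schattenNorm p (dg (1 + 1) (1 + -t) (-t + 1)) +
      ((2 + t ^ p) ^ (1 / p) + (2 + t ^ p) ^ (1 / p) -
        schattenNorm p (dg (1 + -t) (1 + 1) (-t + 1))) +
      ((2 + t ^ p) ^ (1 / p) + (2 + t ^ p) ^ (1 / p) -
        schattenNorm p (dg (1 + -t) (-t + 1) (1 + 1)))) ≤
      C * (6 * ((2 + t ^ p) ^ (1 / p) - 1)) := by
    apply mul_le_mul_of_nonneg_left _ hC
    clear key n1 n2 n3 n7 two ge2 h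
    generalize (2 + t ^ p) ^ (1 / p) = A
    linarith only [n4, n5, n6]
  have hfin := key.trans hle
  have e : (2 + t ^ p) ^ (1 / p) + (2 + t ^ p) ^ (1 / p) + (2 + t ^ p) ^ (1 / p) =
      3 * (2 + t ^ p) ^ (1 / p) := by ring
  rw [e] at hfin
  exact hfin

lemma tendsto_base {t : ℝ} (ht0 : 0 < t) (ht1 : t < 1) :
    Tendsto (fun p : ℝ => Real.log (2 + t ^ p)) atTop (𝓝 (Real.log 2)) := by
  have h1 : Tendsto (fun p : ℝ => t ^ p) atTop (𝓝 0) :=
    tendsto_rpow_atTop_of_base_lt_one t (by linarith) ht1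
  have h2 : Tendsto (fun p : ℝ => 2 + t ^ p) atTop (𝓝 (2 + 0)) := h1.const_add 2
  rw [add_zero] at h2
  exact h2.log (by norm_num)

lemma tendsto_mul {t : ℝ} (ht0 : 0 < t) (ht1 : t < 1) :
    Tendsto (fun p : ℝ => p * ((2 + t ^ p) ^ (1 / p) - 1)) atTop (𝓝 (Real.log 2)) := by
  have hL := tendsto_base ht0 ht1
  have hsq : Tendsto (fun p : ℝ => Real.log (2 + t ^ p) ^ 2 / p) atTop (𝓝 0) := by
    have := (hL.pow 2).div_atTop tendsto_id
    simpa using this
  have hh : Tendsto (fun p : ℝ => Real.log (2 + t ^ p) / p) atTop (𝓝 0) := by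
    have := hL.div_atTop tendsto_id
    simpa using this
  have hev : ∀ᶠ p : ℝ in atTop, ‖p * ((2 + t ^ p) ^ (1 / p) - 1) - Real.log (2 + t ^ p)‖ ≤
      Real.log (2 + t ^ p) ^ 2 / p := by
    filter_upwards [eventually_gt_atTop 0, hh.eventually (gt_mem_nhds one_pos)] with p hp hlt
    set L := Real.log (2 + t ^ p) with hLdef
    have hpos : (0 : ℝ) < 2 + t ^ p := by positivity
    have hL0 : 0 ≤ L := Real.log_nonneg (by have : 0 ≤ t ^ p := by positivity
                                            linarith)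
    have e : (2 + t ^ p) ^ (1 / p) = Real.exp (L / p) := by
      rw [Real.rpow_def_of_pos hpos, mul_one_div]
    have hb := Real.abs_exp_sub_one_sub_id_le (x := L / p)
      (by rw [abs_of_nonneg (by positivity)]; exact hlt.le)
    rw [e, Real.norm_eq_abs]
    have e2 : p * (Real.exp (L / p) - 1) - L = p * (Real.exp (L / p) - 1 - L / p) := by
      field_simp
    rw [e2, abs_mul, abs_of_pos hp]
    calc p * |Real.exp (L / p) - 1 - L / p| ≤ p * (L / p) ^ 2 :=
          mul_le_mul_of_nonneg_left hb hp.le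
      _ = L ^ 2 / p := by field_simp
  have h0 : Tendsto (fun p : ℝ => p * ((2 + t ^ p) ^ (1 / p) - 1) - Real.log (2 + t ^ p))
      atTop (𝓝 0) := squeeze_zero_norm' hev hsq
  have := h0.add hL
  simpa using this

/-- **lower bound** -/
theorem eventually_le_hlawkaConst {a : ℝ} (ha : a < 1 / (3 * Real.log 2)) :
    ∀ᶠ p : ℝ in atTop, ENNReal.ofReal (a * p) ≤ hlawkaConst p := by
  have hl2 : 0 < Real.log 2 := Real.log_pos (by norm_num)
  -- choice of `t`
  obtain ⟨t, ht0, ht1, hat⟩ : ∃ t : ℝ, 0 < t ∧ t < 1 ∧ a < (1 + t) / (6 * Real.log 2) := by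
    have hcont : Tendsto (fun t : ℝ => (1 + t) / (6 * Real.log 2)) (𝓝[<] 1)
        (𝓝 ((1 + 1) / (6 * Real.log 2))) := by
      apply Tendsto.mono_left _ nhdsWithin_le_nhds
      apply Continuous.tendsto'
      · fun_prop
      · rfl
    have hlim : a < (1 + 1) / (6 * Real.log 2) := by
      have : (1 + 1 : ℝ) / (6 * Real.log 2) = 1 / (3 * Real.log 2) := by
        field_simp; norm_num
      rw [this]; exact ha
    have h1 := hcont.eventually (lt_mem_nhds hlim)
    have h2 : ∀ᶠ t : ℝ in 𝓝[<] 1, 0 < t ∧ t < 1 := by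
      have h3 : ∀ᶠ t : ℝ in 𝓝[<] 1, t ∈ Set.Iio (1 : ℝ) := self_mem_nhdsWithin
      have h4 : ∀ᶠ t : ℝ in 𝓝[<] 1, (0 : ℝ) < t :=
        nhdsWithin_le_nhds (lt_mem_nhds one_pos)
      filter_upwards [h3, h4] with t h5 h6
      exact ⟨h6, h5⟩
    obtain ⟨t, h3, h4⟩ := (h1.and h2).exists
    exact ⟨t, h4.1, h4.2, h3⟩
  have hm := tendsto_mul ht0 ht1
  have hA : Tendsto (fun p : ℝ => (2 + t ^ p) ^ (1 / p)) atTop (𝓝 1) := by
    have h1 : Tendsto (fun p : ℝ => p * ((2 + t ^ p) ^ (1 / p) - 1) / p + 1) atTop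
        (𝓝 (0 + 1)) := (hm.div_atTop tendsto_id).add_const 1
    rw [zero_add] at h1
    refine h1.congr' ?_
    filter_upwards [eventually_gt_atTop 0] with p hp
    field_simp
    ring
  have h3 : Tendsto (fun p : ℝ => (3 : ℝ) ^ (1 / p)) atTop (𝓝 1) := by
    have h1 : Tendsto (fun p : ℝ => 1 / p) atTop (𝓝 0) := by
      simpa using tendsto_inv_atTop_zero (𝕜 := ℝ)
    have := (tendsto_const_nhds (x := (3 : ℝ))).rpow h1 (Or.inl (by norm_num))
    simpa using this
  have hf : Tendsto (fun p : ℝ => (3 * (2 + t ^ p) ^ (1 / p) - 3 ^ (1 / p) * (2 - t)) /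
      (6 * (p * ((2 + t ^ p) ^ (1 / p) - 1)))) atTop (𝓝 ((1 + t) / (6 * Real.log 2))) := by
    have h4 : Tendsto (fun p : ℝ => 3 * (2 + t ^ p) ^ (1 / p) - 3 ^ (1 / p) * (2 - t)) atTop
        (𝓝 (3 * 1 - 1 * (2 - t))) := (hA.const_mul 3).sub (h3.mul_const (2 - t))
    have h5 := h4.div (hm.const_mul 6) (by positivity)
    have e : (3 * 1 - 1 * (2 - t)) / (6 * Real.log 2) = (1 + t) / (6 * Real.log 2) := by
      congr 1; ring
    rw [e] at h5
    exact h5
  filter_upwards [hf.eventually (lt_mem_nhds hat), eventually_gt_atTop 1] with p hlt hp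
  apply le_hlawkaConst
  intro C hC h
  have hp0 : 0 < p := by linarith
  have key := example_t hp ht0.le ht1.le hC h
  set A := (2 + t ^ p) ^ (1 / p) with hAdef
  have hA1 : 1 < A := by
    apply Real.one_lt_rpow
    · have : 0 ≤ t ^ p := by positivity
      linarith
    · positivity
  have hden : 0 < 6 * (p * (A - 1)) := by
    have : 0 < A - 1 := by linarith
    positivity
  rw [lt_div_iff₀ hden] at hlt
  have h6 : a * p * (6 * (A - 1)) ≤ C * (6 * (A - 1)) := by
    have e : a * (6 * (p * (A - 1))) = a * p * (6 * (A - 1)) := by ring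
    rw [e] at hlt
    linarith
  have h7 : 0 < 6 * (A - 1) := by linarith
  exact le_of_mul_le_mul_right h6 h7

end Pool.Agent.Hlawka
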