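import Mathlib
import Pool.Agent.Hlawka.LimDefs
import Pool.Agent.Hlawka.Dilation

/-!
# From the pair inequality to the three-vector inequality
-/

namespace Pool.Agent.Hlawka

open Matrix Finset

variable {ι : Type*} [Fintype ι] [DecidableEq ι]

/-- a unit vector `G` whose functional attains the norm at `S` -/
lemma exists_support {p : ℝ} (hp : 1 < p) {A S : Matrix ι ι ℂ} (hA : A.IsHermitian)
    (hA1 : Fp p A = 1) (hS : S.IsHermitian) :
    ∃ (G : Matrix ι ι ℂ) (hG : G.IsHermitian), Fp p G = 1 ∧ lin (dF p) hG S = p * hn p S := by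
  rcases (hn_nonneg p hS).eq_or_lt with h0 | h0
  · refine ⟨A, hA, hA1, ?_⟩
    have h1 := lin_le hp hS hA hA1
    have h2 := lin_le hp hS.neg hA hA1
    have e : hn p (-S) = 0 := by
      have := hn_smul hp hS (-1)
      rw [neg_one_smul, ← h0, mul_zero] at this
      exact this
    rw [e, lin_neg, mul_zero] at h2
    rw [← h0, mul_zero] at h1 ⊢
    linarith
  · refine ⟨(1 / hn p S) • S, isHermitian_smul_real hS _, ?_, ?_⟩
    · rw [Fp_smul hS, abs_of_pos (by positivity), Real.div_rpow zero_le_one h0.le,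
        Real.one_rpow, hn_rpow hp hS]
      have : Fp p S ≠ 0 := by rw [← hn_rpow hp hS]; positivity
      field_simp
    · have hs1 : Fp p ((1 / hn p S) • S) = 1 := by
        rw [Fp_smul hS, abs_of_pos (by positivity), Real.div_rpow zero_le_one h0.le,
          Real.one_rpow, hn_rpow hp hS]
        have : Fp p S ≠ 0 := by rw [← hn_rpow hp hS]; positivity
        field_simp
      have hSS : S = hn p S • ((1 / hn p S) • S) := by
        rw [smul_smul, mul_one_div_cancel h0.ne', one_smul]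
      have h1 := lin_smul (dF p) (isHermitian_smul_real hS (1 / hn p S)) (hn p S)
        ((1 / hn p S) • S)
      rw [← hSS, lin_dF_self hp, hs1] at h1
      rw [h1]; ring

lemma En_nonneg {p : ℝ} (hp : 1 < p) {G A : Matrix ι ι ℂ} (hG : G.IsHermitian)
    (hG1 : Fp p G = 1) (hA : A.IsHermitian) (hA1 : Fp p A = 1) : 0 ≤ En p hG A := by
  have h := lin_le hp hA hG hG1
  have hnA : hn p A = 1 := by unfold hn; rw [hA1, Real.one_rpow]
  rw [hnA, mul_one] at h
  unfold En
  have : lin (dF p) hG A / p ≤ 1 := by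
    rw [div_le_one (by linarith)]; exact h
  linarith

/-- the combination, real numbers only -/
lemma combine {a b n1 n2 n3 e1 e2 e3 m1 m2 m3 d12 d13 d23 D : ℝ} (ha : 0 < a) (hb : 0 ≤ b)
    (hn1 : 0 ≤ n1) (hn2 : 0 ≤ n2) (hn3 : 0 ≤ n3) (hm1 : 0 ≤ m1) (hm2 : 0 ≤ m2) (hm3 : 0 ≤ m3)
    (h12 : 0 ≤ d12) (h13 : 0 ≤ d13) (h23 : 0 ≤ d23)
    (hS : d12 + d13 + d23 = n1 * m1 + n2 * m2 + n3 * m3)
    (hD1 : D ≤ n1 * e1 + d23) (hD2 : D ≤ n2 * e2 + d13) (hD3 : D ≤ n3 * e3 + d12)
    (H12 : e1 + e2 ≤ a * m3 + b * (m1 + m2)) (H13 : e1 + e3 ≤ a * m2 + b * (m1 + m3))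
    (H23 : e2 + e3 ≤ a * m1 + b * (m2 + m3)) :
    D ≤ (a / 6 + b + 1) * (d12 + d13 + d23) := by
  set g := a / 6 + b with hg
  have hg0 : 0 < g := by positivity
  have q1 : 0 ≤ n1 * m1 := mul_nonneg hn1 hm1
  have q2 : 0 ≤ n2 * m2 := mul_nonneg hn2 hm2
  have q3 : 0 ≤ n3 * m3 := mul_nonneg hn3 hm3
  by_cases c1 : e1 ≤ g * m1
  · have := mul_le_mul_of_nonneg_left c1 hn1
    nlinarith
  by_cases c2 : e2 ≤ g * m2
  · have := mul_le_mul_of_nonneg_left c2 hn2
    nlinarith
  by_cases c3 : e3 ≤ g * m3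
  · have := mul_le_mul_of_nonneg_left c3 hn3
    nlinarith
  push Not at c1 c2 c3
  have e1p : 0 < e1 := lt_of_le_of_lt (by positivity) c1
  have e2p : 0 < e2 := lt_of_le_of_lt (by positivity) c2
  have e3p : 0 < e3 := lt_of_le_of_lt (by positivity) c3
  -- `m_k ≥ (e_i + e_j) / (6 g)`
  have k3 : e1 + e2 ≤ 6 * g * m3 := by
    have h1 : g * (e1 + e2) ≤ g * (a * m3) + b * (e1 + e2) := by
      have : g * (e1 + e2) ≤ g * (a * m3) + b * (g * m1 + g * m2) := by nlinarith
      have : b * (g * m1 + g * m2) ≤ b * (e1 + e2) :=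
        mul_le_mul_of_nonneg_left (by linarith) hb
      linarith
    have h2 : a / 6 * (e1 + e2) ≤ a * (g * m3) := by
      have : g * (e1 + e2) = a / 6 * (e1 + e2) + b * (e1 + e2) := by rw [hg]; ring
      linarith
    have h3 : a * (e1 + e2) ≤ a * (6 * g * m3) := by linarith
    exact le_of_mul_le_mul_left h3 ha
  have k2 : e1 + e3 ≤ 6 * g * m2 := by
    have h1 : g * (e1 + e3) ≤ g * (a * m2) + b * (e1 + e3) := by
      have : g * (e1 + e3) ≤ g * (a * m2) + b * (g * m1 + g * m3) := by nlinarith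
      have : b * (g * m1 + g * m3) ≤ b * (e1 + e3) :=
        mul_le_mul_of_nonneg_left (by linarith) hb
      linarith
    have h2 : a / 6 * (e1 + e3) ≤ a * (g * m2) := by
      have : g * (e1 + e3) = a / 6 * (e1 + e3) + b * (e1 + e3) := by rw [hg]; ring
      linarith
    have h3 : a * (e1 + e3) ≤ a * (6 * g * m2) := by linarith
    exact le_of_mul_le_mul_left h3 ha
  have k1 : e2 + e3 ≤ 6 * g * m1 := by
    have h1 : g * (e2 + e3) ≤ g * (a * m1) + b * (e2 + e3) := by
      have : g * (e2 + e3) ≤ g * (a * m1) + b * (g * m2 + g * m3) := by nlinarith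
      have : b * (g * m2 + g * m3) ≤ b * (e2 + e3) :=
        mul_le_mul_of_nonneg_left (by linarith) hb
      linarith
    have h2 : a / 6 * (e2 + e3) ≤ a * (g * m1) := by
      have : g * (e2 + e3) = a / 6 * (e2 + e3) + b * (e2 + e3) := by rw [hg]; ring
      linarith
    have h3 : a * (e2 + e3) ≤ a * (6 * g * m1) := by linarith
    exact le_of_mul_le_mul_left h3 ha
  set t1 := m1 / e1 with ht1
  set t2 := m2 / e2 with ht2
  set t3 := m3 / e3 with ht3
  have t1n : 0 ≤ t1 := by positivity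
  have t2n : 0 ≤ t2 := by positivity
  have t3n : 0 ≤ t3 := by positivity
  have u1 : t1 * e1 = m1 := by rw [ht1]; field_simp
  have u2 : t2 * e2 = m2 := by rw [ht2]; field_simp
  have u3 : t3 * e3 = m3 := by rw [ht3]; field_simp
  -- AM-GM
  have hT : 1 ≤ g * (t1 + t2 + t3) := by
    have r1 : (e2 + e3) / e1 ≤ 6 * (g * t1) := by
      rw [div_le_iff₀ e1p]
      calc e2 + e3 ≤ 6 * g * m1 := k1
        _ = 6 * (g * t1) * e1 := by rw [← u1]; ring
    have r2 : (e1 + e3) / e2 ≤ 6 * (g * t2) := by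
      rw [div_le_iff₀ e2p]
      calc e1 + e3 ≤ 6 * g * m2 := k2
        _ = 6 * (g * t2) * e2 := by rw [← u2]; ring
    have r3 : (e1 + e2) / e3 ≤ 6 * (g * t3) := by
      rw [div_le_iff₀ e3p]
      calc e1 + e2 ≤ 6 * g * m3 := k3
        _ = 6 * (g * t3) * e3 := by rw [← u3]; ring
    have two : ∀ x y : ℝ, 0 < x → 0 < y → 2 ≤ x / y + y / x := by
      intro x y hx hy
      have h1 : x / y + y / x - 2 = (x - y) ^ 2 / (x * y) := by field_simp; ring
      have h2 : 0 ≤ (x - y) ^ 2 / (x * y) := by positivity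
      linarith
    have s1 := two e1 e2 e1p e2p
    have s2 := two e1 e3 e1p e3p
    have s3 := two e2 e3 e2p e3p
    rw [add_div] at r1 r2 r3
    linarith
  set T := t1 + t2 + t3 with hTdef
  set S := d12 + d13 + d23 with hSdef
  have hS0 : 0 ≤ S := by positivity
  have hT0 : 0 < T := by
    by_contra hcon
    push Not at hcon
    have : g * T ≤ 0 := mul_nonpos_of_nonneg_of_nonpos hg0.le hcon
    linarith
  have hDT : D * T ≤ S + T * S := by
    have v1 := mul_le_mul_of_nonneg_left hD1 t1n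
    have v2 := mul_le_mul_of_nonneg_left hD2 t2n
    have v3 := mul_le_mul_of_nonneg_left hD3 t3n
    have w1 : t1 * (n1 * e1 + d23) = n1 * m1 + t1 * d23 := by rw [← u1]; ring
    have w2 : t2 * (n2 * e2 + d13) = n2 * m2 + t2 * d13 := by rw [← u2]; ring
    have w3 : t3 * (n3 * e3 + d12) = n3 * m3 + t3 * d12 := by rw [← u3]; ring
    have x1 : t1 * d23 ≤ t1 * S := mul_le_mul_of_nonneg_left (by linarith) t1n
    have x2 : t2 * d13 ≤ t2 * S := mul_le_mul_of_nonneg_left (by linarith) t2n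
    have x3 : t3 * d12 ≤ t3 * S := mul_le_mul_of_nonneg_left (by linarith) t3n
    have y : D * T = t1 * D + t2 * D + t3 * D := by rw [hTdef]; ring
    have z : T * S = t1 * S + t2 * S + t3 * S := by rw [hTdef]; ring
    rw [y, z]
    linarith
  have hfin : D * T ≤ (g + 1) * S * T := by
    have : S ≤ g * T * S := by nlinarith
    nlinarith
  exact le_of_mul_le_mul_right hfin hT0

/-- the three-vector inequality for Hermitian matrices -/
theorem three_of_pair {p a b : ℝ} (hp : 1 < p) (ha : 0 < a) (hb : 0 ≤ b)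
    (H : ∀ (G1 G2 A1 A2 A3 : Matrix ι ι ℂ) (hG1 : G1.IsHermitian) (hG2 : G2.IsHermitian)
      (_ : A1.IsHermitian) (_ : A2.IsHermitian) (_ : A3.IsHermitian),
      Fp p G1 = 1 → Fp p G2 = 1 → Fp p A1 = 1 → Fp p A2 = 1 → Fp p A3 = 1 →
      En p hG1 A1 + En p hG2 A2 ≤
        a * (En p hG1 A3 + En p hG2 A3) + b * (En p hG2 A1 + En p hG1 A2))
    {X Y Z : Matrix ι ι ℂ} (hX : X.IsHermitian) (hY : Y.IsHermitian) (hZ : Z.IsHermitian) :
    hn p X + hn p Y + hn p Z - hn p (X + Y + Z) ≤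
      (a / 6 + b + 1) * (hD2 p X Y + hD2 p X Z + hD2 p Y Z) := by
  have hp0 : 0 < p := by linarith
  have nXY := hD2_nonneg hp hX hY
  have nXZ := hD2_nonneg hp hX hZ
  have nYZ := hD2_nonneg hp hY hZ
  have hg : 0 ≤ a / 6 + b := by positivity
  -- zero norm
  have hzero : ∀ {U V : Matrix ι ι ℂ} (hU : U.IsHermitian) (hV : V.IsHermitian), hn p U = 0 →
      hn p V ≤ hn p (U + V) := by
    intro U V hU hV h0
    have e : hn p (-U) = 0 := by
      have := hn_smul hp hU (-1)
      rw [neg_one_smul, h0, mul_zero] at this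
      exact this
    have h := hn_add_le hp (hU.add hV) hU.neg
    rw [e, add_zero, show U + V + -U = V by abel] at h
    exact h
  have hbig : hD2 p X Y + hD2 p X Z + hD2 p Y Z ≤
      (a / 6 + b + 1) * (hD2 p X Y + hD2 p X Z + hD2 p Y Z) := by
    have : 0 ≤ (a / 6 + b) * (hD2 p X Y + hD2 p X Z + hD2 p Y Z) :=
      mul_nonneg hg (by positivity)
    linarith
  rcases (hn_nonneg p hX).eq_or_lt with x0 | x0
  · have h := hzero hX (hY.add hZ) x0.symm
    rw [← add_assoc] at h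
    refine le_trans ?_ hbig
    unfold hD2 at *
    linarith
  rcases (hn_nonneg p hY).eq_or_lt with y0 | y0
  · have h := hzero hY (hX.add hZ) y0.symm
    rw [show Y + (X + Z) = X + Y + Z by abel] at h
    refine le_trans ?_ hbig
    unfold hD2 at *
    linarith
  rcases (hn_nonneg p hZ).eq_or_lt with z0 | z0
  · have h := hzero hZ (hX.add hY) z0.symm
    rw [show Z + (X + Y) = X + Y + Z by abel] at h
    refine le_trans ?_ hbig
    unfold hD2 at *
    linarith
  -- normalised vectors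
  have hunit : ∀ {U : Matrix ι ι ℂ} (hU : U.IsHermitian), 0 < hn p U →
      Fp p ((1 / hn p U) • U) = 1 := by
    intro U hU h0
    rw [Fp_smul hU, abs_of_pos (by positivity), Real.div_rpow zero_le_one h0.le,
      Real.one_rpow, hn_rpow hp hU]
    have : Fp p U ≠ 0 := by rw [← hn_rpow hp hU]; positivity
    field_simp
  set A1 := (1 / hn p X) • X with hA1d
  set A2 := (1 / hn p Y) • Y with hA2d
  set A3 := (1 / hn p Z) • Z with hA3d
  have hA1 : A1.IsHermitian := isHermitian_smul_real hX _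
  have hA2 : A2.IsHermitian := isHermitian_smul_real hY _
  have hA3 : A3.IsHermitian := isHermitian_smul_real hZ _
  have u1 : Fp p A1 = 1 := hunit hX x0
  have u2 : Fp p A2 = 1 := hunit hY y0
  have u3 : Fp p A3 = 1 := hunit hZ z0
  have eX : X = hn p X • A1 := by
    rw [hA1d, smul_smul, mul_one_div_cancel x0.ne', one_smul]
  have eY : Y = hn p Y • A2 := by
    rw [hA2d, smul_smul, mul_one_div_cancel y0.ne', one_smul]
  have eZ : Z = hn p Z • A3 := by
    rw [hA3d, smul_smul, mul_one_div_cancel z0.ne', one_smul]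
  obtain ⟨G1, hG1, g1, s1⟩ := exists_support hp hA1 u1 (hY.add hZ)
  obtain ⟨G2, hG2, g2, s2⟩ := exists_support hp hA1 u1 (hX.add hZ)
  obtain ⟨G3, hG3, g3, s3⟩ := exists_support hp hA1 u1 (hX.add hY)
  have lX : ∀ {G : Matrix ι ι ℂ} (hG : G.IsHermitian), lin (dF p) hG X =
      hn p X * lin (dF p) hG A1 := by
    intro G hG
    have := lin_smul (dF p) hG (hn p X) A1
    rwa [← eX] at this
  have lY : ∀ {G : Matrix ι ι ℂ} (hG : G.IsHermitian), lin (dF p) hG Y =
      hn p Y * lin (dF p) hG A2 := by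
    intro G hG
    have := lin_smul (dF p) hG (hn p Y) A2
    rwa [← eY] at this
  have lZ : ∀ {G : Matrix ι ι ℂ} (hG : G.IsHermitian), lin (dF p) hG Z =
      hn p Z * lin (dF p) hG A3 := by
    intro G hG
    have := lin_smul (dF p) hG (hn p Z) A3
    rwa [← eZ] at this
  have nX : ∀ {G : Matrix ι ι ℂ} (hG : G.IsHermitian), hn p X * En p hG A1 =
      hn p X - lin (dF p) hG X / p := by
    intro G hG
    rw [lX hG]; unfold En; ring
  have nY : ∀ {G : Matrix ι ι ℂ} (hG : G.IsHermitian), hn p Y * En p hG A2 =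
      hn p Y - lin (dF p) hG Y / p := by
    intro G hG
    rw [lY hG]; unfold En; ring
  have nZ : ∀ {G : Matrix ι ι ℂ} (hG : G.IsHermitian), hn p Z * En p hG A3 =
      hn p Z - lin (dF p) hG Z / p := by
    intro G hG
    rw [lZ hG]; unfold En; ring
  rw [lin_add] at s1 s2 s3
  have v1 : lin (dF p) hG1 Y / p + lin (dF p) hG1 Z / p = hn p (Y + Z) := by
    rw [← add_div, s1]; field_simp
  have v2 : lin (dF p) hG2 X / p + lin (dF p) hG2 Z / p = hn p (X + Z) := by
    rw [← add_div, s2]; field_simp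
  have v3 : lin (dF p) hG3 X / p + lin (dF p) hG3 Y / p = hn p (X + Y) := by
    rw [← add_div, s3]; field_simp
  have dYZ : hD2 p Y Z = hn p Y * En p hG1 A2 + hn p Z * En p hG1 A3 := by
    rw [nY, nZ]; unfold hD2; linarith
  have dXZ : hD2 p X Z = hn p X * En p hG2 A1 + hn p Z * En p hG2 A3 := by
    rw [nX, nZ]; unfold hD2; linarith
  have dXY : hD2 p X Y = hn p X * En p hG3 A1 + hn p Y * En p hG3 A2 := by
    rw [nX, nY]; unfold hD2; linarith
  have hXYZ := (hX.add hY).add hZ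
  have w : ∀ {G : Matrix ι ι ℂ} (hG : G.IsHermitian), Fp p G = 1 →
      lin (dF p) hG X / p + lin (dF p) hG Y / p + lin (dF p) hG Z / p ≤ hn p (X + Y + Z) := by
    intro G hG hG1
    have h := lin_le hp hXYZ hG hG1
    rw [lin_add, lin_add] at h
    rw [← add_div, ← add_div, div_le_iff₀ hp0]
    linarith
  have w1 := w hG1 g1
  have w2 := w hG2 g2
  have w3 := w hG3 g3
  have p12 := En_nonneg hp hG1 g1 hA2 u2
  have p13 := En_nonneg hp hG1 g1 hA3 u3
  have p21 := En_nonneg hp hG2 g2 hA1 u1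
  have p23 := En_nonneg hp hG2 g2 hA3 u3
  have p31 := En_nonneg hp hG3 g3 hA1 u1
  have p32 := En_nonneg hp hG3 g3 hA2 u2
  have H12 := H G1 G2 A1 A2 A3 hG1 hG2 hA1 hA2 hA3 g1 g2 u1 u2 u3
  have H13 := H G1 G3 A1 A3 A2 hG1 hG3 hA1 hA3 hA2 g1 g3 u1 u3 u2
  have H23 := H G2 G3 A2 A3 A1 hG2 hG3 hA2 hA3 hA1 g2 g3 u2 u3 u1
  refine combine (n1 := hn p X) (n2 := hn p Y) (n3 := hn p Z) (e1 := En p hG1 A1)
    (e2 := En p hG2 A2) (e3 := En p hG3 A3) (m1 := En p hG2 A1 + En p hG3 A1)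
    (m2 := En p hG1 A2 + En p hG3 A2) (m3 := En p hG1 A3 + En p hG2 A3)
    ha hb x0.le y0.le z0.le (by linarith) (by linarith) (by linarith)
    nXY nXZ nYZ ?_ ?_ ?_ ?_ ?_ ?_ ?_
  · rw [dXY, dXZ, dYZ]; ring
  · rw [nX hG1]; unfold hD2; linarith
  · rw [nY hG2]; unfold hD2; linarith
  · rw [nZ hG3]; unfold hD2; linarith
  · have : b * (En p hG2 A1 + En p hG1 A2) ≤
        b * ((En p hG2 A1 + En p hG3 A1) + (En p hG1 A2 + En p hG3 A2)) :=
      mul_le_mul_of_nonneg_left (by linarith) hb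
    linarith
  · have : b * (En p hG3 A1 + En p hG1 A3) ≤
        b * ((En p hG2 A1 + En p hG3 A1) + (En p hG1 A3 + En p hG2 A3)) :=
      mul_le_mul_of_nonneg_left (by linarith) hb
    linarith
  · have : b * (En p hG3 A2 + En p hG2 A3) ≤
        b * ((En p hG1 A2 + En p hG3 A2) + (En p hG1 A3 + En p hG2 A3)) :=
      mul_le_mul_of_nonneg_left (by linarith) hb
    linarith

theorem hlawka_of_pair {p a b : ℝ} (hp : 2 < p) (ha : 0 < a) (hb : 0 ≤ b)
    (H : ∀ (ι : Type) [Fintype ι] [DecidableEq ι] (G1 G2 A1 A2 A3 : Matrix ι ι ℂ)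
      (hG1 : G1.IsHermitian) (hG2 : G2.IsHermitian) (_ : A1.IsHermitian)
      (_ : A2.IsHermitian) (_ : A3.IsHermitian),
      Fp p G1 = 1 → Fp p G2 = 1 → Fp p A1 = 1 → Fp p A2 = 1 → Fp p A3 = 1 →
      En p hG1 A1 + En p hG2 A2 ≤
        a * (En p hG1 A3 + En p hG2 A3) + b * (En p hG2 A1 + En p hG1 A2)) :
    HlawkaHolds p (a / 6 + b + 1) := by
  intro N M _ _ X Y Z
  have hp1 : 1 < p := by linarith
  have hp0 : 0 < p := by linarith
  have h := three_of_pair hp1 ha hb (H (Fin N ⊕ Fin M)) (dil_isHermitian X) (dil_isHermitian Y)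
    (dil_isHermitian Z)
  unfold hD2 at h
  rw [← dil_add, ← dil_add, ← dil_add, ← dil_add, hn_dil hp0, hn_dil hp0, hn_dil hp0,
    hn_dil hp0, hn_dil hp0, hn_dil hp0, hn_dil hp0] at h
  unfold D₃ D₂
  have h2 : (0 : ℝ) < 2 ^ (1 / p) := Real.rpow_pos_of_pos (by norm_num) _
  have h3 : (2 : ℝ) ^ (1 / p) * (schattenNorm p X + schattenNorm p Y + schattenNorm p Z -
      schattenNorm p (X + Y + Z)) ≤ (2 : ℝ) ^ (1 / p) * ((a / 6 + b + 1) *
      (schattenNorm p X + schattenNorm p Y - schattenNorm p (X + Y) +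
        (schattenNorm p X + schattenNorm p Z - schattenNorm p (X + Z)) +
        (schattenNorm p Y + schattenNorm p Z - schattenNorm p (Y + Z)))) := by
    linarith
  exact le_of_mul_le_mul_left h3 h2

end Pool.Agent.Hlawka
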