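import Mathlib
import Pool.Agent.Hlawka.LimEn
import Pool.Agent.Hlawka.LimPair
import Pool.Agent.Hlawka.LimLower

/-!
# The limit of `C_p / p`
-/

namespace Pool.Agent.Hlawka

open Matrix Finset Filter Topology
open scoped ENNReal

/-- the pair inequality -/
theorem pair_ineq {η : ℝ} (hη : 0 < η) (hη1 : η ≤ 1) :
    ∃ K p₀ : ℝ, 0 < K ∧ 2 < p₀ ∧ ∀ p : ℝ, p₀ ≤ p → ∀ c : ℝ, 0 < c →
      c ≤ (1 - (2 : ℝ) ^ (1 - p / (p - 1))) / (p / (p - 1)) →
      ∀ (ι : Type) [Fintype ι] [DecidableEq ι] (G1 G2 A1 A2 A3 : Matrix ι ι ℂ)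
      (hG1 : G1.IsHermitian) (hG2 : G2.IsHermitian) (_hA1 : A1.IsHermitian)
      (_hA2 : A2.IsHermitian) (_hA3 : A3.IsHermitian), Fp p G1 = 1 → Fp p G2 = 1 →
      Fp p A1 = 1 → Fp p A2 = 1 → Fp p A3 = 1 →
      En p hG1 A1 + En p hG2 A2 ≤
        (2 + 126 * η) / c * (En p hG1 A3 + En p hG2 A3) +
          (63 * η * p + K) * (En p hG2 A1 + En p hG1 A2) := by
  obtain ⟨ν₁, K, p₀, hν₁, hν₁1, hK, hp₀, H⟩ := En_comp hη hη1
  refine ⟨K, p₀, hK, hp₀, ?_⟩
  intro p hp c hc hcq ι _ _ G1 G2 A1 A2 A3 hG1 hG2 hA1 hA2 hA3 hG11 hG21 hA11 hA21 hA31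
  have hp2 : 2 < p := by linarith
  have h1 := H p hp ι G1 G2 A1 hG1 hG2 hA1 hG11 hG21 hA11
  have h2 := H p hp ι G2 G1 A2 hG2 hG1 hA2 hG21 hG11 hA21
  have h3 := En_add_ge hp2 hG1 hG2 hA3 hG11 hG21 hA31
  have h4 := Ps_add_le hν₁ hν₁1 p hG1 hG2
  have h5 := dsq_comm p hG2 hG1
  have h6 := dsq_nonneg p hG1 hG2
  rw [h5] at h2
  have h7 : c * dsq p hG1 hG2 ≤ En p hG1 A3 + En p hG2 A3 :=
    (mul_le_mul_of_nonneg_right hcq h6).trans h3
  have h8 : (2 + 126 * η) * dsq p hG1 hG2 ≤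
      (2 + 126 * η) / c * (En p hG1 A3 + En p hG2 A3) := by
    have := mul_le_mul_of_nonneg_left h7 (by positivity : 0 ≤ (2 + 126 * η) / c)
    have e : (2 + 126 * η) / c * (c * dsq p hG1 hG2) = (2 + 126 * η) * dsq p hG1 hG2 := by
      field_simp
    rw [e] at this
    exact this
  have h9 : (63 * η * p + K) * (En p hG2 A1 + En p hG1 A2) =
      (63 * η * p + K) * En p hG2 A1 + (63 * η * p + K) * En p hG1 A2 := by ring
  rw [h9]
  have h10 : (2 + 126 * η) * dsq p hG1 hG2 = 2 * dsq p hG1 hG2 + 63 * η * dsq p hG1 hG2 +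
      63 * η * dsq p hG1 hG2 := by ring
  linarith

/-- lower bound of the convexity constant -/
lemma cq_ge {p : ℝ} (hp : 2 < p) :
    Real.log 2 / (p * (1 + Real.log 2 / (p - 1))) ≤
      (1 - (2 : ℝ) ^ (1 - p / (p - 1))) / (p / (p - 1)) := by
  have hp0 : 0 < p := by linarith
  have hp1 : 0 < p - 1 := by linarith
  have hL : 0 < Real.log 2 := Real.log_pos (by norm_num)
  set u : ℝ := Real.log 2 / (p - 1) with hu
  have hu0 : 0 < u := by positivity
  have e1 : (2 : ℝ) ^ (1 - p / (p - 1)) = Real.exp (-u) := by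
    rw [Real.rpow_def_of_pos (by norm_num)]
    congr 1
    rw [hu]
    field_simp
    ring
  have e2 : Real.exp (-u) ≤ 1 / (1 + u) := by
    rw [Real.exp_neg, ← one_div]
    apply one_div_le_one_div_of_le (by positivity)
    have := Real.add_one_le_exp u
    linarith
  rw [e1]
  have e3 : u / (1 + u) ≤ 1 - Real.exp (-u) := by
    have : u / (1 + u) = 1 - 1 / (1 + u) := by field_simp; ring
    rw [this]
    linarith
  have e4 : Real.log 2 / (p * (1 + u)) = (u / (1 + u)) / (p / (p - 1)) := by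
    rw [hu]
    field_simp
  rw [e4]
  exact div_le_div_of_nonneg_right e3 (by positivity)

/-- upper half -/
theorem eventually_hlawkaConst_le {a : ℝ} (ha : 1 / (3 * Real.log 2) < a) :
    ∀ᶠ p : ℝ in atTop, hlawkaConst p ≤ ENNReal.ofReal (a * p) := by
  have hL : 0 < Real.log 2 := Real.log_pos (by norm_num)
  -- choice of η
  have hcont : Tendsto (fun η : ℝ => (1 + 63 * η) / (3 * Real.log 2) + 63 * η) (𝓝 0)
      (𝓝 ((1 + 63 * 0) / (3 * Real.log 2) + 63 * 0)) := by
    apply Continuous.tendsto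
    fun_prop
  have h0 : (1 + 63 * (0 : ℝ)) / (3 * Real.log 2) + 63 * 0 < a := by
    have : (1 + 63 * (0 : ℝ)) / (3 * Real.log 2) + 63 * 0 = 1 / (3 * Real.log 2) := by ring
    rw [this]; exact ha
  have h1 := hcont.eventually (gt_mem_nhds h0)
  obtain ⟨ε, hε, hε2⟩ := Metric.eventually_nhds_iff.mp h1
  set η : ℝ := min (ε / 2) 1 with hηd
  have hη : 0 < η := lt_min (by positivity) one_pos
  have hη1 : η ≤ 1 := min_le_right _ _
  have hηa : (1 + 63 * η) / (3 * Real.log 2) + 63 * η < a := by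
    apply hε2
    rw [Real.dist_eq, sub_zero, abs_of_pos hη]
    exact lt_of_le_of_lt (min_le_left _ _) (by linarith)
  obtain ⟨K, p₀, hK, hp₀, H⟩ := pair_ineq hη hη1
  -- the constant divided by p
  have hlim : Tendsto (fun p : ℝ => (1 + 63 * η) * (1 + Real.log 2 / (p - 1)) /
      (3 * Real.log 2) + 63 * η + (K + 1) / p) atTop
      (𝓝 ((1 + 63 * η) * (1 + 0) / (3 * Real.log 2) + 63 * η + 0)) := by
    have t1 : Tendsto (fun p : ℝ => Real.log 2 / (p - 1)) atTop (𝓝 0) :=
      tendsto_const_nhds.div_atTop (tendsto_atTop_add_const_right _ _ tendsto_id)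
    have t2 : Tendsto (fun p : ℝ => (K + 1) / p) atTop (𝓝 0) :=
      tendsto_const_nhds.div_atTop tendsto_id
    exact (((tendsto_const_nhds.mul (tendsto_const_nhds.add t1)).div_const _).add
      tendsto_const_nhds).add t2
  have hlt : (1 + 63 * η) * (1 + 0) / (3 * Real.log 2) + 63 * η + 0 < a := by
    have : (1 + 63 * η) * (1 + 0) / (3 * Real.log 2) + 63 * η + 0 =
      (1 + 63 * η) / (3 * Real.log 2) + 63 * η := by ring
    rw [this]; exact hηa
  filter_upwards [hlim.eventually (gt_mem_nhds hlt), eventually_ge_atTop p₀] with p hpa hpp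
  have hp2 : 2 < p := by linarith
  have hp0 : 0 < p := by linarith
  have hp1 : 0 < p - 1 := by linarith
  set c : ℝ := Real.log 2 / (p * (1 + Real.log 2 / (p - 1))) with hc
  have hc0 : 0 < c := by positivity
  have hH := hlawka_of_pair (a := (2 + 126 * η) / c) (b := 63 * η * p + K) hp2 (by positivity)
    (by positivity) (H p hpp c hc0 (cq_ge hp2))
  have hle : hlawkaConst p ≤ ENNReal.ofReal ((2 + 126 * η) / c / 6 + (63 * η * p + K) + 1) :=
    sInf_le ⟨_, by positivity, hH, rfl⟩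
  refine hle.trans (ENNReal.ofReal_le_ofReal ?_)
  have e1 : (2 + 126 * η) / c / 6 + (63 * η * p + K) + 1 =
      ((1 + 63 * η) * (1 + Real.log 2 / (p - 1)) / (3 * Real.log 2) + 63 * η + (K + 1) / p) *
        p := by
    rw [hc]
    field_simp
    ring
  rw [e1]
  exact mul_le_mul_of_nonneg_right hpa.le hp0.le

/-- **The limit.** -/
theorem tendsto_hlawkaConst_div :
    Tendsto (fun p : ℝ => hlawkaConst p / ENNReal.ofReal p) atTop
      (𝓝 (ENNReal.ofReal (1 / (3 * Real.log 2)))) := by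
  have hL : 0 < Real.log 2 := Real.log_pos (by norm_num)
  have hl0 : 0 < 1 / (3 * Real.log 2) := by positivity
  rw [tendsto_order]
  constructor
  · intro b hb
    have hbt : b ≠ ⊤ := ne_top_of_lt hb
    have hb' : b.toReal < 1 / (3 * Real.log 2) := by
      rw [← ENNReal.toReal_ofReal hl0.le]
      exact (ENNReal.toReal_lt_toReal hbt ENNReal.ofReal_ne_top).mpr hb
    obtain ⟨a, ha1, ha2⟩ := exists_between hb'
    have ha0 : 0 ≤ a := ENNReal.toReal_nonneg.trans ha1.le
    filter_upwards [eventually_le_hlawkaConst ha2, eventually_gt_atTop 0] with p hp hp0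
    have h1 : b < ENNReal.ofReal a := by
      rw [← ENNReal.ofReal_toReal hbt]
      exact (ENNReal.ofReal_lt_ofReal_iff (lt_of_le_of_lt ENNReal.toReal_nonneg ha1)).mpr ha1
    refine h1.trans_le ?_
    rw [ENNReal.le_div_iff_mul_le (Or.inl (by simpa using hp0)) (Or.inl ENNReal.ofReal_ne_top),
      ← ENNReal.ofReal_mul ha0]
    exact hp
  · intro b hb
    rcases eq_or_ne b ⊤ with hbt | hbt
    · subst hbt
      filter_upwards [eventually_hlawkaConst_le (a := 1 / (3 * Real.log 2) + 1) (by linarith),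
        eventually_gt_atTop 0] with p hp hp0
      apply ENNReal.div_lt_top
      · exact ne_top_of_le_ne_top ENNReal.ofReal_ne_top hp
      · simpa using hp0
    · have hb' : 1 / (3 * Real.log 2) < b.toReal := by
        rw [← ENNReal.toReal_ofReal hl0.le]
        exact (ENNReal.toReal_lt_toReal ENNReal.ofReal_ne_top hbt).mpr hb
      obtain ⟨a, ha1, ha2⟩ := exists_between hb'
      have ha0 : 0 ≤ a := hl0.le.trans ha1.le
      filter_upwards [eventually_hlawkaConst_le ha1, eventually_gt_atTop 0] with p hp hp0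
      have h1 : ENNReal.ofReal a < b := by
        rw [← ENNReal.ofReal_toReal hbt]
        exact (ENNReal.ofReal_lt_ofReal_iff (lt_of_le_of_lt ha0 ha2)).mpr ha2
      refine lt_of_le_of_lt ?_ h1
      rw [ENNReal.div_le_iff_le_mul (Or.inl (by simpa using hp0)) (Or.inl ENNReal.ofReal_ne_top),
        ← ENNReal.ofReal_mul ha0]
      exact hp

end Pool.Agent.Hlawka
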