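import Mathlib
import Pool.Agent.Hlawka.Defs
import Pool.Agent.Hlawka.Lower

/-!
# A lower bound of `C_p` of order `1 / ((p-1) log (1/(p-1)))` as `p` decreases to `1`
-/

namespace Pool.Agent.Hlawka

open Matrix Finset
open scoped ENNReal

/-- Schatten norm of a `2 × 2` matrix with prescribed singular values -/
lemma schatten_two {p a b : ℝ} (ha : 0 ≤ a) (hb : 0 ≤ b) (X : Matrix (Fin 2) (Fin 2) ℂ)
    (ht : (Xᴴ * X).trace = ((a ^ 2 + b ^ 2 : ℝ) : ℂ))
    (hd : (Xᴴ * X).det = (((a * b) ^ 2 : ℝ) : ℂ)) :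
    schattenNorm p X = (a ^ p + b ^ p) ^ (1 / p) := by
  have hA := isHermitian_conjTranspose_mul_self X
  have hd' := hA.det_eq_prod_eigenvalues
  have ht' := hA.trace_eq_sum_eigenvalues
  rw [hd, Fin.prod_univ_two] at hd'
  rw [ht, Fin.sum_univ_two] at ht'
  set l := hA.eigenvalues 0 with hl
  set m := hA.eigenvalues 1 with hm
  have e1 : a ^ 2 + b ^ 2 = l + m := Complex.ofReal_injective (by rw [Complex.ofReal_add l m]; exact ht')
  have e2 : (a * b) ^ 2 = l * m := Complex.ofReal_injective (by rw [Complex.ofReal_mul l m]; exact hd')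
  have e3 : (l - a ^ 2) * (l - b ^ 2) = 0 := by
    have : m = a ^ 2 + b ^ 2 - l := by linarith
    rw [this] at e2
    nlinarith
  unfold schattenNorm
  rw [Fin.sum_univ_two]
  congr 1
  rcases mul_eq_zero.1 e3 with h | h
  · have h0 : singularValue X 0 = a := by
      unfold singularValue
      rw [← hl, show l = a ^ 2 by linarith, Real.sqrt_sq ha]
    have h1 : singularValue X 1 = b := by
      unfold singularValue
      rw [← hm, show m = b ^ 2 by linarith, Real.sqrt_sq hb]
    rw [h0, h1]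
  · have h0 : singularValue X 0 = b := by
      unfold singularValue
      rw [← hl, show l = b ^ 2 by linarith, Real.sqrt_sq hb]
    have h1 : singularValue X 1 = a := by
      unfold singularValue
      rw [← hm, show m = a ^ 2 by linarith, Real.sqrt_sq ha]
    rw [h0, h1, add_comm]

/-- the real symmetric matrix `[[a, b], [b, c]]` -/
noncomputable def sy (a b c : ℝ) : Matrix (Fin 2) (Fin 2) ℂ :=
  !![(a : ℂ), (b : ℂ); (b : ℂ), (c : ℂ)]

lemma sy_add (a b c a' b' c' : ℝ) : sy a b c + sy a' b' c' = sy (a + a') (b + b') (c + c') := by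
  unfold sy
  ext i j
  fin_cases i <;> fin_cases j <;> simp

lemma sy_gram_trace (a b c : ℝ) :
    ((sy a b c)ᴴ * sy a b c).trace = ((a ^ 2 + 2 * b ^ 2 + c ^ 2 : ℝ) : ℂ) := by
  unfold sy
  simp [Matrix.trace, Matrix.mul_apply, Fin.sum_univ_two]
  ring

lemma sy_gram_det (a b c : ℝ) :
    ((sy a b c)ᴴ * sy a b c).det = (((a * c - b ^ 2) ^ 2 : ℝ) : ℂ) := by
  unfold sy
  rw [det_mul, det_conjTranspose, det_fin_two_of]
  simp
  ring

lemma schatten_sy {p a b c s t : ℝ} (hs : 0 ≤ s) (ht : 0 ≤ t)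
    (h1 : s ^ 2 + t ^ 2 = a ^ 2 + 2 * b ^ 2 + c ^ 2) (h2 : (s * t) ^ 2 = (a * c - b ^ 2) ^ 2) :
    schattenNorm p (sy a b c) = (s ^ p + t ^ p) ^ (1 / p) := by
  apply schatten_two hs ht
  · rw [sy_gram_trace, h1]
  · rw [sy_gram_det, h2]

/-- `v^{1/p} ≥ v - 2 (p-1) t` for `0 ≤ v ≤ 1 + t`, `t ≤ 1` -/
lemma root_lower {p v t : ℝ} (hp : 1 < p) (hv : 0 ≤ v) (ht : 0 ≤ t) (ht1 : t ≤ 1)
    (hvt : v ≤ 1 + t) : v - 2 * (p - 1) * t ≤ v ^ (1 / p) := by
  have hp0 : 0 < p := by linarith
  have hq : 1 / p ≤ 1 := by rw [div_le_one hp0]; exact hp.le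
  rcases le_total v 1 with h | h
  · have h1 : v ≤ v ^ (1 / p) := by
      rcases eq_or_lt_of_le hv with h0 | h0
      · rw [← h0]; exact Real.rpow_nonneg le_rfl _
      · calc v = v ^ (1 : ℝ) := (Real.rpow_one v).symm
          _ ≤ v ^ (1 / p) := Real.rpow_le_rpow_of_exponent_ge h0 h hq
    nlinarith [mul_nonneg (by linarith : (0 : ℝ) ≤ p - 1) ht]
  · have hv0 : 0 < v := by linarith
    have e1 : v ^ (1 / p) = v * v ^ (-((p - 1) / p)) := by
      rw [← Real.rpow_one_add' hv0.le]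
      · congr 1; field_simp; ring
      · have : 1 + -((p - 1) / p) = 1 / p := by field_simp; ring
        rw [this]; positivity
    have e2 : 1 - (p - 1) / p * Real.log v ≤ v ^ (-((p - 1) / p)) := by
      rw [Real.rpow_def_of_pos hv0]
      have := Real.add_one_le_exp (Real.log v * (-((p - 1) / p)))
      linarith
    have e3 : Real.log v ≤ t := (Real.log_le_sub_one_of_pos hv0).trans (by linarith)
    have e4 : 0 ≤ Real.log v := Real.log_nonneg h
    have e5 : (p - 1) / p ≤ p - 1 := by rw [div_le_iff₀ hp0]; nlinarith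
    have e6 : 0 ≤ (p - 1) / p := div_nonneg (by linarith) hp0.le
    have e7 : (p - 1) / p * Real.log v ≤ (p - 1) * t :=
      mul_le_mul e5 e3 e4 (by linarith)
    rw [e1]
    have e8 : v * (1 - (p - 1) * t) ≤ v * v ^ (-((p - 1) / p)) :=
      mul_le_mul_of_nonneg_left (by linarith) hv0.le
    refine le_trans ?_ e8
    have e9 : v ≤ 2 := by linarith
    nlinarith [mul_nonneg (mul_nonneg (by linarith : (0 : ℝ) ≤ p - 1) ht)
      (by linarith : (0 : ℝ) ≤ 2 - v)]

/-- `y^p ≥ y + (p-1) y log y` -/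
lemma rpow_lower_log {p y : ℝ} (hy : 0 < y) :
    y + (p - 1) * (y * Real.log y) ≤ y ^ p := by
  have e1 : y ^ p = y * y ^ (p - 1) := by
    rw [Real.rpow_sub_one hy.ne']
    field_simp
  have e2 : 1 + (p - 1) * Real.log y ≤ y ^ (p - 1) := by
    rw [Real.rpow_def_of_pos hy]
    have := Real.add_one_le_exp (Real.log y * (p - 1))
    linarith
  rw [e1]
  have := mul_le_mul_of_nonneg_left e2 hy.le
  linarith

/-- **Lower bound near `p = 1`.** -/
theorem lower_log {p : ℝ} (hp : 1 < p) (hp2 : p ≤ 2) :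
    ENNReal.ofReal (1 / (6 * (p - 1) * (1 + Real.log (1 / (p - 1))))) ≤ hlawkaConst p := by
  apply le_hlawkaConst
  intro C hC h
  have hp0 : 0 < p := by linarith
  set k := p - 1 with hk
  have hk0 : 0 < k := by rw [hk]; linarith
  have hk1 : k ≤ 1 := by rw [hk]; linarith
  set x := k / 4 with hx
  have hx0 : 0 < x := by positivity
  have hx1 : x ≤ 1 / 4 := by rw [hx]; linarith
  set y := Real.sqrt (x * (1 - x)) with hy
  have hy2 : y ^ 2 = x * (1 - x) := Real.sq_sqrt (mul_nonneg hx0.le (by linarith))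
  set L := Real.log (1 / x) with hL
  have hLx : Real.log x = -L := by rw [hL, one_div, Real.log_inv]; ring
  have hL0 : 0 ≤ L := Real.log_nonneg (by rw [le_div_iff₀ hx0]; linarith)
  have key := h 2 2 (by norm_num) (by norm_num) (sy x (-y) (1 - x)) (sy x y (1 - x))
    (sy (-(2 * x)) 0 0)
  unfold D₃ D₂ at key
  rw [sy_add, sy_add, sy_add, sy_add] at key
  have hroot : ∀ s : ℝ, 0 ≤ s → (s ^ p) ^ (1 / p) = s := fun s hs => by
    rw [← Real.rpow_mul hs, mul_one_div_cancel hp0.ne', Real.rpow_one]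
  have n1 : schattenNorm p (sy x (-y) (1 - x)) = 1 := by
    rw [schatten_sy (s := 1) (t := 0) (by norm_num) le_rfl (by nlinarith)
      (by rw [neg_sq, hy2]; ring), Real.zero_rpow hp0.ne', add_zero, hroot 1 (by norm_num)]
  have n2 : schattenNorm p (sy x y (1 - x)) = 1 := by
    rw [schatten_sy (s := 1) (t := 0) (by norm_num) le_rfl (by nlinarith)
      (by rw [hy2]; ring), Real.zero_rpow hp0.ne', add_zero, hroot 1 (by norm_num)]
  have n3 : schattenNorm p (sy (-(2 * x)) 0 0) = 2 * x := by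
    rw [schatten_sy (s := 2 * x) (t := 0) (by positivity) le_rfl (by ring)
      (by ring), Real.zero_rpow hp0.ne', add_zero, hroot _ (by positivity)]
  have n4 : schattenNorm p (sy (x + x + -(2 * x)) (-y + y + 0) (1 - x + (1 - x) + 0)) =
      2 * (1 - x) := by
    rw [schatten_sy (s := 2 * (1 - x)) (t := 0) (by linarith) le_rfl (by ring)
      (by ring), Real.zero_rpow hp0.ne', add_zero, hroot _ (by linarith)]
  -- the pair `(X, Y)`
  have n5 : 2 - 2 * k * x * (1 + L) ≤
      schattenNorm p (sy (x + x) (-y + y) (1 - x + (1 - x))) := by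
    rw [schatten_sy (s := 2 * x) (t := 2 * (1 - x)) (by positivity) (by linarith) (by ring)
      (by ring), Real.mul_rpow (by norm_num) hx0.le, Real.mul_rpow (by norm_num) (by linarith),
      ← mul_add, Real.mul_rpow (by positivity)
        (add_nonneg (Real.rpow_nonneg hx0.le _) (Real.rpow_nonneg (by linarith) _)),
      hroot 2 (by norm_num)]
    have h1 := rpow_lower_log (p := p) hx0
    have h2 := rpow_lower_log (p := p) (y := 1 - x) (by linarith)
    have h3 : -x ≤ (1 - x) * Real.log (1 - x) := by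
      have := Real.one_sub_inv_le_log_of_pos (show (0 : ℝ) < 1 - x by linarith)
      have h4 := mul_le_mul_of_nonneg_left this (show (0 : ℝ) ≤ 1 - x by linarith)
      have h5 : (1 - x) * (1 - (1 - x)⁻¹) = -x := by
        rw [mul_sub, mul_inv_cancel₀ (by linarith)]; ring
      linarith
    have hv1 : x ^ p + (1 - x) ^ p ≤ 1 + 0 := by
      have a1 : x ^ p ≤ x ^ (1 : ℝ) := Real.rpow_le_rpow_of_exponent_ge hx0 (by linarith) hp.le
      have a2 : (1 - x) ^ p ≤ (1 - x) ^ (1 : ℝ) :=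
        Real.rpow_le_rpow_of_exponent_ge (by linarith) (by linarith) hp.le
      rw [Real.rpow_one] at a1 a2
      linarith
    have h6 := root_lower hp (add_nonneg (Real.rpow_nonneg hx0.le _)
      (Real.rpow_nonneg (by linarith) _)) le_rfl (by norm_num) hv1
    rw [← hk] at h1 h2 h6
    rw [hLx] at h1
    have h7 : k * -x ≤ k * ((1 - x) * Real.log (1 - x)) := mul_le_mul_of_nonneg_left h3 hk0.le
    have h8 : 1 - k * x * (1 + L) ≤ x ^ p + (1 - x) ^ p := by
      have : k * (x * -L) = -(k * x * L) := by ring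
      linarith
    linarith
  -- the pairs `(X, Z)` and `(Y, Z)`
  have main : ∀ z : ℝ, z ^ 2 = x * (1 - x) →
      1 + 2 * x - 6 * x ^ 2 - 2 * k * x * (L + 2) ≤
        schattenNorm p (sy (x + -(2 * x)) z (1 - x + 0)) := by
    intro z hz
    set r := Real.sqrt (1 + 4 * x - 4 * x ^ 2) with hr
    have hrr : r ^ 2 = 1 + 4 * x - 4 * x ^ 2 := Real.sq_sqrt (by nlinarith)
    have hr0 : 0 ≤ r := Real.sqrt_nonneg _
    have hx3 : 0 ≤ x ^ 3 * (1 - x) := mul_nonneg (pow_pos hx0 3).le (by linarith)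
    have hr1 : 1 + 2 * x - 4 * x ^ 2 ≤ r := by
      apply Real.le_sqrt_of_sq_le
      have e : (1 + 2 * x - 4 * x ^ 2) ^ 2 = 1 + 4 * x - 4 * x ^ 2 - 16 * (x ^ 3 * (1 - x)) := by
        ring
      rw [e]; linarith
    have hs0 : 0 ≤ (r + (1 - 2 * x)) / 2 := by linarith
    have e0 : 2 * x * (1 - x) = 2 * x - 2 * x ^ 2 := by ring
    have hxx : x ^ 2 ≤ 1 / 16 := by nlinarith
    have ht0 : 2 * x * (1 - x) ≤ (r - (1 - 2 * x)) / 2 := by rw [e0]; linarith
    have ht0' : 0 < 2 * x * (1 - x) := mul_pos (by positivity) (by linarith)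
    have hs1 : 1 - 2 * x ^ 2 ≤ (r + (1 - 2 * x)) / 2 := by linarith
    have hs1' : 0 ≤ 1 - 2 * x ^ 2 := by linarith
    rw [schatten_sy (s := (r + (1 - 2 * x)) / 2) (t := (r - (1 - 2 * x)) / 2) hs0
      (ht0'.le.trans ht0) (by
        rw [hz]
        have e : ((r + (1 - 2 * x)) / 2) ^ 2 + ((r - (1 - 2 * x)) / 2) ^ 2 =
          (r ^ 2 + (1 - 2 * x) ^ 2) / 2 := by ring
        rw [e, hrr]; ring) (by
        rw [hz]
        have e : (r + (1 - 2 * x)) / 2 * ((r - (1 - 2 * x)) / 2) =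
          (r ^ 2 - (1 - 2 * x) ^ 2) / 4 := by ring
        rw [e, hrr]; ring)]
    set v := (1 - 2 * x ^ 2) ^ p + (2 * x * (1 - x)) ^ p with hv
    have hvle : v ≤ ((r + (1 - 2 * x)) / 2) ^ p + ((r - (1 - 2 * x)) / 2) ^ p :=
      add_le_add (Real.rpow_le_rpow hs1' hs1 hp0.le) (Real.rpow_le_rpow ht0'.le ht0 hp0.le)
    have hv0 : 0 ≤ v := add_nonneg (Real.rpow_nonneg hs1' _) (Real.rpow_nonneg ht0'.le _)
    have hvt : v ≤ 1 + 2 * x := by
      have hx2 : 0 ≤ x ^ 2 := sq_nonneg x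
      have a1 : (1 - 2 * x ^ 2) ^ p ≤ 1 := Real.rpow_le_one hs1' (by linarith) hp0.le
      have a2 : (2 * x * (1 - x)) ^ p ≤ (2 * x * (1 - x)) ^ (1 : ℝ) :=
        Real.rpow_le_rpow_of_exponent_ge ht0' (by linarith) hp.le
      rw [Real.rpow_one] at a2
      linarith
    have h6 := root_lower hp hv0 (show (0 : ℝ) ≤ 2 * x by positivity) (by linarith) hvt
    have h7 : v ^ (1 / p) ≤
        (((r + (1 - 2 * x)) / 2) ^ p + ((r - (1 - 2 * x)) / 2) ^ p) ^ (1 / p) :=
      Real.rpow_le_rpow hv0 hvle (by positivity)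
    have h8 : 1 - 4 * x ^ 2 ≤ (1 - 2 * x ^ 2) ^ p := by
      have := one_add_mul_self_le_rpow_one_add (s := -(2 * x ^ 2)) (by linarith) hp.le
      have e : (1 : ℝ) + -(2 * x ^ 2) = 1 - 2 * x ^ 2 := by ring
      rw [e] at this
      have e' := mul_nonneg (show (0 : ℝ) ≤ 2 - p by linarith) (sq_nonneg x)
      linarith
    have h9 := rpow_lower_log (p := p) ht0'
    have h10 : -(2 * x * L) ≤ 2 * x * (1 - x) * Real.log (2 * x * (1 - x)) := by
      have l1 : -L ≤ Real.log (2 * x * (1 - x)) := by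
        rw [← hLx]
        exact Real.log_le_log hx0 (by rw [e0]; nlinarith)
      have l2 : 2 * x * (1 - x) * -L ≤ 2 * x * (1 - x) * Real.log (2 * x * (1 - x)) :=
        mul_le_mul_of_nonneg_left l1 ht0'.le
      have l3 : 2 * x * (1 - x) * L ≤ 2 * x * L :=
        mul_le_mul_of_nonneg_right (by rw [e0]; nlinarith) hL0
      linarith
    rw [← hk] at h6 h9
    have h11 := mul_le_mul_of_nonneg_left h10 hk0.le
    have h12 : 1 + 2 * x - 6 * x ^ 2 - 2 * k * x * L ≤ v := by
      rw [hv]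
      have e1 : k * -(2 * x * L) = -(2 * k * x * L) := by ring
      linarith
    refine le_trans ?_ (h6.trans h7)
    have e1 : 2 * k * (2 * x) = 4 * k * x := by ring
    have e2 : 2 * k * x * (L + 2) = 2 * k * x * L + 4 * k * x := by ring
    linarith
  have n6 := main (-y + 0) (by rw [add_zero, neg_sq, hy2])
  have n7 := main (y + 0) (by rw [add_zero, hy2])
  rw [n1, n2, n3, n4] at key
  have hL4 : L ≤ 14 / 10 + Real.log (1 / k) := by
    have e1 : 1 / x = 4 * (1 / k) := by rw [hx]; field_simp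
    rw [hL, e1, Real.log_mul (by norm_num) (by positivity)]
    have : Real.log 4 = 2 * Real.log 2 := by
      rw [show (4 : ℝ) = 2 ^ 2 by norm_num, Real.log_pow]; norm_num
    rw [this]
    have := Real.log_two_lt_d9
    linarith
  have hl0 : 0 ≤ Real.log (1 / k) := Real.log_nonneg (by rw [le_div_iff₀ hk0]; linarith)
  set l := Real.log (1 / k) with hl
  have h1 : 4 * x ≤ C * (x * (k * (24 * (1 + l)))) := by
    refine le_trans (by linarith) (key.trans (mul_le_mul_of_nonneg_left ?_ hC))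
    have e1 : 1 + 1 - schattenNorm p (sy (x + x) (-y + y) (1 - x + (1 - x))) +
        (1 + 2 * x - schattenNorm p (sy (x + -(2 * x)) (-y + 0) (1 - x + 0))) +
        (1 + 2 * x - schattenNorm p (sy (x + -(2 * x)) (y + 0) (1 - x + 0))) ≤
        12 * x ^ 2 + k * x * (6 * L + 10) := by
      have q1 : 2 * k * x * (1 + L) = 2 * k * x + 2 * (k * x * L) := by ring
      have q2 : 2 * k * x * (L + 2) = 2 * (k * x * L) + 4 * (k * x) := by ring
      have q3 : k * x * (6 * L + 10) = 6 * (k * x * L) + 10 * (k * x) := by ring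
      rw [q1] at n5
      rw [q2] at n6 n7
      rw [q3]
      linarith
    refine e1.trans ?_
    have e2 : 12 * x ^ 2 = 3 * k * x := by rw [hx]; ring
    have e3 : k * x * (6 * L + 10) ≤ k * x * (6 * (14 / 10 + l) + 10) :=
      mul_le_mul_of_nonneg_left (by linarith) (by positivity)
    nlinarith [mul_nonneg (mul_pos hk0 hx0).le hl0, mul_pos hk0 hx0]
  have h2 : 4 ≤ C * (k * (24 * (1 + l))) := by
    have : x * 4 ≤ x * (C * (k * (24 * (1 + l)))) := by nlinarith
    exact le_of_mul_le_mul_left this hx0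
  rw [div_le_iff₀ (by positivity)]
  nlinarith

end Pool.Agent.Hlawka
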